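import Mathlib

set_option autoImplicit false

/-!
# Project ODD (MP_6cdc09_gt): the 2x2 forms of the scheme

Note 5207, [4] and [5].  `qv f1 Ap Am Bp Bm r m j l x y` is the form (Q), `N = j + l ≥ 2`.
`Good r m f0 f1 f2`: there are nonnegative `Ap, Am, Bp, Bm` with `f2 - f1 = Ap - Am`,
`f1 - f0 = Bp - Bm` and all forms (Q) nonnegative.
-/

namespace Pool.Agent.H89.ODD

/-- The form (Q). -/
noncomputable def qv (f1 Ap Am Bp Bm : ℝ) (r m j l : ℕ) (x y : ℝ) : ℝ :=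
  (((j : ℝ) + l - 1) * f1 - Ap * j - Am * j * ((j : ℝ) + l - 1) - Bp * l * ((j : ℝ) + l)) /
      ((j : ℝ) + l - 1) ^ 2 * (x + y) ^ 2 +
    ((Ap * (j + 2) + Bp * l) / ((j : ℝ) + r) - (Ap - Am)) * x ^ 2 +
    ((Am * j + Bm * (l + 2)) / ((l : ℝ) + 2 * m) + (Bp - Bm)) * y ^ 2

/-- The vertex condition. -/
def Good (r m : ℕ) (f0 f1 f2 : ℝ) : Prop :=
  ∃ Ap Am Bp Bm : ℝ, 0 ≤ Ap ∧ 0 ≤ Am ∧ 0 ≤ Bp ∧ 0 ≤ Bm ∧ f2 - f1 = Ap - Am ∧
    f1 - f0 = Bp - Bm ∧ ∀ j l : ℕ, 2 ≤ j + l → ∀ x y : ℝ, 0 ≤ qv f1 Ap Am Bp Bm r m j l x y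

theorem Good.add {r m : ℕ} {f0 f1 f2 g0 g1 g2 : ℝ} (hf : Good r m f0 f1 f2)
    (hg : Good r m g0 g1 g2) : Good r m (f0 + g0) (f1 + g1) (f2 + g2) := by
  obtain ⟨Ap, Am, Bp, Bm, h1, h2, h3, h4, h5, h6, h7⟩ := hf
  obtain ⟨Cp, Cm, Dp, Dm, k1, k2, k3, k4, k5, k6, k7⟩ := hg
  refine ⟨Ap + Cp, Am + Cm, Bp + Dp, Bm + Dm, add_nonneg h1 k1, add_nonneg h2 k2,
    add_nonneg h3 k3, add_nonneg h4 k4, by linarith, by linarith, fun j l hjl x y => ?_⟩
  have e1 := h7 j l hjl x y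
  have e2 := k7 j l hjl x y
  have e3 : qv (f1 + g1) (Ap + Cp) (Am + Cm) (Bp + Dp) (Bm + Dm) r m j l x y =
      qv f1 Ap Am Bp Bm r m j l x y + qv g1 Cp Cm Dp Dm r m j l x y := by
    unfold qv
    ring
  rw [e3]
  exact add_nonneg e1 e2

theorem Good.smul {r m : ℕ} {f0 f1 f2 c : ℝ} (hc : 0 ≤ c) (hf : Good r m f0 f1 f2) :
    Good r m (c * f0) (c * f1) (c * f2) := by
  obtain ⟨Ap, Am, Bp, Bm, h1, h2, h3, h4, h5, h6, h7⟩ := hf
  refine ⟨c * Ap, c * Am, c * Bp, c * Bm, mul_nonneg hc h1, mul_nonneg hc h2,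
    mul_nonneg hc h3, mul_nonneg hc h4, by rw [← mul_sub, ← mul_sub, h5],
    by rw [← mul_sub, ← mul_sub, h6], fun j l hjl x y => ?_⟩
  have e3 : qv (c * f1) (c * Ap) (c * Am) (c * Bp) (c * Bm) r m j l x y =
      c * qv f1 Ap Am Bp Bm r m j l x y := by
    unfold qv
    ring
  rw [e3]
  exact mul_nonneg hc (h7 j l hjl x y)

/-- Monotone in `m`. -/
theorem Good.mono {r m m' : ℕ} {f0 f1 f2 : ℝ} (hm' : 1 ≤ m') (hm : m' ≤ m)
    (hf : Good r m f0 f1 f2) : Good r m' f0 f1 f2 := by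
  obtain ⟨Ap, Am, Bp, Bm, h1, h2, h3, h4, h5, h6, h7⟩ := hf
  refine ⟨Ap, Am, Bp, Bm, h1, h2, h3, h4, h5, h6, fun j l hjl x y => ?_⟩
  have e := h7 j l hjl x y
  have e1 : (Am * j + Bm * (l + 2)) / ((l : ℝ) + 2 * m) ≤
      (Am * j + Bm * (l + 2)) / ((l : ℝ) + 2 * m') := by
    have a1 : (1 : ℝ) ≤ m' := by exact_mod_cast hm'
    have a2 : (m' : ℝ) ≤ m := by exact_mod_cast hm
    have a3 : (0 : ℝ) ≤ l := Nat.cast_nonneg l
    have a4 : (0 : ℝ) ≤ j := Nat.cast_nonneg j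
    refine div_le_div_of_nonneg_left (by positivity) (by linarith) (by linarith)
  have e2 : (Am * j + Bm * (l + 2)) / ((l : ℝ) + 2 * m) * y ^ 2 ≤
      (Am * j + Bm * (l + 2)) / ((l : ℝ) + 2 * m') * y ^ 2 :=
    mul_le_mul_of_nonneg_right e1 (sq_nonneg y)
  have e3 : qv f1 Ap Am Bp Bm r m' j l x y = qv f1 Ap Am Bp Bm r m j l x y +
      ((Am * j + Bm * (l + 2)) / ((l : ℝ) + 2 * m') * y ^ 2 -
        (Am * j + Bm * (l + 2)) / ((l : ℝ) + 2 * m) * y ^ 2) := by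
    unfold qv
    ring
  rw [e3]
  linarith

/-! ### Two by two forms -/

theorem qf_left {t g g' x y : ℝ} (h1 : 0 < t + g) (h2 : 0 ≤ t * (g + g') + g * g') :
    0 ≤ t * (x + y) ^ 2 + g * x ^ 2 + g' * y ^ 2 := by
  have e : (t + g) * (t * (x + y) ^ 2 + g * x ^ 2 + g' * y ^ 2) =
      ((t + g) * x + t * y) ^ 2 + (t * (g + g') + g * g') * y ^ 2 := by ring
  have e1 : 0 ≤ (t + g) * (t * (x + y) ^ 2 + g * x ^ 2 + g' * y ^ 2) := by
    rw [e]
    positivity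
  exact nonneg_of_mul_nonneg_right e1 h1

theorem qf_right {t g g' x y : ℝ} (h1 : 0 < t + g') (h2 : 0 ≤ t * (g + g') + g * g') :
    0 ≤ t * (x + y) ^ 2 + g * x ^ 2 + g' * y ^ 2 := by
  have h3 : 0 ≤ t * (g' + g) + g' * g := by linarith
  have := qf_left (x := y) (y := x) h1 h3
  have e : t * (y + x) ^ 2 + g' * y ^ 2 + g * x ^ 2 =
    t * (x + y) ^ 2 + g * x ^ 2 + g' * y ^ 2 := by ring
  linarith

theorem qf_nonneg {t g g' x y : ℝ} (hg : 0 ≤ g) (hg' : 0 ≤ g')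
    (h : 0 ≤ t ∨ 0 < g + g') (h2 : 0 ≤ t * (g + g') + g * g') :
    0 ≤ t * (x + y) ^ 2 + g * x ^ 2 + g' * y ^ 2 := by
  by_cases ht : 0 ≤ t
  · positivity
  · have hs : 0 < g + g' := h.resolve_left ht
    have e : (g + g') * (t * (x + y) ^ 2 + g * x ^ 2 + g' * y ^ 2) =
        (t * (g + g') + g * g') * (x + y) ^ 2 + (g * x - g' * y) ^ 2 := by ring
    have e1 : 0 ≤ (g + g') * (t * (x + y) ^ 2 + g * x ^ 2 + g' * y ^ 2) := by
      rw [e]
      positivity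
    exact nonneg_of_mul_nonneg_right e1 hs

/-! ### The three cases -/

/-- (MM) -/
theorem mm {r m j l : ℕ} (hr : 1 ≤ r) (hm : 1 ≤ m) (hjl : 2 ≤ j + l) {f1 Am Bm : ℝ} (hf : 0 < f1)
    (hA : 0 ≤ Am) (h1 : (2 * (m : ℝ) + 1) * Am ≤ f1)
    (h2 : (2 * (m : ℝ) - 2) * Bm ≤ f1)
    (h3 : (2 * (m : ℝ) - 2) * Bm * (f1 - Am) ≤ 2 * m * Am * f1) (x y : ℝ) :
    0 ≤ qv f1 0 Am 0 Bm r m j l x y := by
  have hN : (0 : ℝ) < (j : ℝ) + l - 1 := by
    have : (2 : ℝ) ≤ (j : ℝ) + l := by exact_mod_cast hjl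
    linarith
  have hr' : (1 : ℝ) ≤ r := by exact_mod_cast hr
  have hm' : (1 : ℝ) ≤ m := by exact_mod_cast hm
  have hj : (0 : ℝ) ≤ j := Nat.cast_nonneg j
  have hl : (0 : ℝ) ≤ l := Nat.cast_nonneg l
  have hJ : (0 : ℝ) < (j : ℝ) + r := by linarith
  have hL : (0 : ℝ) < (l : ℝ) + 2 * m := by linarith
  have e : qv f1 0 Am 0 Bm r m j l x y =
      (f1 - Am * j) / ((j : ℝ) + l - 1) * (x + y) ^ 2 + Am * x ^ 2 +
        (Am * j - (2 * m - 2) * Bm) / ((l : ℝ) + 2 * m) * y ^ 2 := by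
    unfold qv
    field_simp
    ring
  rw [e]
  have hAf : Am < f1 := by
    rcases hA.eq_or_lt with h | h
    · rw [← h]
      exact hf
    · nlinarith
  refine qf_left ?_ ?_
  · have e1 : (f1 - Am * j) / ((j : ℝ) + l - 1) + Am =
        (f1 - Am + Am * l) / ((j : ℝ) + l - 1) := by
      field_simp
      ring
    rw [e1]
    have : 0 ≤ Am * l := mul_nonneg hA hl
    exact div_pos (by linarith) hN
  · have e1 : (f1 - Am * j) / ((j : ℝ) + l - 1) *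
          (Am + (Am * j - (2 * m - 2) * Bm) / ((l : ℝ) + 2 * m)) +
        Am * ((Am * j - (2 * m - 2) * Bm) / ((l : ℝ) + 2 * m)) =
        ((2 * m * Am * f1 - (2 * m - 2) * Bm * (f1 - Am)) +
          l * Am * (f1 - (2 * m - 2) * Bm) + j * Am * (f1 - (2 * m + 1) * Am)) /
          (((j : ℝ) + l - 1) * ((l : ℝ) + 2 * m)) := by
      field_simp
      ring
    rw [e1]
    have a1 : 0 ≤ l * Am * (f1 - (2 * m - 2) * Bm) :=
      mul_nonneg (mul_nonneg hl hA) (by linarith)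
    have a2 : 0 ≤ j * Am * (f1 - (2 * m + 1) * Am) :=
      mul_nonneg (mul_nonneg hj hA) (by linarith)
    exact div_nonneg (by linarith) (mul_pos hN hL).le

/-- The corner polynomial of (MP). -/
theorem corner_nonneg {r m j l : ℕ} (hr : 1 ≤ r) (hjl : 2 ≤ j + l) :
    0 ≤ ((r : ℝ) + 3) * ((((r : ℝ) + 3) * ((j : ℝ) + l - 1) * ((j : ℝ) + r) * ((l : ℝ) + 2 * m)) +
      (-((j : ℝ) * l) * ((2 * m + r + 3) * ((j : ℝ) + l) - r - 2) -
        ((r : ℝ) + 1) * ((j : ℝ) + l - 1) * (2 * m) * j - (2 * ((j : ℝ) + l) - 1) * r * l +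
        2 * m * r * ((j : ℝ) + l - 1) ^ 2 - 2 * m * r * ((j : ℝ) + l) * l)) +
      (2 * (m : ℝ) + 1) * ((l : ℝ) + 2 * m) *
        (((r : ℝ) + 3) * ((j : ℝ) + l - 1) * ((j : ℝ) + l + r) -
          l * (((r : ℝ) + 2) * ((j : ℝ) + l) - 1)) := by
  obtain ⟨r, rfl⟩ := Nat.exists_eq_add_of_le hr
  have hr0 : (0 : ℝ) ≤ r := Nat.cast_nonneg r
  have hm0 : (0 : ℝ) ≤ m := Nat.cast_nonneg m
  have hj0 : (0 : ℝ) ≤ j := Nat.cast_nonneg j
  have hl0 : (0 : ℝ) ≤ l := Nat.cast_nonneg l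
  by_cases h1 : 2 ≤ j
  · obtain ⟨j, rfl⟩ := Nat.exists_eq_add_of_le h1
    have hj0 : (0 : ℝ) ≤ j := Nat.cast_nonneg j
    push_cast
    ring_nf
    positivity
  · by_cases h2 : 2 ≤ l
    · obtain ⟨l, rfl⟩ := Nat.exists_eq_add_of_le h2
      have hl0 : (0 : ℝ) ≤ l := Nat.cast_nonneg l
      push_cast
      ring_nf
      positivity
    · have h3 : j = 1 := by omega
      have h4 : l = 1 := by omega
      subst h3 h4
      push_cast
      ring_nf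
      positivity

theorem y2_nonneg {r j l : ℕ} (hr : 1 ≤ r) (hjl : 2 ≤ j + l) :
    0 ≤ ((r : ℝ) + 3) * ((j : ℝ) + l - 1) * ((j : ℝ) + l + r) -
          l * (((r : ℝ) + 2) * ((j : ℝ) + l) - 1) := by
  obtain ⟨r, rfl⟩ := Nat.exists_eq_add_of_le hr
  by_cases h1 : 2 ≤ j
  · obtain ⟨j, rfl⟩ := Nat.exists_eq_add_of_le h1
    push_cast
    ring_nf
    positivity
  · by_cases h2 : 2 ≤ l
    · obtain ⟨l, rfl⟩ := Nat.exists_eq_add_of_le h2
      push_cast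
      ring_nf
      positivity
    · have h3 : j = 1 := by omega
      have h4 : l = 1 := by omega
      subst h3 h4
      push_cast
      ring_nf
      positivity

/-- (MP) -/
theorem mp {r m j l : ℕ} (hr : 1 ≤ r) (hm : 1 ≤ m) (hjl : 2 ≤ j + l) {f1 a b : ℝ} (hf : 0 < f1)
    (ha : 0 ≤ a) (hb : 0 ≤ b) (h1 : (2 * (m : ℝ) + 1) * a ≤ f1) (h2 : ((r : ℝ) + 3) * b ≤ f1)
    (x y : ℝ) : 0 ≤ qv f1 0 a b 0 r m j l x y := by
  have hN : (0 : ℝ) < (j : ℝ) + l - 1 := by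
    have : (2 : ℝ) ≤ (j : ℝ) + l := by exact_mod_cast hjl
    linarith
  have hr' : (1 : ℝ) ≤ r := by exact_mod_cast hr
  have hm' : (1 : ℝ) ≤ m := by exact_mod_cast hm
  have hj : (0 : ℝ) ≤ j := Nat.cast_nonneg j
  have hl : (0 : ℝ) ≤ l := Nat.cast_nonneg l
  have hJ : (0 : ℝ) < (j : ℝ) + r := by linarith
  have hL : (0 : ℝ) < (l : ℝ) + 2 * m := by linarith
  have hE := corner_nonneg (m := m) hr hjl
  have hY := y2_nonneg hr hjl
  have e : qv f1 0 a b 0 r m j l x y =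
      (((j : ℝ) + l - 1) * (f1 - a * j) - b * l * ((j : ℝ) + l)) / ((j : ℝ) + l - 1) ^ 2 *
        (x + y) ^ 2 + (a + b * l / ((j : ℝ) + r)) * x ^ 2 +
        (b + a * j / ((l : ℝ) + 2 * m)) * y ^ 2 := by
    unfold qv
    ring
  rw [e]
  set E : ℝ := ((r : ℝ) + 3) * ((((r : ℝ) + 3) * ((j : ℝ) + l - 1) * ((j : ℝ) + r) *
      ((l : ℝ) + 2 * m)) +
      (-((j : ℝ) * l) * ((2 * m + r + 3) * ((j : ℝ) + l) - r - 2) -
        ((r : ℝ) + 1) * ((j : ℝ) + l - 1) * (2 * m) * j - (2 * ((j : ℝ) + l) - 1) * r * l +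
        2 * m * r * ((j : ℝ) + l - 1) ^ 2 - 2 * m * r * ((j : ℝ) + l) * l)) +
      (2 * (m : ℝ) + 1) * ((l : ℝ) + 2 * m) *
        (((r : ℝ) + 3) * ((j : ℝ) + l - 1) * ((j : ℝ) + l + r) -
          l * (((r : ℝ) + 2) * ((j : ℝ) + l) - 1)) with hEd
  set Y : ℝ := ((r : ℝ) + 3) * ((j : ℝ) + l - 1) * ((j : ℝ) + l + r) -
          l * (((r : ℝ) + 2) * ((j : ℝ) + l) - 1) with hYd
  have hk : (0 : ℝ) ≤ ((r : ℝ) + 2) * ((j : ℝ) + l) - 1 := by nlinarith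
  refine qf_nonneg (by positivity) (by positivity) ?_ ?_
  · by_cases h0 : 0 < a + b
    · right
      have : 0 ≤ b * l / ((j : ℝ) + r) := by positivity
      have : 0 ≤ a * j / ((l : ℝ) + 2 * m) := by positivity
      linarith
    · left
      have ha0 : a = 0 := by linarith
      have hb0 : b = 0 := by linarith
      rw [ha0, hb0]
      have : 0 ≤ ((j : ℝ) + l - 1) * f1 := by positivity
      refine div_nonneg ?_ (by positivity)
      linarith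
  · have e1 : (((j : ℝ) + l - 1) * (f1 - a * j) - b * l * ((j : ℝ) + l)) / ((j : ℝ) + l - 1) ^ 2 *
          (a + b * l / ((j : ℝ) + r) + (b + a * j / ((l : ℝ) + 2 * m))) +
        (a + b * l / ((j : ℝ) + r)) * (b + a * j / ((l : ℝ) + 2 * m)) =
        (((r : ℝ) + 3) * ((j : ℝ) + l - 1) * ((j : ℝ) + r) * a *
            (j * (f1 - (2 * m + 1) * a) + ((l : ℝ) + 2 * m) * (f1 - (r + 3) * b)) +
          b * ((l : ℝ) + 2 * m) * ((f1 - (2 * m + 1) * a) * Y +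
            (f1 - (r + 3) * b) * (l * (((r : ℝ) + 2) * ((j : ℝ) + l) - 1))) + a * b * E) /
          (((r : ℝ) + 3) * ((j : ℝ) + l - 1) ^ 2 * ((j : ℝ) + r) * ((l : ℝ) + 2 * m)) := by
      rw [hEd, hYd]
      field_simp
      ring
    rw [e1]
    have b1 : 0 ≤ f1 - (2 * m + 1) * a := by linarith
    have b2 : 0 ≤ f1 - (r + 3) * b := by linarith
    refine div_nonneg ?_ (by positivity)
    have c1 : 0 ≤ ((r : ℝ) + 3) * ((j : ℝ) + l - 1) * ((j : ℝ) + r) * a *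
            (j * (f1 - (2 * m + 1) * a) + ((l : ℝ) + 2 * m) * (f1 - (r + 3) * b)) := by
      have := hN.le
      positivity
    have c2 : 0 ≤ b * ((l : ℝ) + 2 * m) * ((f1 - (2 * m + 1) * a) * Y +
            (f1 - (r + 3) * b) * (l * (((r : ℝ) + 2) * ((j : ℝ) + l) - 1))) := by
      positivity
    have c3 : 0 ≤ a * b * E := by positivity
    linarith

theorem x2_nonneg {r j l : ℕ} (hr : 2 ≤ r) (hjl : 2 ≤ j + l) :
    0 ≤ (r : ℝ) ^ 2 * (r + 3) * ((j : ℝ) + l - 1) * ((j : ℝ) + l + r) -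
      r * ((r : ℝ) + 3) ^ 2 * ((j : ℝ) + l - 1) * (r - 2) + ((r : ℝ) - 2) * (r + 3) ^ 2 * j +
      r * ((r : ℝ) + 3) * ((r - 2) * (2 * ((j : ℝ) + l) - 1) - (r - 1) * j * ((j : ℝ) + l) - r * j) -
      (r : ℝ) ^ 2 * l * ((r + 2) * ((j : ℝ) + l) - 1) := by
  obtain ⟨r, rfl⟩ := Nat.exists_eq_add_of_le hr
  by_cases h1 : 2 ≤ j
  · obtain ⟨j, rfl⟩ := Nat.exists_eq_add_of_le h1
    push_cast
    ring_nf
    positivity
  · by_cases h2 : 2 ≤ l
    · obtain ⟨l, rfl⟩ := Nat.exists_eq_add_of_le h2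
      push_cast
      ring_nf
      positivity
    · have h3 : j = 1 := by omega
      have h4 : l = 1 := by omega
      subst h3 h4
      push_cast
      ring_nf
      positivity

theorem xy_nonneg {r j l : ℕ} (hr : 1 ≤ r) (hjl : 2 ≤ j + l) :
    0 ≤ 2 * ((j : ℝ) + l - 1) * ((j : ℝ) + l + r) * (r : ℝ) ^ 2 * (r + 3) -
      ((j : ℝ) + l - 1) * (r - 2) * r * (r + 3) ^ 2 +
      r * ((r : ℝ) + 3) * ((r - 2) * (2 * ((j : ℝ) + l) - 1) - (r - 1) * j * ((j : ℝ) + l) - r * j) -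
      2 * (r : ℝ) ^ 2 * l * ((r + 2) * ((j : ℝ) + l) - 1) := by
  obtain ⟨r, rfl⟩ := Nat.exists_eq_add_of_le hr
  by_cases h1 : 2 ≤ j
  · obtain ⟨j, rfl⟩ := Nat.exists_eq_add_of_le h1
    push_cast
    ring_nf
    positivity
  · by_cases h2 : 2 ≤ l
    · obtain ⟨l, rfl⟩ := Nat.exists_eq_add_of_le h2
      push_cast
      ring_nf
      positivity
    · have h3 : j = 1 := by omega
      have h4 : l = 1 := by omega
      subst h3 h4
      push_cast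
      ring_nf
      positivity

/-- (PP) -/
theorem pp {r m j l : ℕ} (hr : 2 ≤ r) (hm : 1 ≤ m) (hjl : 2 ≤ j + l) {f1 A B : ℝ} (hf : 0 < f1)
    (hA : 0 ≤ A) (h1 : (r : ℝ) * A ≤ (r + 3) * B) (h2 : ((r : ℝ) + 3) * B ≤ f1)
    (x y : ℝ) : 0 ≤ qv f1 A 0 B 0 r m j l x y := by
  have hN : (0 : ℝ) < (j : ℝ) + l - 1 := by
    have : (2 : ℝ) ≤ (j : ℝ) + l := by exact_mod_cast hjl
    linarith
  have hN1 : (1 : ℝ) ≤ (j : ℝ) + l - 1 := by
    have : (2 : ℝ) ≤ (j : ℝ) + l := by exact_mod_cast hjl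
    linarith
  have hr' : (2 : ℝ) ≤ r := by exact_mod_cast hr
  have hm' : (1 : ℝ) ≤ m := by exact_mod_cast hm
  have hj : (0 : ℝ) ≤ j := Nat.cast_nonneg j
  have hl : (0 : ℝ) ≤ l := Nat.cast_nonneg l
  have hJ : (0 : ℝ) < (j : ℝ) + r := by linarith
  have hL : (0 : ℝ) < (l : ℝ) + 2 * m := by linarith
  have hX2 := x2_nonneg hr hjl
  have hXY := xy_nonneg (by omega : 1 ≤ r) hjl
  have hY := y2_nonneg (by omega : 1 ≤ r) hjl
  have hB : 0 ≤ B := by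
    have : 0 ≤ (r : ℝ) * A := by positivity
    by_contra hc
    have : ((r : ℝ) + 3) * B < 0 := mul_neg_of_pos_of_neg (by linarith) (not_le.1 hc)
    linarith
  have e : qv f1 A 0 B 0 r m j l x y =
      (((j : ℝ) + l - 1) * f1 - A * j - B * l * ((j : ℝ) + l)) / ((j : ℝ) + l - 1) ^ 2 *
        (x + y) ^ 2 + ((B * l - (r - 2) * A) / ((j : ℝ) + r)) * x ^ 2 + B * y ^ 2 := by
    unfold qv
    field_simp
    ring
  rw [e]
  refine qf_right ?_ ?_
  · have e1 : (((j : ℝ) + l - 1) * f1 - A * j - B * l * ((j : ℝ) + l)) / ((j : ℝ) + l - 1) ^ 2 +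
        B = (((j : ℝ) + l - 1) * f1 - A * j + B * (j * ((j : ℝ) + l) - 2 * ((j : ℝ) + l) + 1)) /
          ((j : ℝ) + l - 1) ^ 2 := by
      field_simp
      ring
    rw [e1]
    refine div_pos ?_ (by positivity)
    have h3 : (r : ℝ) * A ≤ f1 := h1.trans h2
    have h4 : 2 * A ≤ f1 := le_trans (mul_le_mul_of_nonneg_right hr' hA) h3
    have h5 : 5 * B ≤ f1 := le_trans (mul_le_mul_of_nonneg_right (by linarith) hB) h2
    rcases Nat.lt_or_ge j 2 with hj2 | hj2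
    · have hj3 : j = 0 ∨ j = 1 := by omega
      rcases hj3 with rfl | rfl
      · push_cast
        have hl2 : (2 : ℝ) ≤ l := by
          have : 2 ≤ l := by omega
          exact_mod_cast this
        nlinarith
      · push_cast
        have hl2 : (1 : ℝ) ≤ l := by
          have : 1 ≤ l := by omega
          exact_mod_cast this
        nlinarith
    · have hj4 : (2 : ℝ) ≤ j := by exact_mod_cast hj2
      have h6 : 0 ≤ B * (j * ((j : ℝ) + l) - 2 * ((j : ℝ) + l) + 1) := by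
        refine mul_nonneg hB ?_
        nlinarith
      rcases hA.eq_or_lt with hA0 | hA0
      · rw [← hA0]
        have : 0 < ((j : ℝ) + l - 1) * f1 := by positivity
        linarith
      · have hB0 : 0 < B := by
          by_contra hc
          have hB1 : B = 0 := le_antisymm (not_lt.1 hc) hB
          have : 0 < (r : ℝ) * A := by positivity
          rw [hB1] at h1
          linarith
        have h7 : B ≤ B * (j * ((j : ℝ) + l) - 2 * ((j : ℝ) + l) + 1) := by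
          have h9 : 0 ≤ B * (((j : ℝ) - 2) * ((j : ℝ) + l)) :=
            mul_nonneg hB (mul_nonneg (by linarith) (by linarith))
          have h10 : B * (j * ((j : ℝ) + l) - 2 * ((j : ℝ) + l) + 1) =
            B + B * (((j : ℝ) - 2) * ((j : ℝ) + l)) := by ring
          linarith
        have h8 : A * j ≤ ((j : ℝ) + l - 1) * f1 := by
          have h9 : A * j ≤ A * (2 * ((j : ℝ) + l - 1)) :=
            mul_le_mul_of_nonneg_left (by linarith) hA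
          have h10 : ((j : ℝ) + l - 1) * (2 * A) ≤ ((j : ℝ) + l - 1) * f1 :=
            mul_le_mul_of_nonneg_left h4 hN.le
          linarith
        linarith
  · have e1 : (((j : ℝ) + l - 1) * f1 - A * j - B * l * ((j : ℝ) + l)) / ((j : ℝ) + l - 1) ^ 2 *
          ((B * l - (r - 2) * A) / ((j : ℝ) + r) + B) +
        (B * l - (r - 2) * A) / ((j : ℝ) + r) * B =
        (((r : ℝ) ^ 2 * (r + 3) * ((j : ℝ) + l - 1) * ((j : ℝ) + l + r) -
      r * ((r : ℝ) + 3) ^ 2 * ((j : ℝ) + l - 1) * (r - 2) + ((r : ℝ) - 2) * (r + 3) ^ 2 * j +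
      r * ((r : ℝ) + 3) * ((r - 2) * (2 * ((j : ℝ) + l) - 1) - (r - 1) * j * ((j : ℝ) + l) - r * j) -
      (r : ℝ) ^ 2 * l * ((r + 2) * ((j : ℝ) + l) - 1)) * (r * A) ^ 2 +
          (2 * ((j : ℝ) + l - 1) * ((j : ℝ) + l + r) * (r : ℝ) ^ 2 * (r + 3) -
      ((j : ℝ) + l - 1) * (r - 2) * r * (r + 3) ^ 2 +
      r * ((r : ℝ) + 3) * ((r - 2) * (2 * ((j : ℝ) + l) - 1) - (r - 1) * j * ((j : ℝ) + l) - r * j) -
      2 * (r : ℝ) ^ 2 * l * ((r + 2) * ((j : ℝ) + l) - 1)) * ((r * A) * ((r + 3) * B - r * A)) +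
          (((j : ℝ) + l - 1) * r * (r + 3) * (r * ((j : ℝ) + l) - r + 6)) *
            ((r * A) * (f1 - (r + 3) * B)) +
          (r : ℝ) ^ 2 * (((r : ℝ) + 3) * ((j : ℝ) + l - 1) * ((j : ℝ) + l + r) -
          l * (((r : ℝ) + 2) * ((j : ℝ) + l) - 1)) * ((r + 3) * B - r * A) ^ 2 +
          (((j : ℝ) + l - 1) * ((j : ℝ) + l + r) * r ^ 2 * (r + 3)) *
            (((r + 3) * B - r * A) * (f1 - (r + 3) * B))) /
          ((r : ℝ) ^ 2 * (r + 3) ^ 2 * ((j : ℝ) + l - 1) ^ 2 * ((j : ℝ) + r)) := by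
      field_simp
      ring
    rw [e1]
    have b0 : 0 ≤ (r : ℝ) * A := by positivity
    have b1 : 0 ≤ (r + 3) * B - r * A := by linarith
    have b2 : 0 ≤ f1 - (r + 3) * B := by linarith
    have b3 : 0 ≤ r * ((j : ℝ) + l) - r + 6 := by
      have h9 : (r : ℝ) * 1 ≤ r * ((j : ℝ) + l) :=
        mul_le_mul_of_nonneg_left (by linarith) (by linarith)
      linarith
    have := hN.le
    refine div_nonneg ?_ (by positivity)
    positivity

end Pool.Agent.H89.ODD
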