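import Mathlib
import Pool.Agent.H35.ODD.Defs
import Pool.Agent.H89.ODD.QPos

set_option autoImplicit false

/-!
# Project ODD (MP_6cdc09_gt): triples

`tri_of`: a triple in one of the regions (MM), (MP), (PP) of note 5207 satisfies `Tri`.
-/

open Pool.Agent.H35.ODD

namespace Pool.Agent.H89.ODD

theorem QQf_eq (r m : ℕ) (f1 Ap Am Bp Bm : ℝ) (j l : ℕ) (x y : ℝ) :
    QQf r m f1 Ap Am Bp Bm j l x y = qv f1 Ap Am Bp Bm r m j l x y := by
  unfold QQf qv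
  ring

theorem tt0_nonneg {r j l : ℕ} (hr : 2 ≤ r) (hjl : 2 ≤ j + l) {f1 Ap Am Bp : ℝ}
    (hAp : 0 ≤ Ap) (hAm : 0 ≤ Am) (hBp : 0 ≤ Bp) (h1 : (r : ℝ) * Ap + 3 * Am ≤ f1)
    (h2 : 4 * Bp ≤ f1) : 0 ≤ TT0 f1 Ap Am Bp j l := by
  unfold TT0
  have hr' : (2 : ℝ) ≤ r := by exact_mod_cast hr
  have hN : (2 : ℝ) ≤ (j : ℝ) + l := by exact_mod_cast hjl
  have hj : (0 : ℝ) ≤ j := Nat.cast_nonneg j
  have hl : (0 : ℝ) ≤ l := Nat.cast_nonneg l
  have h3 : 2 * Ap + 3 * Am ≤ f1 := by nlinarith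
  set N : ℝ := (j : ℝ) + l with hNd
  have a1 : Ap * j ≤ Ap * N * (N - 1) := by
    have : (j : ℝ) ≤ N * (N - 1) := by nlinarith
    nlinarith [mul_le_mul_of_nonneg_left this hAp]
  have a2 : Am * j * (N - 1) ≤ Am * N * (N - 1) := by
    have : (j : ℝ) ≤ N := by linarith
    have h4 := mul_le_mul_of_nonneg_left this hAm
    exact mul_le_mul_of_nonneg_right h4 (by linarith)
  have a3 : Bp * l * N ≤ Bp * N * (2 * (N - 1)) := by
    have : (l : ℝ) ≤ 2 * (N - 1) := by linarith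
    have h4 : Bp * N * (l : ℝ) ≤ Bp * N * (2 * (N - 1)) :=
      mul_le_mul_of_nonneg_left this (mul_nonneg hBp (by linarith))
    linarith
  have a4 : 0 ≤ (f1 - Ap - Am - 2 * Bp) * (N * (N - 1)) := by
    refine mul_nonneg ?_ (mul_nonneg (by linarith) (by linarith))
    linarith
  nlinarith

/-- The same for `r = 1` and `Ap = 0`. -/
theorem tt0_nonneg' {j l : ℕ} (hjl : 2 ≤ j + l) {f1 Am Bp : ℝ}
    (hAm : 0 ≤ Am) (hBp : 0 ≤ Bp) (h1 : 3 * Am ≤ f1)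
    (h2 : 4 * Bp ≤ f1) : 0 ≤ TT0 f1 0 Am Bp j l :=
  tt0_nonneg (r := 2) le_rfl hjl le_rfl hAm hBp (by linarith) h2

theorem tri_mm {r m : ℕ} (hr : 1 ≤ r) (hm : 1 ≤ m) {f0 f1 f2 : ℝ} (hf1 : 0 < f1)
    (hA : 2 * (m : ℝ) * f1 ≤ (2 * m + 1) * f2) (h01 : f1 ≤ f0)
    (h : (2 * (m : ℝ) - 2) * f0 * f2 ≤ 2 * m * f1 ^ 2 - 2 * f1 * f2) : Tri r m f0 f1 f2 := by
  have hm' : (1 : ℝ) ≤ m := by exact_mod_cast hm
  have hf2 : 0 < f2 := by
    have : 0 < (2 * (m : ℝ) + 1) * f2 := lt_of_lt_of_le (by positivity) hA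
    exact (mul_pos_iff_of_pos_left (by positivity)).1 this
  have h21 : f2 ≤ f1 := by
    by_contra hc
    have hc' := not_le.1 hc
    have e1 : (2 * (m : ℝ) - 2) * f1 * f1 ≤ (2 * (m : ℝ) - 2) * f0 * f2 := by
      have : (0 : ℝ) ≤ 2 * m - 2 := by linarith
      have e2 : f1 * f1 ≤ f0 * f2 := mul_le_mul h01 hc'.le hf1.le (by linarith)
      nlinarith
    nlinarith
  -- `(2m-2) Bm ≤ f1`
  have hB : (2 * (m : ℝ) - 2) * (f0 - f1) ≤ f1 := by
    by_contra hc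
    have hc' := not_le.1 hc
    have e1 : (2 * (m : ℝ) - 1) * f1 * f2 < (2 * m - 2) * f0 * f2 := by
      have : (2 * (m : ℝ) - 1) * f1 < (2 * m - 2) * f0 := by linarith
      exact mul_lt_mul_of_pos_right this hf2
    have e2 : (2 * (m : ℝ) * f1) * f1 ≤ ((2 * m + 1) * f2) * f1 :=
      mul_le_mul_of_nonneg_right hA hf1.le
    nlinarith
  have hAm : (2 * (m : ℝ) + 1) * (f1 - f2) ≤ f1 := by linarith
  have h3 : (2 * (m : ℝ) - 2) * (f0 - f1) * (f1 - (f1 - f2)) ≤ 2 * m * (f1 - f2) * f1 := by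
    nlinarith
  refine ⟨⟨0, f1 - f2, 0, f0 - f1, le_rfl, by linarith, le_rfl, by linarith, by ring, by ring,
    fun j l hjl => ⟨tt0_nonneg' hjl (by linarith) le_rfl (by nlinarith) (by linarith),
      fun x y => ?_⟩⟩, ?_⟩
  · rw [QQf_eq]
    exact mm hr hm hjl hf1 (by linarith) hAm hB h3 x y
  · rcases Nat.lt_or_ge m 2 with hm2 | hm2
    · have hm1 : m = 1 := by omega
      subst hm1
      refine ⟨f0 - f1, 0, 0, 0, 0, 0, f1, f1, f2, ⟨le_rfl, by ring, fun h => by omega⟩,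
        Or.inr ⟨rfl, rfl, rfl⟩, ⟨hf1.le, h21, le_rfl, hA, ?_⟩, by ring, by ring, by ring⟩
      nlinarith
    · have hm2' : (2 : ℝ) ≤ m := by exact_mod_cast hm2
      set b : ℝ := (2 * m - 2) * (f0 - f1) with hb
      have hb0 : 0 ≤ b := mul_nonneg (by linarith) (by linarith)
      refine ⟨b + (f0 - f1), b, b * (2 * m / (2 * m + 1)), 0, 0, 0, f1 - b, f1 - b,
        f2 - b * (2 * m / (2 * m + 1)), ⟨hb0, rfl, fun _ => ?_⟩, Or.inr ⟨rfl, rfl, rfl⟩,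
        ⟨by linarith, ?_, le_rfl, ?_, ?_⟩, by ring, by ring, by ring⟩
      · rw [hb]
        ring
      · have e1 : b ≤ (2 * m + 1) * (f1 - f2) := by
          have e2 : b * (f1 - f2) ≤ f1 * (f1 - f2) :=
            mul_le_mul_of_nonneg_right hB (by linarith)
          have e3 : b * f1 ≤ ((2 * m + 1) * (f1 - f2)) * f1 := by nlinarith
          exact le_of_mul_le_mul_right e3 hf1
        have e4 : b * (2 * m / (2 * m + 1)) = b - b / (2 * m + 1) := by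
          field_simp
          ring
        have e5 : b / (2 * m + 1) ≤ f1 - f2 := by
          rw [div_le_iff₀ (by positivity)]
          linarith
        linarith
      · have e4 : (2 * (m : ℝ) + 1) * (f2 - b * (2 * m / (2 * m + 1))) =
            (2 * m + 1) * f2 - 2 * m * b := by
          field_simp
        rw [e4]
        linarith
      · have hr' : (0 : ℝ) ≤ r := Nat.cast_nonneg r
        nlinarith

theorem tri_mp {r m : ℕ} (hr : 1 ≤ r) (hm : 1 ≤ m) {f0 f1 f2 : ℝ} (hf1 : 0 < f1)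
    (hA : 2 * (m : ℝ) * f1 ≤ (2 * m + 1) * f2) (h21 : f2 ≤ f1) (h01 : f0 ≤ f1)
    (hB : ((r : ℝ) + 2) * f1 ≤ (r + 3) * f0) : Tri r m f0 f1 f2 := by
  have hm' : (1 : ℝ) ≤ m := by exact_mod_cast hm
  have hr' : (1 : ℝ) ≤ r := by exact_mod_cast hr
  refine ⟨⟨0, f1 - f2, f1 - f0, 0, le_rfl, by linarith, by linarith, le_rfl, by ring, by ring,
    fun j l hjl => ⟨tt0_nonneg' hjl (by linarith) (by linarith) (by nlinarith)
      (by nlinarith), fun x y => ?_⟩⟩, ?_⟩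
  · rw [QQf_eq]
    exact mp hr hm hjl hf1 (by linarith) (by linarith) (by linarith) (by linarith) x y
  · exact ⟨0, 0, 0, 0, 0, 0, f0, f1, f2, ⟨le_rfl, by ring, fun _ => by ring⟩,
      Or.inr ⟨rfl, rfl, rfl⟩, ⟨hf1.le, h21, h01, hA, hB⟩, by ring, by ring, by ring⟩

theorem tri_pp {r m : ℕ} (hr : 2 ≤ r) (hm : 1 ≤ m) {f0 f1 f2 : ℝ} (hf1 : 0 < f1)
    (h12 : f1 ≤ f2) (h1 : (r : ℝ) * (f2 - f1) ≤ (r + 3) * (f1 - f0))
    (hB : ((r : ℝ) + 2) * f1 ≤ (r + 3) * f0) : Tri r m f0 f1 f2 := by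
  have hm' : (1 : ℝ) ≤ m := by exact_mod_cast hm
  have hr' : (2 : ℝ) ≤ r := by exact_mod_cast hr
  have hA0 : 0 ≤ (r : ℝ) * (f2 - f1) := mul_nonneg (by linarith) (by linarith)
  have h01 : f0 ≤ f1 := by
    by_contra hc
    have : ((r : ℝ) + 3) * (f1 - f0) < 0 :=
      mul_neg_of_pos_of_neg (by linarith) (by linarith [not_le.1 hc])
    linarith
  refine ⟨⟨f2 - f1, 0, f1 - f0, 0, by linarith, le_rfl, by linarith, le_rfl, by ring, by ring,
    fun j l hjl => ⟨tt0_nonneg hr hjl (by linarith) le_rfl (by linarith) (by nlinarith)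
      (by nlinarith), fun x y => ?_⟩⟩, ?_⟩
  · rw [QQf_eq]
    exact pp hr hm hjl hf1 (by linarith) h1 (by linarith) x y
  · set b : ℝ := r * (f2 - f1) with hb
    have hr0 : (r : ℝ) ≠ 0 := by positivity
    have hr3 : (0 : ℝ) < r + 3 := by positivity
    refine ⟨0, 0, 0, b * (r + 2) / (r + 3), b, b + (f2 - f1), f0 - b * (r + 2) / (r + 3), f1 - b,
      f1 - b, ⟨le_rfl, by ring, fun _ => by ring⟩, Or.inl ⟨hA0, ?_, ?_⟩, ⟨?_, le_rfl, ?_, ?_, ?_⟩,
      by ring, by ring, by ring⟩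
    · rw [hb]
      ring
    · field_simp
    · linarith
    · have e1 : b * (r + 2) / (r + 3) = b - b / (r + 3) := by
        field_simp
        ring
      have e2 : b / (r + 3) ≤ f1 - f0 := by
        rw [div_le_iff₀ hr3]
        linarith
      rw [e1]
      linarith
    · nlinarith
    · have e3 : ((r : ℝ) + 3) * (f0 - b * (r + 2) / (r + 3)) = (r + 3) * f0 - (r + 2) * b := by
        field_simp
      rw [e3]
      linarith

/-- All three regions. -/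
theorem tri_of {r m : ℕ} (hr : 2 ≤ r) (hm : 1 ≤ m) {f0 f1 f2 : ℝ} (hf1 : 0 < f1)
    (hA : 2 * (m : ℝ) * f1 ≤ (2 * m + 1) * f2) (hB : ((r : ℝ) + 2) * f1 ≤ (r + 3) * f0)
    (hpp : f0 ≤ f1 → (r : ℝ) * (f2 - f1) ≤ (r + 3) * (f1 - f0))
    (hmm : f1 ≤ f0 → (2 * (m : ℝ) - 2) * f0 * f2 ≤ 2 * m * f1 ^ 2 - 2 * f1 * f2) :
    Tri r m f0 f1 f2 := by
  rcases le_total f1 f0 with h | h
  · exact tri_mm (by omega) hm hf1 hA h (hmm h)
  · rcases le_total f2 f1 with h' | h'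
    · exact tri_mp (by omega) hm hf1 hA h' h hB
    · exact tri_pp hr hm hf1 h' (hpp h) hB

end Pool.Agent.H89.ODD
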