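import Mathlib
import Pool.Agent.H35.ODD.Defs
import Pool.Agent.H89.ODD.Tri

set_option autoImplicit false

/-!
# Project ODD (MP_6cdc09_gt): the forms (Q), statements with `0 ≤ f1`
-/

open Pool.Agent.H35.ODD

namespace Pool.Agent.H89.ODD

theorem qpos_mm {r m : ℕ} (hr : 1 ≤ r) (hm : 1 ≤ m) {f1 Am Bm : ℝ} (hf : 0 ≤ f1)
    (hA : 0 ≤ Am) (hB : 0 ≤ Bm) (h1 : (2 * (m : ℝ) + 1) * Am ≤ f1)
    (h2 : (2 * (m : ℝ) - 2) * Bm ≤ f1)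
    (h3 : (2 * (m : ℝ) - 2) * Bm * (f1 - Am) ≤ 2 * m * Am * f1) :
    ∀ j l : ℕ, 2 ≤ j + l → 0 ≤ TT0 f1 0 Am 0 j l ∧ ∀ x y : ℝ, 0 ≤ QQf r m f1 0 Am 0 Bm j l x y := by
  intro j l hjl
  have hm' : (1 : ℝ) ≤ m := by exact_mod_cast hm
  refine ⟨tt0_nonneg' hjl hA le_rfl (by nlinarith) (by linarith), fun x y => ?_⟩
  rcases hf.eq_or_lt with h0 | h0
  · subst h0
    have hA0 : Am = 0 := by
      have : (2 * (m : ℝ) + 1) * Am ≤ 0 := h1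
      nlinarith
    subst hA0
    have e : QQf r m 0 0 0 0 Bm j l x y =
        (Bm * (l + 2) / ((l : ℝ) + 2 * m) - Bm) * y ^ 2 := by
      unfold QQf
      ring
    rw [e]
    refine mul_nonneg ?_ (sq_nonneg y)
    rcases Nat.lt_or_ge m 2 with hm2 | hm2
    · have hm1 : m = 1 := by omega
      subst hm1
      have hl : (0 : ℝ) < (l : ℝ) + 2 := by positivity
      have : Bm * (l + 2) / ((l : ℝ) + 2 * (1 : ℕ)) = Bm := by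
        push_cast
        rw [mul_one]
        field_simp
      rw [this]
      linarith
    · have hm2' : (2 : ℝ) ≤ m := by exact_mod_cast hm2
      have : Bm = 0 := by nlinarith
      rw [this]
      simp
  · rw [QQf_eq]
    exact mm hr hm hjl h0 hA h1 h2 h3 x y

theorem qpos_mp {r m : ℕ} (hr : 1 ≤ r) (hm : 1 ≤ m) {f1 Am Bp : ℝ} (hf : 0 ≤ f1)
    (hA : 0 ≤ Am) (h1 : (2 * (m : ℝ) + 1) * Am ≤ f1) (hB : 0 ≤ Bp)
    (h2 : ((r : ℝ) + 3) * Bp ≤ f1) :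
    ∀ j l : ℕ, 2 ≤ j + l → 0 ≤ TT0 f1 0 Am Bp j l ∧ ∀ x y : ℝ, 0 ≤ QQf r m f1 0 Am Bp 0 j l x y := by
  intro j l hjl
  have hm' : (1 : ℝ) ≤ m := by exact_mod_cast hm
  have hr' : (1 : ℝ) ≤ r := by exact_mod_cast hr
  refine ⟨tt0_nonneg' hjl hA hB (by nlinarith) (by nlinarith), fun x y => ?_⟩
  rcases hf.eq_or_lt with h0 | h0
  · subst h0
    have hA0 : Am = 0 := by nlinarith
    have hB0 : Bp = 0 := by nlinarith
    subst hA0 hB0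
    have e : QQf r m 0 0 0 0 0 j l x y = 0 := by
      unfold QQf
      ring
    rw [e]
  · rw [QQf_eq]
    exact mp hr hm hjl h0 hA hB h1 h2 x y

theorem qpos_pp {r m : ℕ} (hr : 2 ≤ r) (hm : 1 ≤ m) {f1 Ap Bp : ℝ} (hf : 0 ≤ f1)
    (hA : 0 ≤ Ap) (h1 : (r : ℝ) * Ap ≤ (r + 3) * Bp) (h2 : ((r : ℝ) + 3) * Bp ≤ f1) :
    ∀ j l : ℕ, 2 ≤ j + l → 0 ≤ TT0 f1 Ap 0 Bp j l ∧ ∀ x y : ℝ, 0 ≤ QQf r m f1 Ap 0 Bp 0 j l x y := by
  intro j l hjl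
  have hm' : (1 : ℝ) ≤ m := by exact_mod_cast hm
  have hr' : (2 : ℝ) ≤ r := by exact_mod_cast hr
  have hB : 0 ≤ Bp := by
    have h3 : 0 ≤ ((r : ℝ) + 3) * Bp := le_trans (mul_nonneg (by linarith) hA) h1
    exact nonneg_of_mul_nonneg_right h3 (by linarith)
  refine ⟨tt0_nonneg hr hjl hA le_rfl hB (by linarith) (by nlinarith), fun x y => ?_⟩
  rcases hf.eq_or_lt with h0 | h0
  · subst h0
    have hB0 : Bp = 0 := by nlinarith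
    have hA0 : Ap = 0 := by
      rw [hB0, mul_zero] at h1
      nlinarith
    subst hA0 hB0
    have e : QQf r m 0 0 0 0 0 j l x y = 0 := by
      unfold QQf
      ring
    rw [e]
  · rw [QQf_eq]
    exact pp hr hm hjl h0 hA h1 h2 x y

theorem good_of_mm {r m : ℕ} (hr : 1 ≤ r) (hm : 1 ≤ m) {f0 f1 f2 : ℝ} (hf : 0 ≤ f1)
    (h21 : f2 ≤ f1) (h10 : f1 ≤ f0) (h1 : (2 * (m : ℝ) + 1) * (f1 - f2) ≤ f1)
    (h2 : (2 * (m : ℝ) - 2) * (f0 - f1) ≤ f1)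
    (h3 : (2 * (m : ℝ) - 2) * (f0 - f1) * f2 ≤ 2 * m * (f1 - f2) * f1) : GoodQ r m f0 f1 f2 :=
  ⟨0, f1 - f2, 0, f0 - f1, le_rfl, by linarith, le_rfl, by linarith, by ring, by ring,
    qpos_mm hr hm hf (by linarith) (by linarith) h1 h2 (by
      have : f1 - (f1 - f2) = f2 := by ring
      rw [this]
      exact h3)⟩

theorem good_of_mp {r m : ℕ} (hr : 1 ≤ r) (hm : 1 ≤ m) {f0 f1 f2 : ℝ} (hf : 0 ≤ f1)
    (h21 : f2 ≤ f1) (h01 : f0 ≤ f1) (h1 : (2 * (m : ℝ) + 1) * (f1 - f2) ≤ f1)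
    (h2 : ((r : ℝ) + 3) * (f1 - f0) ≤ f1) : GoodQ r m f0 f1 f2 :=
  ⟨0, f1 - f2, f1 - f0, 0, le_rfl, by linarith, by linarith, le_rfl, by ring, by ring,
    qpos_mp hr hm hf (by linarith) h1 (by linarith) h2⟩

theorem good_of_pp {r m : ℕ} (hr : 2 ≤ r) (hm : 1 ≤ m) {f0 f1 f2 : ℝ} (hf : 0 ≤ f1)
    (h12 : f1 ≤ f2) (h1 : (r : ℝ) * (f2 - f1) ≤ (r + 3) * (f1 - f0))
    (h2 : ((r : ℝ) + 3) * (f1 - f0) ≤ f1) : GoodQ r m f0 f1 f2 := by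
  have hr' : (2 : ℝ) ≤ r := by exact_mod_cast hr
  have h3 : 0 ≤ ((r : ℝ) + 3) * (f1 - f0) :=
    le_trans (mul_nonneg (by linarith) (by linarith)) h1
  exact ⟨f2 - f1, 0, f1 - f0, 0, by linarith, le_rfl,
    nonneg_of_mul_nonneg_right h3 (by linarith), le_rfl, by ring, by ring,
    qpos_pp hr hm hf (by linarith) h1 h2⟩

end Pool.Agent.H89.ODD
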