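import Mathlib
import Pool.Agent.H35.ODD.Defs
import Pool.Agent.H89.ODD.Tri

set_option autoImplicit false

/-!
# Project ODD (MP_6cdc09_gt): the numbers

`Gn J p s q k` (`i = 2p+1`, `s = n - i`): the value `g(E_q, E_k)` up to a factor depending on
`(n, i)`.  Note 5207, [6].
-/

open Pool.Agent.H35.ODD

namespace Pool.Agent.H89.ODD

/-! ### Cones -/

theorem GoodQ.add {r m : ℕ} {f0 f1 f2 g0 g1 g2 : ℝ} (hf : GoodQ r m f0 f1 f2)
    (hg : GoodQ r m g0 g1 g2) : GoodQ r m (f0 + g0) (f1 + g1) (f2 + g2) := by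
  obtain ⟨Ap, Am, Bp, Bm, h1, h2, h3, h4, h5, h6, h7⟩ := hf
  obtain ⟨Cp, Cm, Dp, Dm, k1, k2, k3, k4, k5, k6, k7⟩ := hg
  refine ⟨Ap + Cp, Am + Cm, Bp + Dp, Bm + Dm, add_nonneg h1 k1, add_nonneg h2 k2,
    add_nonneg h3 k3, add_nonneg h4 k4, by linarith, by linarith, fun j l hjl => ⟨?_, fun x y => ?_⟩⟩
  · have e1 := (h7 j l hjl).1
    have e2 := (k7 j l hjl).1
    have e3 : TT0 (f1 + g1) (Ap + Cp) (Am + Cm) (Bp + Dp) j l =
        TT0 f1 Ap Am Bp j l + TT0 g1 Cp Cm Dp j l := by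
      unfold TT0
      ring
    rw [e3]
    exact add_nonneg e1 e2
  · have e1 := (h7 j l hjl).2 x y
    have e2 := (k7 j l hjl).2 x y
    have e3 : QQf r m (f1 + g1) (Ap + Cp) (Am + Cm) (Bp + Dp) (Bm + Dm) j l x y =
        QQf r m f1 Ap Am Bp Bm j l x y + QQf r m g1 Cp Cm Dp Dm j l x y := by
      unfold QQf
      ring
    rw [e3]
    exact add_nonneg e1 e2

theorem GoodQ.smul {r m : ℕ} {f0 f1 f2 c : ℝ} (hc : 0 ≤ c) (hf : GoodQ r m f0 f1 f2) :
    GoodQ r m (c * f0) (c * f1) (c * f2) := by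
  obtain ⟨Ap, Am, Bp, Bm, h1, h2, h3, h4, h5, h6, h7⟩ := hf
  refine ⟨c * Ap, c * Am, c * Bp, c * Bm, mul_nonneg hc h1, mul_nonneg hc h2,
    mul_nonneg hc h3, mul_nonneg hc h4, by rw [h5]; ring, by rw [h6]; ring,
    fun j l hjl => ⟨?_, fun x y => ?_⟩⟩
  · have e3 : TT0 (c * f1) (c * Ap) (c * Am) (c * Bp) j l = c * TT0 f1 Ap Am Bp j l := by
      unfold TT0
      ring
    rw [e3]
    exact mul_nonneg hc (h7 j l hjl).1
  · have e3 : QQf r m (c * f1) (c * Ap) (c * Am) (c * Bp) (c * Bm) j l x y =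
        c * QQf r m f1 Ap Am Bp Bm j l x y := by
      unfold QQf
      ring
    rw [e3]
    exact mul_nonneg hc ((h7 j l hjl).2 x y)

theorem Good0.add {r m : ℕ} {f0 f1 f2 g0 g1 g2 : ℝ} (hf : Good0 r m f0 f1 f2)
    (hg : Good0 r m g0 g1 g2) : Good0 r m (f0 + g0) (f1 + g1) (f2 + g2) := by
  obtain ⟨a0, a1, a2, b0, b1, b2, d0, d1, d2, ha, hb, hd, h0, h1, h2⟩ := hf
  obtain ⟨a0', a1', a2', b0', b1', b2', d0', d1', d2', ha', hb', hd', h0', h1', h2'⟩ := hg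
  have hb2 : IsP2 r b0 b1 b2 := by
    rcases hb with hb | ⟨rfl, rfl, rfl⟩
    · exact hb
    · exact ⟨le_rfl, by ring, by ring⟩
  have hb2' : IsP2 r b0' b1' b2' := by
    rcases hb' with hb' | ⟨rfl, rfl, rfl⟩
    · exact hb'
    · exact ⟨le_rfl, by ring, by ring⟩
  refine ⟨a0 + a0', a1 + a1', a2 + a2', b0 + b0', b1 + b1', b2 + b2', d0 + d0', d1 + d1',
    d2 + d2', ⟨add_nonneg ha.1 ha'.1, by rw [ha.2.1, ha'.2.1]; ring, fun hm => ?_⟩,
    Or.inl ⟨add_nonneg hb2.1 hb2'.1, ?_, ?_⟩, ⟨add_nonneg hd.1 hd'.1, ?_, ?_, ?_, ?_⟩, ?_, ?_, ?_⟩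
  · have e1 := ha.2.2 hm
    have e2 := ha'.2.2 hm
    linarith
  · have e1 := hb2.2.1
    have e2 := hb2'.2.1
    linarith
  · have e1 := hb2.2.2
    have e2 := hb2'.2.2
    linarith
  · exact add_le_add hd.2.1 hd'.2.1
  · exact add_le_add hd.2.2.1 hd'.2.2.1
  · have e1 := hd.2.2.2.1
    have e2 := hd'.2.2.2.1
    linarith
  · have e1 := hd.2.2.2.2
    have e2 := hd'.2.2.2.2
    linarith
  · rw [h0, h0']
    ring
  · rw [h1, h1']
    ring
  · rw [h2, h2']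
    ring

theorem Good0.smul {r m : ℕ} {f0 f1 f2 c : ℝ} (hc : 0 ≤ c) (hf : Good0 r m f0 f1 f2) :
    Good0 r m (c * f0) (c * f1) (c * f2) := by
  obtain ⟨a0, a1, a2, b0, b1, b2, d0, d1, d2, ha, hb, hd, h0, h1, h2⟩ := hf
  have hb2 : IsP2 r b0 b1 b2 := by
    rcases hb with hb | ⟨rfl, rfl, rfl⟩
    · exact hb
    · exact ⟨le_rfl, by ring, by ring⟩
  refine ⟨c * a0, c * a1, c * a2, c * b0, c * b1, c * b2, c * d0, c * d1, c * d2,
    ⟨mul_nonneg hc ha.1, by rw [ha.2.1]; ring, fun hm => ?_⟩,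
    Or.inl ⟨mul_nonneg hc hb2.1, ?_, ?_⟩, ⟨mul_nonneg hc hd.1, ?_, ?_, ?_, ?_⟩, ?_, ?_, ?_⟩
  · have e1 := ha.2.2 hm
    calc c * a0 * (2 * m - 2) = c * (a0 * (2 * m - 2)) := by ring
      _ = c * (a1 * (2 * m - 1)) := by rw [e1]
      _ = c * a1 * (2 * m - 1) := by ring
  · have e1 := hb2.2.1
    calc c * b2 * r = c * (b2 * r) := by ring
      _ = c * (b1 * (r + 1)) := by rw [e1]
      _ = c * b1 * (r + 1) := by ring
  · have e1 := hb2.2.2
    calc c * b0 * (r + 3) = c * (b0 * (r + 3)) := by ring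
      _ = c * (b1 * (r + 2)) := by rw [e1]
      _ = c * b1 * (r + 2) := by ring
  · exact mul_le_mul_of_nonneg_left hd.2.1 hc
  · exact mul_le_mul_of_nonneg_left hd.2.2.1 hc
  · have e1 := mul_le_mul_of_nonneg_left hd.2.2.2.1 hc
    linarith
  · have e1 := mul_le_mul_of_nonneg_left hd.2.2.2.2 hc
    linarith
  · rw [h0]
    ring
  · rw [h1]
    ring
  · rw [h2]
    ring

theorem Tri.add {r m : ℕ} {f0 f1 f2 g0 g1 g2 : ℝ} (hf : Tri r m f0 f1 f2)
    (hg : Tri r m g0 g1 g2) : Tri r m (f0 + g0) (f1 + g1) (f2 + g2) :=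
  ⟨GoodQ.add hf.1 hg.1, Good0.add hf.2 hg.2⟩

theorem Tri.smul {r m : ℕ} {f0 f1 f2 c : ℝ} (hc : 0 ≤ c) (hf : Tri r m f0 f1 f2) :
    Tri r m (c * f0) (c * f1) (c * f2) :=
  ⟨GoodQ.smul hc hf.1, Good0.smul hc hf.2⟩

/-! ### The polynomials -/

theorem tri_F {r m M q : ℕ} (hr : 2 ≤ r) (hM : 2 ≤ M) (hq : 1 ≤ q) (hqr : 2 * q ≤ r + 1)
    (hm : 1 ≤ m) (hmM : m ≤ M) {F0 F1 F2 : ℝ}
    (h0 : F0 = r * (r - 1) * ((r + 1) * (r + 2)) * (2 * (M + q - 1) + 1) * (2 * (M + q - 1) + 3))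
    (h1 : F1 = r * (r - 1) * (2 * ((r + 1) * (r + 2)) * (M + q - 1) + 4 * q * (M + r + 1)) *
      (2 * (M + q - 1) + 3))
    (h2 : F2 = 8 * q * (r + 2 - q) * (2 * (M + q - 1) + 3) *
        (r * (r - 1) * (M + q - 1) + 2 * (q - 1) * (M + r)) +
      2 * (r + 2 - 2 * q) * (r + 1 - 2 * q) * (M + q - 1) *
        (2 * ((M + q - 1) + 1) * (r * (r - 1)) + 4 * q * (M + r))) :
    Tri r m F0 F1 F2 := by
  have r1 : (2 : ℝ) ≤ r := by exact_mod_cast hr
  have r2 : (2 : ℝ) ≤ M := by exact_mod_cast hM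
  have r3 : (1 : ℝ) ≤ q := by exact_mod_cast hq
  have r4 : 2 * (q : ℝ) ≤ r + 1 := by exact_mod_cast hqr
  have r5 : (1 : ℝ) ≤ m := by exact_mod_cast hm
  have r6 : (m : ℝ) ≤ M := by exact_mod_cast hmM
  have p1 : (0 : ℝ) ≤ r - 1 := by linarith
  have p2 : (0 : ℝ) ≤ q - 1 := by linarith
  have p3 : (0 : ℝ) ≤ r + 1 - 2 * q := by linarith
  have p4 : (0 : ℝ) < M + q - 1 := by linarith
  have p5 : (0 : ℝ) < r - 1 := by linarith
  have hF1 : 0 < F1 := by
    rw [h1]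
    positivity
  have nA : (2 * (M : ℝ) + 1) * F2 - 2 * M * F1 =
      q * (2 * M + r) * (2 * M + r + 1) *
        (4 * (q - 1) * (r ^ 2 + 5 * r + 6 * M + 6) + 4 * r * M * (r - 1)) := by
    rw [h1, h2]
    ring
  have nA' : 2 * (M : ℝ) * F1 ≤ (2 * M + 1) * F2 := by
    have : 0 ≤ (q : ℝ) * (2 * M + r) * (2 * M + r + 1) *
        (4 * (q - 1) * (r ^ 2 + 5 * r + 6 * M + 6) + 4 * r * M * (r - 1)) := by positivity
    linarith
  have nB : ((r : ℝ) + 3) * F0 - (r + 2) * F1 =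
      r * (r - 1) * (2 * (M + q - 1) + 3) * (r + 2) * ((r + 1 - 2 * q) * (2 * M + r + 1)) := by
    rw [h0, h1]
    ring
  have nC : (2 * (r : ℝ) + 3) * F1 - r * F2 - (r + 3) * F0 =
      3 * r * (r + 1 - 2 * q) * (2 * M + r + 1) *
        (4 * q * (M + r + 1) - (r + 1) * (r + 2) + 2 * (r + 2)) := by
    rw [h0, h1, h2]
    ring
  have nE : F1 - F0 = r * (r - 1) * (2 * (M + q - 1) + 3) *
      (4 * q * (M + r + 1) - (r + 1) * (r + 2)) := by
    rw [h0, h1]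
    ring
  have nD : 2 * (M : ℝ) * F1 ^ 2 - 2 * F1 * F2 - (2 * M - 2) * F0 * F2 =
      8 * q * r * (r - 1) * (2 * M + r) * (2 * M + r + 1) * (2 * M + 2 * q + 1) *
        (((r + 1) * (r + 2) - 4 * q * (M + r + 1)) *
            ((q - 1) * (r + 2) * (r + 3) + M * (r ^ 2 + 5 * r + 3)) +
          6 * q * M * (r + 1) * (r + 2) + 3 * M * (2 * M - 1) * (r + 1) * (r + 2)) := by
    rw [h0, h1, h2]
    ring
  have hF2 : 0 < F2 := by
    have : 0 < (2 * (M : ℝ) + 1) * F2 := lt_of_lt_of_le (by positivity) nA'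
    exact (mul_pos_iff_of_pos_left (by positivity)).1 this
  have hk : 0 < (r : ℝ) * (r - 1) * (2 * (M + q - 1) + 3) := by positivity
  refine tri_of hr hm hF1 ?_ ?_ ?_ ?_
  · have e1 : 2 * (m : ℝ) * (2 * M + 1) * F1 ≤ (2 * m + 1) * (2 * M) * F1 :=
      mul_le_mul_of_nonneg_right (by linarith) hF1.le
    have e2 := mul_le_mul_of_nonneg_left nA' (by positivity : (0 : ℝ) ≤ 2 * m + 1)
    have e3 : (2 * (M : ℝ) + 1) * (2 * m * F1) ≤ (2 * M + 1) * ((2 * m + 1) * F2) := by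
      linarith
    exact le_of_mul_le_mul_left e3 (by positivity)
  · have : 0 ≤ (r : ℝ) * (r - 1) * (2 * (M + q - 1) + 3) * (r + 2) *
        ((r + 1 - 2 * q) * (2 * M + r + 1)) := by positivity
    linarith
  · intro h
    have e1 : 0 ≤ 4 * (q : ℝ) * (M + r + 1) - (r + 1) * (r + 2) := by
      have : 0 ≤ (r : ℝ) * (r - 1) * (2 * (M + q - 1) + 3) *
        (4 * q * (M + r + 1) - (r + 1) * (r + 2)) := by linarith
      exact nonneg_of_mul_nonneg_right this hk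
    have : 0 ≤ 3 * (r : ℝ) * (r + 1 - 2 * q) * (2 * M + r + 1) *
        (4 * q * (M + r + 1) - (r + 1) * (r + 2) + 2 * (r + 2)) := by positivity
    linarith
  · intro h
    have e1 : 0 ≤ ((r : ℝ) + 1) * (r + 2) - 4 * q * (M + r + 1) := by
      have : 0 ≤ (r : ℝ) * (r - 1) * (2 * (M + q - 1) + 3) *
        ((r + 1) * (r + 2) - 4 * q * (M + r + 1)) := by linarith
      exact nonneg_of_mul_nonneg_right this hk
    have p6 : (0 : ℝ) ≤ 2 * M - 1 := by linarith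
    have e2 : 0 ≤ 2 * (M : ℝ) * F1 ^ 2 - 2 * F1 * F2 - (2 * M - 2) * F0 * F2 := by
      rw [nD]
      positivity
    -- linear in `m`
    have e3 : 0 ≤ F2 * (F0 - F1) := mul_nonneg hF2.le (by linarith)
    have e5 : 2 * (M : ℝ) * F1 ^ 2 - 2 * F1 * F2 - (2 * M - 2) * F0 * F2 =
        M * (2 * (F1 ^ 2 - F0 * F2)) + 2 * (F2 * (F0 - F1)) := by ring
    have e6 : 2 * (m : ℝ) * F1 ^ 2 - 2 * F1 * F2 - (2 * m - 2) * F0 * F2 =
        m * (2 * (F1 ^ 2 - F0 * F2)) + 2 * (F2 * (F0 - F1)) := by ring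
    rw [e5] at e2
    have e7 : 0 ≤ (m : ℝ) * (2 * (F1 ^ 2 - F0 * F2)) + 2 * (F2 * (F0 - F1)) := by
      rcases le_total 0 (2 * (F1 ^ 2 - F0 * F2)) with hs | hs
      · exact add_nonneg (mul_nonneg (by linarith) hs) (by linarith)
      · have e8 := mul_le_mul_of_nonpos_right r6 hs
        linarith
    rw [← e6] at e7
    linarith

/-! ### The sequences -/

/-- `∫ (1-x²)^a` up to a factor. -/
noncomputable def Jc : ℕ → ℝ
  | 0 => 1
  | a + 1 => Jc a * (2 * a + 2) / (2 * a + 3)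

theorem Jc_pos (a : ℕ) : 0 < Jc a := by
  induction a with
  | zero => simp [Jc]
  | succ a ih =>
    rw [Jc]
    positivity

theorem Jc_succ (a : ℕ) : (2 * (a : ℝ) + 3) * Jc (a + 1) = (2 * a + 2) * Jc a := by
  rw [Jc]
  field_simp

noncomputable def Gn : ℕ → ℕ → ℕ → ℕ → ℝ
  | _, s, q, 0 => Jc (s + q)
  | 0, _, _, _ + 1 => 0
  | p + 1, s, q, k + 1 =>
      (4 * (q : ℝ) * (2 * (p : ℝ) + 3 - q) * Gn p (s + 1) (q - 1) k +
        (2 * (p : ℝ) + 3 - 2 * q) * (2 * (p : ℝ) + 2 - 2 * q) * Gn p (s + 1) q k) /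
          ((2 * (p : ℝ) + 3) * (2 * p + 2))

theorem Gn_zero (p s q : ℕ) : Gn p s q 0 = Jc (s + q) := by
  cases p <;> simp [Gn]

theorem Gn_succ (p s q k : ℕ) : Gn (p + 1) s q (k + 1) =
    (4 * (q : ℝ) * (2 * (p : ℝ) + 3 - q) * Gn p (s + 1) (q - 1) k +
        (2 * (p : ℝ) + 3 - 2 * q) * (2 * (p : ℝ) + 2 - 2 * q) * Gn p (s + 1) q k) /
          ((2 * (p : ℝ) + 3) * (2 * p + 2)) := by
  rw [Gn]

theorem Gn_left {p k : ℕ} (s : ℕ) (hk : k ≤ p) : Gn p s 0 k = Jc (s + k) := by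
  induction k generalizing p s with
  | zero => rw [Gn_zero]
  | succ k ih =>
    obtain ⟨p, rfl⟩ : ∃ p', p = p' + 1 := ⟨p - 1, by omega⟩
    rw [Gn_succ, ih (s + 1) (by omega), show s + 1 + k = s + (k + 1) by omega]
    push_cast
    field_simp
    ring

theorem Gn_pos {p q k : ℕ} (s : ℕ) (hq : q ≤ p) (hk : k ≤ p) : 0 < Gn p s q k := by
  induction k generalizing p s q with
  | zero =>
    rw [Gn_zero]
    exact Jc_pos _
  | succ k ih =>
    obtain ⟨p, rfl⟩ : ∃ p', p = p' + 1 := ⟨p - 1, by omega⟩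
    rw [Gn_succ]
    refine div_pos ?_ (by positivity)
    have hq' : (q : ℝ) ≤ p + 1 := by exact_mod_cast hq
    have a1 := ih (p := p) (q := q - 1) (s + 1) (by omega) (by omega)
    rcases Nat.eq_zero_or_pos q with h0 | h0
    · subst h0
      have a2 := ih (p := p) (q := 0) (s + 1) (by omega) (by omega)
      push_cast
      have : 0 < (2 * (p : ℝ) + 3 - 2 * 0) * (2 * (p : ℝ) + 2 - 2 * 0) * Gn p (s + 1) 0 k := by
        have b0 : (0 : ℝ) ≤ p := Nat.cast_nonneg p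
        have b1 : (0 : ℝ) < 2 * (p : ℝ) + 3 - 2 * 0 := by linarith
        have b2 : (0 : ℝ) < 2 * (p : ℝ) + 2 - 2 * 0 := by linarith
        positivity
      linarith
    · have h1 : (1 : ℝ) ≤ q := by exact_mod_cast h0
      have b1 : 0 < 4 * (q : ℝ) * (2 * (p : ℝ) + 3 - q) * Gn p (s + 1) (q - 1) k := by
        have : 0 < 2 * (p : ℝ) + 3 - q := by linarith [(Nat.cast_nonneg p : (0 : ℝ) ≤ p)]
        positivity
      rcases Nat.lt_or_ge p q with h2 | h2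
      · have h3 : q = p + 1 := by omega
        subst h3
        have : (2 * (p : ℝ) + 3 - 2 * ((p + 1 : ℕ) : ℝ)) * (2 * (p : ℝ) + 2 - 2 * ((p + 1 : ℕ) : ℝ)) *
            Gn p (s + 1) (p + 1) k = 0 := by
          push_cast
          ring
        linarith
      · have a2 := ih (p := p) (q := q) (s + 1) h2 (by omega)
        have h4 : (q : ℝ) ≤ p := by exact_mod_cast h2
        have b2 : 0 ≤ (2 * (p : ℝ) + 3 - 2 * q) * (2 * (p : ℝ) + 2 - 2 * q) *
            Gn p (s + 1) q k := by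
          have c1 : 0 ≤ 2 * (p : ℝ) + 3 - 2 * q := by linarith
          have c2 : 0 ≤ 2 * (p : ℝ) + 2 - 2 * q := by linarith
          positivity
        linarith

/-! ### Base triples -/

theorem tri_iso {r m M : ℕ} (hr : 1 ≤ r) (hm : 1 ≤ m) (hmM : m ≤ M) (hM : 2 ≤ M) {f0 f1 f2 : ℝ}
    (hf : 0 < f1) (h0 : (2 * (M : ℝ) - 1) * f1 = (2 * M - 2) * f0)
    (h2 : (2 * (M : ℝ) + 1) * f2 = 2 * M * f1) : Tri r m f0 f1 f2 := by
  have r2 : (2 : ℝ) ≤ M := by exact_mod_cast hM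
  have r5 : (1 : ℝ) ≤ m := by exact_mod_cast hm
  have r6 : (m : ℝ) ≤ M := by exact_mod_cast hmM
  have e0 : f0 = (2 * (M : ℝ) - 1) * f1 / (2 * M - 2) := by
    rw [eq_div_iff (by linarith)]
    linarith
  have e2 : f2 = 2 * (M : ℝ) * f1 / (2 * M + 1) := by
    rw [eq_div_iff (by linarith)]
    linarith
  have p1 : (0 : ℝ) < 2 * M - 2 := by linarith
  have p2 : (0 : ℝ) < 2 * M + 1 := by linarith
  refine tri_mm hr hm hf ?_ ?_ ?_
  · rw [e2]
    have : (2 * (m : ℝ) + 1) * (2 * M * f1 / (2 * M + 1)) - 2 * m * f1 =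
        2 * (M - m) * f1 / (2 * M + 1) := by
      field_simp
      ring
    have h3 : 0 ≤ 2 * ((M : ℝ) - m) * f1 / (2 * M + 1) := by
      have : (0 : ℝ) ≤ M - m := by linarith
      positivity
    linarith
  · rw [e0, le_div_iff₀ p1]
    nlinarith
  · have e9 : (2 * (M : ℝ) - 2) * (2 * M + 1) *
        (2 * (m : ℝ) * f1 ^ 2 - 2 * f1 * f2 - (2 * m - 2) * f0 * f2) = 4 * (M - m) * f1 ^ 2 := by
      linear_combination (-2 * f1 * (2 * M - 2) - (2 * m - 2) * (2 * M - 2) * f0) * h2 +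
        ((2 * m - 2) * 2 * M * f1) * h0
    have h3 : 0 ≤ 4 * ((M : ℝ) - m) * f1 ^ 2 := by
      have : (0 : ℝ) ≤ M - m := by linarith
      positivity
    rw [← e9] at h3
    have h4 := nonneg_of_mul_nonneg_right h3 (mul_pos p1 p2)
    linarith

theorem tri_base {t s q m : ℕ} (hq : q ≤ t + 2) (hm : 1 ≤ m) (hms : m ≤ s + 2) :
    Tri (2 * t + 3) m (Gn (t + 2) s q 0) (Gn (t + 2) s q 1) (Gn (t + 2) s q 2) := by
  rcases Nat.eq_zero_or_pos q with h0 | h0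
  · subst h0
    rw [Gn_left s (by omega), Gn_left s (by omega), Gn_left s (by omega)]
    refine tri_iso (M := s + 2) (by omega) hm hms (by omega) (Jc_pos _) ?_ ?_
    · have := Jc_succ s
      push_cast
      simp only [add_zero]
      linarith
    · have := Jc_succ (s + 1)
      push_cast at this ⊢
      linarith
  · obtain ⟨u, rfl⟩ : ∃ u, q = u + 1 := ⟨q - 1, by omega⟩
    have hu : (u : ℝ) ≤ t + 1 := by
      have : u ≤ t + 1 := by omega
      exact_mod_cast this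
    set g : ℝ := Jc (s + u + 2) with hg
    have hgp : 0 < g := Jc_pos _
    have j0 : Jc (s + u + 1) = g * (2 * ((s : ℝ) + u + 2) + 1) / (2 * ((s : ℝ) + u + 2)) := by
      have := Jc_succ (s + u + 1)
      push_cast at this
      rw [eq_div_iff (by positivity)]
      rw [hg]
      linarith
    have j2 : Jc (s + u + 3) = g * (2 * ((s : ℝ) + u + 2) + 2) / (2 * ((s : ℝ) + u + 2) + 3) := by
      have := Jc_succ (s + u + 2)
      push_cast at this
      rw [eq_div_iff (by positivity)]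
      rw [hg]
      linarith
    have g0 : Gn (t + 2) s (u + 1) 0 = Jc (s + u + 1) := by
      rw [Gn_zero]
      rfl
    have g1 : Gn (t + 2) s (u + 1) 1 =
        (4 * ((u : ℝ) + 1) * (2 * ((t : ℝ) + 1) + 3 - (u + 1)) * Jc (s + u + 1) +
          (2 * ((t : ℝ) + 1) + 3 - 2 * (u + 1)) * (2 * ((t : ℝ) + 1) + 2 - 2 * (u + 1)) * g) /
          ((2 * ((t : ℝ) + 1) + 3) * (2 * (t + 1) + 2)) := by
      rw [Gn_succ, Gn_zero, Gn_zero, show s + 1 + (u + 1 - 1) = s + u + 1 by omega,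
        show s + 1 + (u + 1) = s + u + 2 by omega]
      push_cast
      rfl
    have g2a : Gn (t + 1) (s + 1) (u + 1) 1 =
        (4 * ((u : ℝ) + 1) * (2 * (t : ℝ) + 3 - (u + 1)) * g +
          (2 * (t : ℝ) + 3 - 2 * (u + 1)) * (2 * (t : ℝ) + 2 - 2 * (u + 1)) * Jc (s + u + 3)) /
          ((2 * (t : ℝ) + 3) * (2 * t + 2)) := by
      rw [Gn_succ, Gn_zero, Gn_zero, show s + 1 + 1 + (u + 1 - 1) = s + u + 2 by omega,
        show s + 1 + 1 + (u + 1) = s + u + 3 by omega]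
      push_cast
      rfl
    have g2b : Gn (t + 1) (s + 1) u 1 =
        (4 * (u : ℝ) * (2 * (t : ℝ) + 3 - u) * Jc (s + u + 1) +
          (2 * (t : ℝ) + 3 - 2 * u) * (2 * (t : ℝ) + 2 - 2 * u) * g) /
          ((2 * (t : ℝ) + 3) * (2 * t + 2)) := by
      rw [Gn_succ, Gn_zero, Gn_zero]
      rcases Nat.eq_zero_or_pos u with h1 | h1
      · subst h1
        rw [hg]
        simp
      · rw [show s + 1 + 1 + (u - 1) = s + u + 1 by omega,
          show s + 1 + 1 + u = s + u + 2 by omega]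
    have g2 : Gn (t + 2) s (u + 1) 2 =
        (4 * ((u : ℝ) + 1) * (2 * ((t : ℝ) + 1) + 3 - (u + 1)) * Gn (t + 1) (s + 1) u 1 +
          (2 * ((t : ℝ) + 1) + 3 - 2 * (u + 1)) * (2 * ((t : ℝ) + 1) + 2 - 2 * (u + 1)) *
            Gn (t + 1) (s + 1) (u + 1) 1) /
          ((2 * ((t : ℝ) + 1) + 3) * (2 * (t + 1) + 2)) := by
      rw [Gn_succ]
      push_cast
      rfl
    set r : ℕ := 2 * t + 3 with hr
    set M : ℕ := s + 2 with hM
    have hrc : (r : ℝ) = 2 * t + 3 := by rw [hr]; push_cast; ring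
    have hMc : (M : ℝ) = s + 2 := by rw [hM]; push_cast; ring
    set c : ℝ := g / (((r : ℝ) * (r - 1)) * ((r + 1) * (r + 2)) *
      (2 * ((s : ℝ) + u + 2)) * (2 * ((s : ℝ) + u + 2) + 3)) with hc
    have hr1 : (0 : ℝ) < (r : ℝ) - 1 := by rw [hrc]; linarith [(Nat.cast_nonneg t : (0 : ℝ) ≤ t)]
    have hc0 : 0 ≤ c := by positivity
    have key := tri_F (r := r) (m := m) (M := M) (q := u + 1) (by omega) (by omega) (by omega)
      (by omega) hm hms rfl rfl rfl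
    have k2 := Tri.smul hc0 key
    have hs0 : (0 : ℝ) < (s : ℝ) + u + 2 := by positivity
    have ht0 : (0 : ℝ) ≤ t := Nat.cast_nonneg t
    convert k2 using 1
    · rw [g0, j0, hc]
      push_cast
      rw [hrc, hMc]
      have : (s : ℝ) + 2 + (u + 1) - 1 = s + u + 2 := by ring
      rw [this]
      have h9 : 2 * (t : ℝ) + 3 - 1 ≠ 0 := by
        have : 0 < 2 * (t : ℝ) + 3 - 1 := by linarith
        exact this.ne'
      field_simp
    · rw [g1, j0, hc]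
      push_cast
      rw [hrc, hMc]
      have : (s : ℝ) + 2 + (u + 1) - 1 = s + u + 2 := by ring
      rw [this]
      have h9 : 2 * (t : ℝ) + 3 - 1 ≠ 0 := by
        have : 0 < 2 * (t : ℝ) + 3 - 1 := by linarith
        exact this.ne'
      field_simp
      ring
    · rw [g2, g2a, g2b, j0, j2, hc]
      push_cast
      rw [hrc, hMc]
      have : (s : ℝ) + 2 + (u + 1) - 1 = s + u + 2 := by ring
      rw [this]
      have h9 : 2 * (t : ℝ) + 3 - 1 ≠ 0 := by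
        have : 0 < 2 * (t : ℝ) + 3 - 1 := by linarith
        exact this.ne'
      field_simp
      ring

/-- The step in `p`. -/
theorem tri_step {p s q k r m : ℕ} (hq : q ≤ p + 1)
    (h : ∀ q', q' ≤ p → Tri r m (Gn p (s + 1) q' k) (Gn p (s + 1) q' (k + 1))
      (Gn p (s + 1) q' (k + 2))) :
    Tri r m (Gn (p + 1) s q (k + 1)) (Gn (p + 1) s q (k + 2)) (Gn (p + 1) s q (k + 3)) := by
  have hq' : (q : ℝ) ≤ p + 1 := by exact_mod_cast hq
  have hp0 : (0 : ℝ) ≤ p := Nat.cast_nonneg p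
  have hD : (0 : ℝ) < (2 * (p : ℝ) + 3) * (2 * p + 2) := by positivity
  set α : ℝ := 4 * (q : ℝ) * (2 * (p : ℝ) + 3 - q) / ((2 * (p : ℝ) + 3) * (2 * p + 2)) with hα
  set β : ℝ := (2 * (p : ℝ) + 3 - 2 * q) * (2 * (p : ℝ) + 2 - 2 * q) /
    ((2 * (p : ℝ) + 3) * (2 * p + 2)) with hβ
  have hα0 : 0 ≤ α := by
    have : 0 ≤ 2 * (p : ℝ) + 3 - q := by linarith
    positivity
  have hβ0 : 0 ≤ β := by
    have c1 : 0 ≤ 2 * (p : ℝ) + 3 - 2 * q := by linarith
    have c2 : 0 ≤ 2 * (p : ℝ) + 2 - 2 * q := by linarith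
    positivity
  have e : ∀ k', Gn (p + 1) s q (k' + 1) = α * Gn p (s + 1) (q - 1) k' +
      β * Gn p (s + 1) q k' := by
    intro k'
    rw [Gn_succ, hα, hβ]
    ring
  rw [e, e, e]
  have t1 := Tri.smul hα0 (h (q - 1) (by omega))
  rcases Nat.lt_or_ge p q with h2 | h2
  · have h3 : q = p + 1 := by omega
    have hb : β = 0 := by
      rw [hβ, h3]
      push_cast
      have : (2 * (p : ℝ) + 2 - 2 * (p + 1)) = 0 := by ring
      rw [this, mul_zero, zero_div]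
    rw [hb, zero_mul, zero_mul, zero_mul, add_zero, add_zero, add_zero]
    exact t1
  · exact Tri.add t1 (Tri.smul hβ0 (h q h2))

theorem tri_gen {k p s q m : ℕ} (hk : k + 2 ≤ p) (hq : q ≤ p) (hm : 1 ≤ m) (hms : m ≤ s + k + 2) :
    Tri (2 * p - 2 * k - 1) m (Gn p s q k) (Gn p s q (k + 1)) (Gn p s q (k + 2)) := by
  induction k generalizing p s q with
  | zero =>
    obtain ⟨t, rfl⟩ : ∃ t, p = t + 2 := ⟨p - 2, by omega⟩
    have := tri_base (t := t) (s := s) hq hm (by omega)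
    rw [show 2 * (t + 2) - 2 * 0 - 1 = 2 * t + 3 by omega]
    exact this
  | succ k ih =>
    obtain ⟨p, rfl⟩ : ∃ p', p = p' + 1 := ⟨p - 1, by omega⟩
    rw [show 2 * (p + 1) - 2 * (k + 1) - 1 = 2 * p - 2 * k - 1 by omega]
    exact tri_step hq fun q' hq' => ih (p := p) (s := s + 1) (by omega) hq' (by omega)

/-- `r = 1`: `f2` free. -/
theorem tri_top {k s q m : ℕ} (hq : q ≤ k + 1) (hm : 1 ≤ m) (hms : m ≤ s + k + 2) :
    ∃ f2 : ℝ, Tri 1 m (Gn (k + 1) s q k) (Gn (k + 1) s q (k + 1)) f2 := by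
  induction k generalizing s q with
  | zero =>
    have r5 : (1 : ℝ) ≤ m := by exact_mod_cast hm
    have r6 : (m : ℝ) ≤ s + 2 := by exact_mod_cast hms
    rcases Nat.lt_or_ge q 1 with h0 | h0
    · have h1 : q = 0 := by omega
      subst h1
      rw [Gn_left s (by omega), Gn_left s (by omega)]
      refine ⟨2 * ((s + 2 : ℕ) : ℝ) * Jc (s + (0 + 1)) / (2 * ((s + 2 : ℕ) : ℝ) + 1),
        tri_iso (M := s + 2) le_rfl hm (by omega) (by omega) (Jc_pos _) ?_ ?_⟩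
      · have := Jc_succ s
        push_cast
        simp only [add_zero]
        linarith
      · field_simp
    · have h1 : q = 1 := by omega
      subst h1
      have e1 : Gn (0 + 1) s 1 (0 + 1) = 4 / 3 * Jc (s + 1) := by
        rw [Gn_succ, Gn_zero, Gn_zero]
        push_cast
        simp only [add_zero]
        ring
      have e0 : Gn (0 + 1) s 1 0 = Jc (s + 1) := Gn_zero _ _ _
      rw [e1, e0]
      have hJ := Jc_pos (s + 1)
      refine ⟨4 / 3 * Jc (s + 1), tri_mp le_rfl hm (by positivity) ?_ le_rfl ?_ ?_⟩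
      · nlinarith
      · linarith
      · push_cast
        linarith
  | succ k ih =>
    have hq' : (q : ℝ) ≤ k + 1 + 1 := by exact_mod_cast hq
    have hp0 : (0 : ℝ) ≤ k := Nat.cast_nonneg k
    set α : ℝ := 4 * (q : ℝ) * (2 * ((k + 1 : ℕ) : ℝ) + 3 - q) /
      ((2 * ((k + 1 : ℕ) : ℝ) + 3) * (2 * ((k + 1 : ℕ) : ℝ) + 2)) with hα
    set β : ℝ := (2 * ((k + 1 : ℕ) : ℝ) + 3 - 2 * q) * (2 * ((k + 1 : ℕ) : ℝ) + 2 - 2 * q) /
      ((2 * ((k + 1 : ℕ) : ℝ) + 3) * (2 * ((k + 1 : ℕ) : ℝ) + 2)) with hβ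
    have hα0 : 0 ≤ α := by
      have : 0 ≤ 2 * ((k + 1 : ℕ) : ℝ) + 3 - q := by push_cast; linarith
      positivity
    have hβ0 : 0 ≤ β := by
      have c1 : 0 ≤ 2 * ((k + 1 : ℕ) : ℝ) + 3 - 2 * q := by push_cast; linarith
      have c2 : 0 ≤ 2 * ((k + 1 : ℕ) : ℝ) + 2 - 2 * q := by push_cast; linarith
      positivity
    have e : ∀ k', Gn (k + 1 + 1) s q (k' + 1) = α * Gn (k + 1) (s + 1) (q - 1) k' +
        β * Gn (k + 1) (s + 1) q k' := by
      intro k'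
      rw [Gn_succ, hα, hβ]
      ring
    rw [e, e]
    obtain ⟨x, hx⟩ := ih (s := s + 1) (q := q - 1) (by omega) (by omega)
    have t1 := Tri.smul hα0 hx
    rcases Nat.lt_or_ge (k + 1) q with h2 | h2
    · have h3 : q = k + 1 + 1 := by omega
      have hb : β = 0 := by
        rw [hβ, h3]
        push_cast
        have : (2 * ((k : ℝ) + 1) + 2 - 2 * (k + 1 + 1)) = 0 := by ring
        rw [this, mul_zero, zero_div]
      rw [hb, zero_mul, zero_mul, add_zero, add_zero]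
      exact ⟨_, t1⟩
    · obtain ⟨y, hy⟩ := ih (s := s + 1) (q := q) h2 (by omega)
      exact ⟨_, Tri.add t1 (Tri.smul hβ0 hy)⟩

/-- `k = 0`: `f0` free. -/
theorem tri_pair {p s q m : ℕ} (hp : 1 ≤ p) (hq : q ≤ p) (hm : 1 ≤ m) (hms : m ≤ s + 1) :
    ∃ f0 : ℝ, Tri (2 * p + 1) m f0 (Gn p s q 0) (Gn p s q 1) := by
  have r5 : (1 : ℝ) ≤ m := by exact_mod_cast hm
  have r6 : (m : ℝ) ≤ s + 1 := by exact_mod_cast hms
  obtain ⟨t, rfl⟩ : ∃ t, p = t + 1 := ⟨p - 1, by omega⟩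
  have hJ := Jc_pos (s + q)
  have ht0 : (0 : ℝ) ≤ t := Nat.cast_nonneg t
  have hs0 : (0 : ℝ) ≤ s := Nat.cast_nonneg s
  have hq0 : (0 : ℝ) ≤ q := Nat.cast_nonneg q
  have hqt : (q : ℝ) ≤ t + 1 := by exact_mod_cast hq
  have e1 : Gn (t + 1) s q 1 = Jc (s + q) * ((2 * ((2 * t + 3) * (2 * t + 2)) * (s + q + 1) +
      4 * q * (s + 2 * t + 4)) / ((2 * t + 3) * (2 * t + 2) * (2 * (s + q + 1) + 1))) := by
    have hj := Jc_succ (s + q)
    push_cast at hj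
    have hj' : Jc (s + q + 1) = (2 * ((s : ℝ) + q) + 2) * Jc (s + q) / (2 * (s + q) + 3) := by
      rw [eq_div_iff (by positivity)]
      linarith
    have e0 : 4 * (q : ℝ) * (2 * (t : ℝ) + 3 - q) * Jc (s + 1 + (q - 1)) =
        4 * (q : ℝ) * (2 * (t : ℝ) + 3 - q) * Jc (s + q) := by
      rcases Nat.eq_zero_or_pos q with h0 | h0
      · rw [h0]
        push_cast
        ring
      · rw [show s + 1 + (q - 1) = s + q by omega]
    rw [Gn_succ, Gn_zero, Gn_zero, e0, show s + 1 + q = s + q + 1 by omega, hj']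
    field_simp
    ring
  have e0 : Gn (t + 1) s q 0 = Jc (s + q) := Gn_zero _ _ _
  rw [e0]
  set R : ℝ := (2 * ((2 * t + 3) * (2 * t + 2)) * (s + q + 1) +
      4 * q * (s + 2 * t + 4)) / ((2 * t + 3) * (2 * t + 2) * (2 * (s + q + 1) + 1)) with hR
  have hlow : 2 * (m : ℝ) * Jc (s + q) ≤ (2 * m + 1) * Gn (t + 1) s q 1 := by
    rw [e1]
    have h1 : 2 * (m : ℝ) ≤ (2 * m + 1) * R := by
      rw [hR, mul_div_assoc', le_div_iff₀ (by positivity)]
      have a1 : 0 ≤ ((2 * (t : ℝ) + 3) * (2 * t + 2)) * (2 * (s + q + 1 - m)) :=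
        mul_nonneg (by positivity) (by linarith)
      have a2 : 0 ≤ (2 * (m : ℝ) + 1) * (4 * q * (s + 2 * t + 4)) := by positivity
      nlinarith
    have := mul_le_mul_of_nonneg_left h1 hJ.le
    linarith
  have hup : (2 * (t : ℝ) + 3) * (Gn (t + 1) s q 1 - Jc (s + q)) ≤ Jc (s + q) := by
    rw [e1]
    have h1 : (2 * (t : ℝ) + 3) * R ≤ 2 * t + 4 := by
      rw [hR, mul_div_assoc', div_le_iff₀ (by positivity)]
      have a1 : 0 ≤ (2 * (t : ℝ) + 3) * ((2 * t + 2 - 2 * q) * (2 * s + 2 * t + 6)) :=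
        mul_nonneg (by positivity) (mul_nonneg (by linarith) (by positivity))
      nlinarith
    have := mul_le_mul_of_nonneg_left h1 hJ.le
    linarith
  have hrc : ((2 * (t + 1) + 1 : ℕ) : ℝ) = 2 * (t : ℝ) + 3 := by push_cast; ring
  rcases le_total (Gn (t + 1) s q 1) (Jc (s + q)) with h | h
  · refine ⟨Jc (s + q), tri_mp (by omega) hm hJ hlow h le_rfl ?_⟩
    have : (0 : ℝ) ≤ ((2 * (t + 1) + 1 : ℕ) : ℝ) := Nat.cast_nonneg _
    nlinarith
  · refine ⟨Jc (s + q) - (2 * t + 3) * (Gn (t + 1) s q 1 - Jc (s + q)) / (2 * t + 6),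
      tri_pp (by omega) hm hJ h ?_ ?_⟩
    · rw [hrc]
      have : (2 * (t : ℝ) + 3 + 3) * (Jc (s + q) - (Jc (s + q) - (2 * t + 3) *
          (Gn (t + 1) s q 1 - Jc (s + q)) / (2 * t + 6))) =
          (2 * t + 3) * (Gn (t + 1) s q 1 - Jc (s + q)) := by
        field_simp
        ring
      rw [this]
    · rw [hrc]
      have : (2 * (t : ℝ) + 3 + 3) * (Jc (s + q) - (2 * t + 3) *
          (Gn (t + 1) s q 1 - Jc (s + q)) / (2 * t + 6)) =
          (2 * t + 6) * Jc (s + q) - (2 * t + 3) * (Gn (t + 1) s q 1 - Jc (s + q)) := by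
        field_simp
        ring
      rw [this]
      linarith

/-! ### The numbers `F` -/

variable {F : ℕ → ℕ → ℕ → ℕ → ℝ}

theorem F_eq (h : FH F) (p s : ℕ) : ∃ κ : ℝ, 0 < κ ∧ ∀ q k, q ≤ p → k ≤ p →
    F (s + 2 * p + 1) (2 * p + 1) q k = κ * Gn p s q k := by
  induction p generalizing s with
  | zero =>
    refine ⟨F (s + 2 * 0 + 1) (2 * 0 + 1) 0 0 / Jc s, div_pos (h.pos _ _ (by omega) (by omega))
      (Jc_pos s), fun q k hq hk => ?_⟩
    have h1 : q = 0 := by omega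
    have h2 : k = 0 := by omega
    subst h1 h2
    rw [Gn_zero, add_zero, div_mul_cancel₀ _ (Jc_pos s).ne']
  | succ p ih =>
    obtain ⟨κ, hκ, hF⟩ := ih (s + 1)
    have en : s + 1 + 2 * p + 1 = s + 2 * p + 2 := by omega
    rw [en] at hF
    obtain ⟨c, hc, hrc⟩ := h.rc (s + 2 * p + 2) (2 * p + 1) (by omega) (by omega)
    have eN : s + 2 * (p + 1) + 1 = s + 2 * p + 2 + 1 := by omega
    have eI : 2 * (p + 1) + 1 = 2 * p + 1 + 2 := by omega
    rw [eN, eI]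
    have hp0 : (0 : ℝ) ≤ p := Nat.cast_nonneg p
    set K : ℝ := c * ((2 * (p : ℝ) + 3) * (2 * p + 2)) * κ with hK
    have hK0 : 0 < K := by positivity
    -- `k ≥ 1`
    have hsucc : ∀ Q k : ℕ, Q ≤ p + 1 → k ≤ p →
        F (s + 2 * p + 2 + 1) (2 * p + 1 + 2) Q (k + 1) = K * Gn (p + 1) s Q (k + 1) := by
      intro Q k hQ hk
      rw [h.symm, hrc k Q (by omega) (by omega), h.symm _ _ k (Q - 1), h.symm _ _ k Q,
        hF (Q - 1) k (by omega) hk, Gn_succ]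
      rcases Nat.lt_or_ge p Q with h2 | h2
      · have h3 : Q = p + 1 := by omega
        subst h3
        push_cast
        have : (2 * (p : ℝ) + 1 + 1 - 2 * (p + 1)) = 0 := by ring
        rw [this]
        have : (2 * (p : ℝ) + 2 - 2 * (p + 1)) = 0 := by ring
        rw [this, hK]
        field_simp
        ring
      · rw [hF Q k h2 hk, hK]
        push_cast
        field_simp
        ring
    refine ⟨K, hK0, fun Q k hQ hk => ?_⟩
    rcases Nat.eq_zero_or_pos k with h0 | h0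
    · subst h0
      rcases Nat.eq_zero_or_pos Q with h1 | h1
      · subst h1
        have e1 := h.step (s + 2 * p + 2 + 1) (2 * p + 1 + 2) 0 (by omega) (by omega)
        have e2 := hsucc 0 0 (by omega) (by omega)
        rw [h.symm, Gn_left s (by omega)] at e2
        rw [e2] at e1
        have e3 := Jc_succ s
        rw [Gn_zero]
        push_cast at e1
        have e4 : (s : ℝ) + 2 * p + 2 + 1 - (2 * p + 1 + 2) + 0 + 1 = s + 1 := by ring
        rw [e4] at e1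
        have hs : (0 : ℝ) < 2 * ((s : ℝ) + 1) := by positivity
        refine mul_left_cancel₀ hs.ne' ?_
        rw [← e1]
        simp only [add_zero]
        calc (2 * ((s : ℝ) + 1) + 1) * (K * Jc (s + 1)) = K * ((2 * (s : ℝ) + 3) * Jc (s + 1)) := by
              ring
          _ = K * ((2 * s + 2) * Jc s) := by rw [e3]
          _ = 2 * ((s : ℝ) + 1) * (K * Jc s) := by ring
      · obtain ⟨Q, rfl⟩ : ∃ Q', Q = Q' + 1 := ⟨Q - 1, by omega⟩
        rw [h.symm, hsucc 0 Q (by omega) (by omega), Gn_left s (by omega), Gn_zero]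
    · obtain ⟨k, rfl⟩ : ∃ k', k = k' + 1 := ⟨k - 1, by omega⟩
      exact hsucc Q k hQ (by omega)

theorem num_tri (h : FH F) {n i q k m : ℕ} (hodd : Odd i) (hin : i ≤ n) (hq : 2 * q ≤ i)
    (hk : 2 ≤ k) (hk' : 2 * k ≤ i + 1) (hm : 1 ≤ m) (hm' : m + i ≤ k + n) :
    ∃ f2 : ℝ, (2 * k ≤ i → f2 = F n i q k) ∧
      Tri (i + 2 - 2 * k) m (F n i q (k - 2)) (F n i q (k - 1)) f2 := by
  obtain ⟨p, rfl⟩ := hodd
  obtain ⟨s, rfl⟩ : ∃ s, n = s + 2 * p + 1 := ⟨n - (2 * p + 1), by omega⟩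
  obtain ⟨κ, hκ, hF⟩ := F_eq h p s
  obtain ⟨k, rfl⟩ : ∃ k', k = k' + 2 := ⟨k - 2, by omega⟩
  rw [show k + 2 - 2 = k by omega, show k + 2 - 1 = k + 1 by omega]
  rcases Nat.lt_or_ge p (k + 2) with h1 | h1
  · have h2 : p = k + 1 := by omega
    subst h2
    obtain ⟨x, hx⟩ := tri_top (k := k) (s := s) (q := q) (m := m) (by omega) hm (by omega)
    refine ⟨κ * x, fun h3 => by omega, ?_⟩
    rw [hF q k (by omega) (by omega), hF q (k + 1) (by omega) (by omega),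
      show 2 * (k + 1) + 1 + 2 - 2 * (k + 2) = 1 by omega]
    exact Tri.smul hκ.le hx
  · refine ⟨F (s + 2 * p + 1) (2 * p + 1) q (k + 2), fun _ => rfl, ?_⟩
    rw [hF q k (by omega) (by omega), hF q (k + 1) (by omega) (by omega),
      hF q (k + 2) (by omega) h1, show 2 * p + 1 + 2 - 2 * (k + 2) = 2 * p - 2 * k - 1 by omega]
    exact Tri.smul hκ.le (tri_gen h1 (by omega) hm (by omega))

theorem num_pair' (h : FH F) {n i q m : ℕ} (hodd : Odd i) (h3 : 3 ≤ i) (hin : i ≤ n)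
    (hq : 2 * q ≤ i) (hm : 1 ≤ m) (hm' : m + i ≤ n + 1) :
    ∃ f0 : ℝ, Tri i m f0 (F n i q 0) (F n i q 1) := by
  obtain ⟨p, rfl⟩ := hodd
  obtain ⟨s, rfl⟩ : ∃ s, n = s + 2 * p + 1 := ⟨n - (2 * p + 1), by omega⟩
  obtain ⟨κ, hκ, hF⟩ := F_eq h p s
  obtain ⟨x, hx⟩ := tri_pair (p := p) (s := s) (q := q) (m := m) (by omega) (by omega) hm (by omega)
  refine ⟨κ * x, ?_⟩
  rw [hF q 0 (by omega) (by omega), hF q 1 (by omega) (by omega)]
  exact Tri.smul hκ.le hx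

theorem num_pair (h : FH F) {n i q : ℕ} (hodd : Odd i) (h3 : 3 ≤ i) (hin : i ≤ n)
    (hq : 2 * q ≤ i) : ∃ f0 : ℝ, Tri i 1 f0 (F n i q 0) (F n i q 1) :=
  num_pair' h hodd h3 hin hq le_rfl (by omega)

theorem F_pos (h : FH F) {n i q k : ℕ} (hodd : Odd i) (hin : i ≤ n) (hq : 2 * q ≤ i)
    (hk : 2 * k ≤ i) : 0 < F n i q k := by
  obtain ⟨p, rfl⟩ := hodd
  obtain ⟨s, rfl⟩ : ∃ s, n = s + 2 * p + 1 := ⟨n - (2 * p + 1), by omega⟩
  obtain ⟨κ, hκ, hF⟩ := F_eq h p s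
  rw [hF q k (by omega) (by omega)]
  exact mul_pos hκ (Gn_pos s (by omega) (by omega))

theorem F_nonneg (h : FH F) {n i q k : ℕ} (hodd : Odd i) (hin : i ≤ n) (hq : 2 * q ≤ i)
    (hk : 2 * k ≤ i) : 0 ≤ F n i q k := (F_pos h hodd hin hq hk).le

end Pool.Agent.H89.ODD
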