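import Mathlib
import Pool.Agent.H35.ODD.Defs
import Pool.Agent.H89.ODD.Tri
import Pool.Agent.H89.ODD.Num

set_option autoImplicit false

/-!
# Project TAN (MP_6cdc09_gt): the numbers in even dimension

`GE P s q k` (`i = 2P`, `s = n - i`): the value `g(E_q, E_k)` up to a factor depending on `(n, i)`.
Note 5329.  The real dimension of the vertices of the link is raised by one (an artificial real line).
-/

open Pool.Agent.H35.ODD

namespace Pool.Agent.H89.ODD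

/-! ### The polynomials -/

theorem tri_FE {r m M q u : ℕ} (hr : 2 ≤ r) (hM : 2 ≤ M) (hq : 1 ≤ q) (hu : r = u + 2 * q)
    (hm : 1 ≤ m) (hmM : m ≤ M) {F0 F1 F2 : ℝ}
    (h0 : F0 = r * (r - 1) * ((r + 1) * (r + 2)) * (2 * (M + q - 1) + 1) * (2 * (M + q - 1) + 3))
    (h1 : F1 = r * (r - 1) * (2 * ((r + 1) * (r + 2)) * (M + q - 1) + 4 * q * (M + r + 1)) *
      (2 * (M + q - 1) + 3))
    (h2 : F2 = 8 * q * (r + 2 - q) * (2 * (M + q - 1) + 3) *
        (r * (r - 1) * (M + q - 1) + 2 * (q - 1) * (M + r)) +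
      2 * (r + 2 - 2 * q) * (r + 1 - 2 * q) * (M + q - 1) *
        (2 * ((M + q - 1) + 1) * (r * (r - 1)) + 4 * q * (M + r))) :
    Tri (r + 1) m F0 F1 F2 := by
  have r1 : (2 : ℝ) ≤ r := by exact_mod_cast hr
  have r2 : (2 : ℝ) ≤ M := by exact_mod_cast hM
  have r3 : (1 : ℝ) ≤ q := by exact_mod_cast hq
  have r4 : (r : ℝ) = u + 2 * q := by exact_mod_cast hu
  have r5 : (1 : ℝ) ≤ m := by exact_mod_cast hm
  have r6 : (m : ℝ) ≤ M := by exact_mod_cast hmM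
  have u0 : (0 : ℝ) ≤ u := Nat.cast_nonneg u
  have p1 : (0 : ℝ) ≤ r - 1 := by linarith
  have p2 : (0 : ℝ) ≤ q - 1 := by linarith
  have p4 : (0 : ℝ) < M + q - 1 := by linarith
  have p5 : (0 : ℝ) < r - 1 := by linarith
  have hF1 : 0 < F1 := by
    rw [h1]
    positivity
  have nA : (2 * (M : ℝ) + 1) * F2 - 2 * M * F1 =
      q * (2 * M + r) * (2 * M + r + 1) *
        (4 * (q - 1) * (r ^ 2 + 5 * r + 6 * M + 6) + 4 * r * M * (r - 1)) := by
    rw [h1, h2]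
    ring
  have nA' : 2 * (M : ℝ) * F1 ≤ (2 * M + 1) * F2 := by
    have : 0 ≤ (q : ℝ) * (2 * M + r) * (2 * M + r + 1) *
        (4 * (q - 1) * (r ^ 2 + 5 * r + 6 * M + 6) + 4 * r * M * (r - 1)) := by positivity
    linarith
  have nB : ((r : ℝ) + 4) * F0 - (r + 3) * F1 =
      r * (r - 1) * (2 * (M + q - 1) + 3) * ((r + 1) * (r + 2) * (2 * M + 2 * q + r + 2) -
        4 * q * (r + 3) * (M + r + 1)) := by
    rw [h0, h1]
    ring
  have nB2 : ((r : ℝ) + 1) * (r + 2) * (2 * M + 2 * q + r + 2) - 4 * q * (r + 3) * (M + r + 1) =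
      u ^ 3 + 4 * u ^ 2 * q + 2 * u ^ 2 * M + 5 * u ^ 2 + 4 * u * q ^ 2 + 4 * u * q * M +
        10 * u * q + 6 * u * M + 8 * u + 8 * q + 4 * M + 4 := by
    rw [r4]
    ring
  have nC : (2 * (r : ℝ) + 5) * F1 - (r + 1) * F2 - (r + 4) * F0 =
      (4 * q * (M + r + 1) - (r + 1) * (r + 2)) * (6 * ((r + 1) * u + 2) * M +
        3 * u * (r ^ 2 + u)) +
      (18 * u ^ 3 * q + 12 * u ^ 3 * M + 6 * u ^ 3 + 96 * u ^ 2 * q ^ 2 + 72 * u ^ 2 * q * M +
        54 * u ^ 2 * q + 48 * u ^ 2 * M + 18 * u ^ 2 + 120 * u * q ^ 3 + 120 * u * q ^ 2 * M +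
        156 * u * q ^ 2 + 144 * u * q * M + 72 * u * q + 60 * u * M + 12 * u + 96 * q ^ 3 +
        96 * q ^ 2 * M + 96 * q ^ 2 + 96 * q * M + 24 * q + 24 * M) := by
    rw [h0, h1, h2, r4]
    ring
  have nE : F1 - F0 = r * (r - 1) * (2 * (M + q - 1) + 3) *
      (4 * q * (M + r + 1) - (r + 1) * (r + 2)) := by
    rw [h0, h1]
    ring
  have nD : 2 * (M : ℝ) * F1 ^ 2 - 2 * F1 * F2 - (2 * M - 2) * F0 * F2 =
      8 * q * r * (r - 1) * (2 * M + r) * (2 * M + r + 1) * (2 * M + 2 * q + 1) *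
        (((r + 1) * (r + 2) - 4 * q * (M + r + 1)) *
            ((q - 1) * (r + 2) * (r + 3) + M * (r ^ 2 + 5 * r + 3)) +
          6 * q * M * (r + 1) * (r + 2) + 3 * M * (2 * M - 1) * (r + 1) * (r + 2)) := by
    rw [h0, h1, h2]
    ring
  have hF2 : 0 < F2 := by
    have : 0 < (2 * (M : ℝ) + 1) * F2 := lt_of_lt_of_le (by positivity) nA'
    exact (mul_pos_iff_of_pos_left (by positivity)).1 this
  have hk : 0 < (r : ℝ) * (r - 1) * (2 * (M + q - 1) + 3) := by positivity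
  refine tri_of (by omega) hm hF1 ?_ ?_ ?_ ?_
  · have e1 : 2 * (m : ℝ) * (2 * M + 1) * F1 ≤ (2 * m + 1) * (2 * M) * F1 :=
      mul_le_mul_of_nonneg_right (by linarith) hF1.le
    have e2 := mul_le_mul_of_nonneg_left nA' (by positivity : (0 : ℝ) ≤ 2 * m + 1)
    have e3 : (2 * (M : ℝ) + 1) * (2 * m * F1) ≤ (2 * M + 1) * ((2 * m + 1) * F2) := by
      linarith
    exact le_of_mul_le_mul_left e3 (by positivity)
  · rw [nB2] at nB
    have : 0 ≤ (r : ℝ) * (r - 1) * (2 * (M + q - 1) + 3) *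
        (u ^ 3 + 4 * u ^ 2 * q + 2 * u ^ 2 * M + 5 * u ^ 2 + 4 * u * q ^ 2 + 4 * u * q * M +
        10 * u * q + 6 * u * M + 8 * u + 8 * q + 4 * M + 4) := by positivity
    push_cast
    linarith
  · intro h
    have e1 : 0 ≤ 4 * (q : ℝ) * (M + r + 1) - (r + 1) * (r + 2) := by
      have : 0 ≤ (r : ℝ) * (r - 1) * (2 * (M + q - 1) + 3) *
        (4 * q * (M + r + 1) - (r + 1) * (r + 2)) := by linarith
      exact nonneg_of_mul_nonneg_right this hk
    have : 0 ≤ (4 * (q : ℝ) * (M + r + 1) - (r + 1) * (r + 2)) * (6 * ((r + 1) * u + 2) * M +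
        3 * u * (r ^ 2 + u)) +
      (18 * u ^ 3 * q + 12 * u ^ 3 * M + 6 * u ^ 3 + 96 * u ^ 2 * q ^ 2 + 72 * u ^ 2 * q * M +
        54 * u ^ 2 * q + 48 * u ^ 2 * M + 18 * u ^ 2 + 120 * u * q ^ 3 + 120 * u * q ^ 2 * M +
        156 * u * q ^ 2 + 144 * u * q * M + 72 * u * q + 60 * u * M + 12 * u + 96 * q ^ 3 +
        96 * q ^ 2 * M + 96 * q ^ 2 + 96 * q * M + 24 * q + 24 * M) := by positivity
    push_cast
    linarith
  · intro h
    have e1 : 0 ≤ ((r : ℝ) + 1) * (r + 2) - 4 * q * (M + r + 1) := by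
      have : 0 ≤ (r : ℝ) * (r - 1) * (2 * (M + q - 1) + 3) *
        ((r + 1) * (r + 2) - 4 * q * (M + r + 1)) := by linarith
      exact nonneg_of_mul_nonneg_right this hk
    have p6 : (0 : ℝ) ≤ 2 * M - 1 := by linarith
    have e2 : 0 ≤ 2 * (M : ℝ) * F1 ^ 2 - 2 * F1 * F2 - (2 * M - 2) * F0 * F2 := by
      rw [nD]
      positivity
    have e3 : 0 ≤ F2 * (F0 - F1) := mul_nonneg hF2.le (by linarith)
    have e5 : 2 * (M : ℝ) * F1 ^ 2 - 2 * F1 * F2 - (2 * M - 2) * F0 * F2 =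
        M * (2 * (F1 ^ 2 - F0 * F2)) + 2 * (F2 * (F0 - F1)) := by ring
    have e6 : 2 * (m : ℝ) * F1 ^ 2 - 2 * F1 * F2 - (2 * m - 2) * F0 * F2 =
        m * (2 * (F1 ^ 2 - F0 * F2)) + 2 * (F2 * (F0 - F1)) := by ring
    rw [e5] at e2
    have e7 : 0 ≤ (m : ℝ) * (2 * (F1 ^ 2 - F0 * F2)) + 2 * (F2 * (F0 - F1)) := by
      rcases le_total 0 (2 * (F1 ^ 2 - F0 * F2)) with hs | hs
      · exact add_nonneg (mul_nonneg (by linarith) hs) (by linarith)
      · have e8 := mul_le_mul_of_nonpos_right r6 hs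
        linarith
    rw [← e6] at e7
    linarith

end Pool.Agent.H89.ODD
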