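import Mathlib
import Pool.Agent.H35.ODD.Defs
import Pool.Agent.H89.ODD.Tri
import Pool.Agent.H89.ODD.Num

set_option autoImplicit false

/-!
# Project TAN (MP_6cdc09_gt): the sequences in even dimension
-/

open Pool.Agent.H35.ODD

namespace Pool.Agent.H89.ODD

/-! ### The sequences -/

noncomputable def GE : ℕ → ℕ → ℕ → ℕ → ℝ
  | _, s, q, 0 => Jc (s + q)
  | 0, _, _, _ + 1 => 0
  | p + 1, s, q, k + 1 =>
      (4 * (q : ℝ) * (2 * (p : ℝ) + 2 - q) * GE p (s + 1) (q - 1) k +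
        (2 * (p : ℝ) + 2 - 2 * q) * (2 * (p : ℝ) + 1 - 2 * q) * GE p (s + 1) q k) /
          ((2 * (p : ℝ) + 2) * (2 * p + 1))

theorem GE_zero (p s q : ℕ) : GE p s q 0 = Jc (s + q) := by
  cases p <;> simp [GE]

theorem GE_succ (p s q k : ℕ) : GE (p + 1) s q (k + 1) =
    (4 * (q : ℝ) * (2 * (p : ℝ) + 2 - q) * GE p (s + 1) (q - 1) k +
        (2 * (p : ℝ) + 2 - 2 * q) * (2 * (p : ℝ) + 1 - 2 * q) * GE p (s + 1) q k) /
          ((2 * (p : ℝ) + 2) * (2 * p + 1)) := by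
  rw [GE]

theorem GE_left {p k : ℕ} (s : ℕ) (hk : k ≤ p) : GE p s 0 k = Jc (s + k) := by
  induction k generalizing p s with
  | zero => rw [GE_zero]
  | succ k ih =>
    obtain ⟨p, rfl⟩ : ∃ p', p = p' + 1 := ⟨p - 1, by omega⟩
    rw [GE_succ, ih (s + 1) (by omega), show s + 1 + k = s + (k + 1) by omega]
    push_cast
    field_simp
    ring

theorem GE_pos {p q k : ℕ} (s : ℕ) (hq : q ≤ p) (hk : k ≤ p) : 0 < GE p s q k := by
  induction k generalizing p s q with
  | zero =>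
    rw [GE_zero]
    exact Jc_pos _
  | succ k ih =>
    obtain ⟨p, rfl⟩ : ∃ p', p = p' + 1 := ⟨p - 1, by omega⟩
    rw [GE_succ]
    refine div_pos ?_ (by positivity)
    have hq' : (q : ℝ) ≤ p + 1 := by exact_mod_cast hq
    have b0 : (0 : ℝ) ≤ p := Nat.cast_nonneg p
    have a1 := ih (p := p) (q := q - 1) (s + 1) (by omega) (by omega)
    rcases Nat.eq_zero_or_pos q with h0 | h0
    · subst h0
      have a2 := ih (p := p) (q := 0) (s + 1) (by omega) (by omega)
      push_cast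
      have : 0 < (2 * (p : ℝ) + 2 - 2 * 0) * (2 * (p : ℝ) + 1 - 2 * 0) * GE p (s + 1) 0 k := by
        have b1 : (0 : ℝ) < 2 * (p : ℝ) + 2 - 2 * 0 := by linarith
        have b2 : (0 : ℝ) < 2 * (p : ℝ) + 1 - 2 * 0 := by linarith
        positivity
      linarith
    · have h1 : (1 : ℝ) ≤ q := by exact_mod_cast h0
      have b1 : 0 < 4 * (q : ℝ) * (2 * (p : ℝ) + 2 - q) * GE p (s + 1) (q - 1) k := by
        have : 0 < 2 * (p : ℝ) + 2 - q := by linarith
        positivity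
      rcases Nat.lt_or_ge p q with h2 | h2
      · have h3 : q = p + 1 := by omega
        subst h3
        have : (2 * (p : ℝ) + 2 - 2 * ((p + 1 : ℕ) : ℝ)) * (2 * (p : ℝ) + 1 - 2 * ((p + 1 : ℕ) : ℝ)) *
            GE p (s + 1) (p + 1) k = 0 := by
          push_cast
          ring
        linarith
      · have a2 := ih (p := p) (q := q) (s + 1) h2 (by omega)
        have h4 : (q : ℝ) ≤ p := by exact_mod_cast h2
        have b2 : 0 ≤ (2 * (p : ℝ) + 2 - 2 * q) * (2 * (p : ℝ) + 1 - 2 * q) *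
            GE p (s + 1) q k := by
          have c1 : 0 ≤ 2 * (p : ℝ) + 2 - 2 * q := by linarith
          have c2 : 0 ≤ 2 * (p : ℝ) + 1 - 2 * q := by linarith
          positivity
        linarith

/-! ### The two upper types -/

/-- `h(M)`, `M = 2x`. -/
noncomputable def Hx : ℕ → ℝ
  | 0 => 1
  | x + 1 => Hx x * (2 * x + 1) / (2 * x + 2)

theorem Hx_pos (x : ℕ) : 0 < Hx x := by
  induction x with
  | zero => simp [Hx]
  | succ x ih =>
    rw [Hx]
    positivity

theorem Hx_succ (x : ℕ) : (2 * (x : ℝ) + 2) * Hx (x + 1) = (2 * x + 1) * Hx x := by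
  rw [Hx]
  field_simp

theorem Hx_eq (x : ℕ) : Hx (x + 1) = Hx x * (2 * x + 1) / (2 * x + 2) := rfl

theorem GE_top {p k : ℕ} (s : ℕ) (hk : k ≤ p) :
    GE p s p k = Jc (s + p) / Hx p * Hx (p - k) := by
  induction k generalizing p s with
  | zero =>
    rw [GE_zero, Nat.sub_zero, div_mul_cancel₀ _ (Hx_pos p).ne']
  | succ k ih =>
    obtain ⟨p, rfl⟩ : ∃ p', p = p' + 1 := ⟨p - 1, by omega⟩
    rw [GE_succ, show p + 1 - 1 = p by omega, ih (s + 1) (by omega),
      show p + 1 - (k + 1) = p - k by omega, show s + 1 + p = s + (p + 1) by omega, Hx]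
    have h1 := (Hx_pos p).ne'
    push_cast
    field_simp
    ring

theorem GE_sub {p k : ℕ} (s : ℕ) (hk : k ≤ p + 1) :
    GE (p + 1) s p k = Jc (s + p + 1) / Hx (p + 1) * Hx (p + 1 - k) / 2 *
      (1 + ((p : ℝ) + 2) * (s + p + 2) / ((p + 1) * (s + p + 1)) *
        (((p + 1 - k : ℕ) : ℝ) / ((p + 1 - k : ℕ) + 1))) := by
  induction k generalizing p s with
  | zero =>
    have h1 := (Hx_pos (p + 1)).ne'
    have h2 := Jc_succ (s + p)
    push_cast at h2
    have h3 : Jc (s + p) = Jc (s + p + 1) * (2 * ((s : ℝ) + p) + 3) / (2 * (s + p) + 2) := by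
      rw [eq_div_iff (by positivity)]
      linarith
    rw [GE_zero, Nat.sub_zero, h3]
    push_cast
    field_simp
    ring
  | succ k ih =>
    rcases Nat.eq_zero_or_pos p with h0 | h0
    · subst h0
      have hk0 : k = 0 := by omega
      subst hk0
      rw [GE_left s (by omega)]
      simp [Hx]
    · obtain ⟨p, rfl⟩ : ∃ p', p = p' + 1 := ⟨p - 1, by omega⟩
      have h1 := (Hx_pos (p + 1)).ne'
      rw [GE_succ, show p + 1 - 1 = p by omega, ih (s + 1) (by omega), GE_top (s + 1) (by omega),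
        show p + 1 + 1 - (k + 1) = p + 1 - k by omega,
        show s + 1 + p + 1 = s + p + 2 by omega, show s + 1 + (p + 1) = s + p + 2 by omega,
        show s + (p + 1) + 1 = s + p + 2 by omega, Hx_eq (p + 1)]
      push_cast
      have hx : ((p + 1 - k : ℕ) : ℝ) + 1 ≠ 0 := by positivity
      field_simp
      ring

/-- The mixture of the two upper types. -/
theorem GE_mix (p s : ℕ) (a b : ℝ) (ha : 0 ≤ a) (hb : 0 ≤ b)
    (hab : 2 * ((p : ℝ) + 1) * (s + p + 1) * b ≤ (s + 2 * p + 3) * a) :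
    ∃ α β : ℝ, 0 ≤ α ∧ α ≤ β ∧ ((s : ℝ) + p + 1) * β ≤ 2 * (s + p + 2) * α ∧
      ∀ k, k ≤ p + 1 → a * GE (p + 1) s p k + b * GE (p + 1) s (p + 1) k =
        Hx (p + 1 - k) * (α + β * (((p + 1 - k : ℕ) : ℝ) / ((p + 1 - k : ℕ) + 1))) := by
  have hJ := Jc_pos (s + p + 1)
  have hH := Hx_pos (p + 1)
  set C : ℝ := Jc (s + p + 1) / Hx (p + 1) with hC
  have hC0 : 0 < C := div_pos hJ hH
  set ρ : ℝ := ((p : ℝ) + 2) * (s + p + 2) / ((p + 1) * (s + p + 1)) with hρ
  have hρe : ((p : ℝ) + 1) * (s + p + 1) * ρ = (p + 2) * (s + p + 2) := by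
    rw [hρ]
    field_simp
  have hp0 : (0 : ℝ) ≤ p := Nat.cast_nonneg p
  have hs0 : (0 : ℝ) ≤ s := Nat.cast_nonneg s
  refine ⟨C * (a / 2 + b), C * (a * ρ / 2), by positivity, ?_, ?_, fun k hk => ?_⟩
  · refine mul_le_mul_of_nonneg_left ?_ hC0.le
    have h1 : (0 : ℝ) < ((p : ℝ) + 1) * (s + p + 1) := by positivity
    refine le_of_mul_le_mul_left ?_ h1
    have h2 : ((p : ℝ) + 1) * (s + p + 1) * (a * ρ / 2) = a * ((p + 2) * (s + p + 2)) / 2 := by
      rw [← hρe]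
      ring
    rw [h2]
    nlinarith
  · have h3 : ((s : ℝ) + p + 1) * (a * ρ / 2) ≤ 2 * (s + p + 2) * (a / 2 + b) := by
      have h1 : (0 : ℝ) < (p : ℝ) + 1 := by positivity
      refine le_of_mul_le_mul_left ?_ h1
      have h2 : ((p : ℝ) + 1) * ((s + p + 1) * (a * ρ / 2)) = a * ((p + 2) * (s + p + 2)) / 2 := by
        rw [← hρe]
        ring
      rw [h2]
      have h4 : 0 ≤ a * (s + p + 2) * p := by positivity
      have h5 : 0 ≤ ((p : ℝ) + 1) * (2 * (s + p + 2) * b) := by positivity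
      nlinarith
    calc ((s : ℝ) + p + 1) * (C * (a * ρ / 2)) = C * ((s + p + 1) * (a * ρ / 2)) := by ring
      _ ≤ C * (2 * (s + p + 2) * (a / 2 + b)) := mul_le_mul_of_nonneg_left h3 hC0.le
      _ = _ := by ring
  · rw [GE_sub s hk, GE_top s hk, show s + (p + 1) = s + p + 1 by omega, ← hC, ← hρ]
    ring

/-- The triples of the mixture. -/
theorem tri_hx {x m N : ℕ} (hx : 1 ≤ x) (hm : 1 ≤ m) (hmN : m + x ≤ N + 1) {α β : ℝ}
    (hα : 0 < α) (hαβ : α ≤ β) (hβ : (N : ℝ) * β ≤ 2 * (N + 1) * α) :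
    Tri (2 * x + 1) m (Hx (x + 1) * (α + β * (((x : ℝ) + 1) / (x + 2))))
      (Hx x * (α + β * ((x : ℝ) / (x + 1)))) (Hx (x - 1) * (α + β * (((x : ℝ) - 1) / x))) := by
  obtain ⟨y, rfl⟩ : ∃ y, x = y + 1 := ⟨x - 1, by omega⟩
  rw [show y + 1 - 1 = y by omega]
  have hH := Hx_pos y
  have hm' : (1 : ℝ) ≤ m := by exact_mod_cast hm
  have hy0 : (0 : ℝ) ≤ y := Nat.cast_nonneg y
  have hβ0 : 0 < β := lt_of_lt_of_le hα hαβ
  set K : ℝ := Hx y / ((2 * y + 2) * (2 * y + 4) * (y + 1) * (y + 2) * (y + 3)) with hK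
  have hK0 : 0 < K := by positivity
  have e2 : Hx y * (α + β * ((((y + 1 : ℕ) : ℝ) - 1) / ((y + 1 : ℕ) : ℝ))) =
      K * ((2 * y + 2) * (2 * y + 4) * (y + 2) * (y + 3) * (α * (y + 1) + β * y)) := by
    rw [hK]
    push_cast
    field_simp
    ring
  have e1 : Hx (y + 1) * (α + β * (((y + 1 : ℕ) : ℝ) / (((y + 1 : ℕ) : ℝ) + 1))) =
      K * ((2 * y + 1) * (2 * y + 4) * (y + 1) * (y + 3) * (α * (y + 2) + β * (y + 1))) := by
    rw [hK, Hx_eq y]
    push_cast
    field_simp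
    ring
  have e0 : Hx (y + 1 + 1) * (α + β * ((((y + 1 : ℕ) : ℝ) + 1) / (((y + 1 : ℕ) : ℝ) + 2))) =
      K * ((2 * y + 1) * (2 * y + 3) * (y + 1) * (y + 2) * (α * (y + 3) + β * (y + 2))) := by
    rw [hK, Hx_eq (y + 1), Hx_eq y]
    push_cast
    field_simp
    ring
  rw [e0, e1, e2]
  refine Tri.smul hK0.le (tri_of (by omega) hm (by positivity) ?_ ?_ ?_ ?_)
  · rcases Nat.eq_zero_or_pos y with h0 | h0
    · subst h0
      have hmN' : (m : ℝ) ≤ N := by
        have : m ≤ N := by omega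
        exact_mod_cast this
      have h1 : (m : ℝ) * β ≤ 2 * (m + 1) * α := by
        have hN0 : (0 : ℝ) < N := by linarith
        refine le_of_mul_le_mul_left ?_ hN0
        nlinarith
      push_cast
      nlinarith
    · have h1 : (1 : ℝ) ≤ y := by exact_mod_cast h0
      have h2 : 0 ≤ ((2 * (y : ℝ) + 2) * (2 * y + 4) * (y + 2) * (y + 3) * (α * (y + 1) + β * y)) -
          ((2 * y + 1) * (2 * y + 4) * (y + 1) * (y + 3) * (α * (y + 2) + β * (y + 1))) := by
        have : ((2 * (y : ℝ) + 2) * (2 * y + 4) * (y + 2) * (y + 3) * (α * (y + 1) + β * y)) -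
          ((2 * y + 1) * (2 * y + 4) * (y + 1) * (y + 3) * (α * (y + 2) + β * (y + 1))) =
          (2 * y + 4) * (y + 1) * (y + 3) * (α * (y + 2) + β * (y - 1)) := by ring
        rw [this]
        have : 0 ≤ (y : ℝ) - 1 := by linarith
        positivity
      have h3 : 0 ≤ (2 * (y : ℝ) + 2) * (2 * y + 4) * (y + 2) * (y + 3) * (α * (y + 1) + β * y) := by
        positivity
      have h4 : 0 ≤ 2 * (m : ℝ) := by linarith
      nlinarith [mul_nonneg h4 h2]
  · have h1 : ((y : ℝ) * 2 + 6) * ((2 * y + 1) * (2 * y + 3) * (y + 1) * (y + 2) *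
        (α * (y + 3) + β * (y + 2))) - (y * 2 + 5) * ((2 * y + 1) * (2 * y + 4) * (y + 1) *
          (y + 3) * (α * (y + 2) + β * (y + 1))) =
        (2 * y + 1) * (y + 1) * (y + 2) * (2 * y + 6) * (β - α) := by ring
    have h2 : 0 ≤ (2 * (y : ℝ) + 1) * (y + 1) * (y + 2) * (2 * y + 6) * (β - α) := by
      have : 0 ≤ β - α := by linarith
      positivity
    push_cast
    nlinarith
  · intro _
    have h1 : (2 * (y : ℝ) + 6) * ((2 * y + 1) * (2 * y + 4) * (y + 1) * (y + 3) *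
        (α * (y + 2) + β * (y + 1)) - (2 * y + 1) * (2 * y + 3) * (y + 1) * (y + 2) *
        (α * (y + 3) + β * (y + 2))) - (2 * y + 3) * ((2 * y + 2) * (2 * y + 4) * (y + 2) *
        (y + 3) * (α * (y + 1) + β * y) - (2 * y + 1) * (2 * y + 4) * (y + 1) * (y + 3) *
        (α * (y + 2) + β * (y + 1))) = 6 * (y + 1) * (y + 2) * (y + 3) * (β - α) := by ring
    have h2 : 0 ≤ 6 * ((y : ℝ) + 1) * (y + 2) * (y + 3) * (β - α) := by
      have : 0 ≤ β - α := by linarith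
      positivity
    push_cast
    nlinarith
  · intro h
    exfalso
    have h1 : (2 * (y : ℝ) + 1) * (2 * y + 4) * (y + 1) * (y + 3) *
        (α * (y + 2) + β * (y + 1)) - (2 * y + 1) * (2 * y + 3) * (y + 1) * (y + 2) *
        (α * (y + 3) + β * (y + 2)) =
        (2 * y + 1) * (y + 1) * (y + 2) * (α * (y + 3) + β * y) := by ring
    have h2 : 0 < (2 * (y : ℝ) + 1) * (y + 1) * (y + 2) * (α * (y + 3) + β * y) := by positivity
    linarith

end Pool.Agent.H89.ODD
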