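import Mathlib
import Pool.Agent.H89.ODD.NumE1
import Pool.Agent.H89.ODD.NumE2

set_option autoImplicit false

/-!
# Project TAN (MP_6cdc09_gt): the triples in even dimension
-/

open Pool.Agent.H35.ODD

namespace Pool.Agent.H89.ODD

theorem tri_zero {r m : ℕ} (hr : 1 ≤ r) (hm : 1 ≤ m) : Tri r m 0 0 0 := by
  have hm' : (1 : ℝ) ≤ m := by exact_mod_cast hm
  have h := tri_iso (r := r) (m := m) (M := m + 1) (f0 := (2 * (m : ℝ) + 1) / (2 * m)) (f1 := 1)
    (f2 := (2 * (m : ℝ) + 2) / (2 * m + 3)) hr hm (by omega) (by omega) one_pos (by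
      push_cast
      field_simp
      ring) (by
      push_cast
      field_simp
      ring)
  have h2 := Tri.smul le_rfl h
  simpa using h2

/-- `x = 0`: `f2` free. -/
theorem tri_h0 {m N : ℕ} (hm : 1 ≤ m) (hmN : m ≤ N + 1) {α β : ℝ} (hα : 0 < α) (hαβ : α ≤ β)
    (hβ : (N : ℝ) * β ≤ 2 * (N + 1) * α) :
    ∃ f2 : ℝ, Tri 1 m (Hx 1 * (α + β * ((0 + 1) / (0 + 2)))) (Hx 0 * (α + β * (0 / (0 + 1)))) f2 := by
  have hm' : (1 : ℝ) ≤ m := by exact_mod_cast hm
  have hmN' : (m : ℝ) ≤ N + 1 := by exact_mod_cast hmN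
  have e0 : Hx 1 * (α + β * ((0 + 1) / (0 + 2))) = (α + β / 2) / 2 := by
    simp [Hx]
    ring
  have e1 : Hx 0 * (α + β * (0 / (0 + 1))) = α := by simp [Hx]
  rw [e0, e1]
  rcases le_total ((α + β / 2) / 2) α with h | h
  · refine ⟨α, tri_mp le_rfl hm hα ?_ le_rfl h ?_⟩
    · linarith
    · push_cast
      linarith
  · have hp : (0 : ℝ) < 2 * m + 1 := by positivity
    refine ⟨2 * m * α / (2 * m + 1), tri_mm le_rfl hm hα ?_ h ?_⟩
    · rw [mul_div_cancel₀ _ hp.ne']
    · have h1 : ((m : ℝ) - 1) * β ≤ 2 * m * α := by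
        rcases Nat.eq_zero_or_pos N with h0 | h0
        · have : m = 1 := by omega
          subst this
          push_cast
          nlinarith
        · have hN0 : (0 : ℝ) < N := by exact_mod_cast h0
          refine le_of_mul_le_mul_left ?_ hN0
          have h2 : ((m : ℝ) - 1) * (N * β) ≤ (m - 1) * (2 * (N + 1) * α) :=
            mul_le_mul_of_nonneg_left hβ (by linarith)
          have h3 : ((m : ℝ) - 1) * (N + 1) ≤ N * m := by nlinarith
          have h4 := mul_le_mul_of_nonneg_right h3 (by positivity : (0 : ℝ) ≤ 2 * α)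
          nlinarith
      have h2 : (2 * (m : ℝ) - 2) * ((α + β / 2) / 2) * (2 * m * α / (2 * m + 1)) =
          (2 * m * α / (2 * m + 1)) * ((m - 1) * (α + β / 2)) := by ring
      have h3 : 2 * (m : ℝ) * α ^ 2 - 2 * α * (2 * m * α / (2 * m + 1)) =
          (2 * m * α / (2 * m + 1)) * ((2 * m - 1) * α) := by
        field_simp
        ring
      rw [h2, h3]
      refine mul_le_mul_of_nonneg_left ?_ (by positivity)
      nlinarith

theorem pair_of {R m : ℕ} (hR : 2 ≤ R) (hm : 1 ≤ m) {f1 f2 : ℝ} (hf : 0 < f1)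
    (hlow : 2 * (m : ℝ) * f1 ≤ (2 * m + 1) * f2) (hup : (R : ℝ) * (f2 - f1) ≤ f1) :
    ∃ f0 : ℝ, Tri R m f0 f1 f2 := by
  have hR' : (2 : ℝ) ≤ R := by exact_mod_cast hR
  rcases le_total f2 f1 with h | h
  · refine ⟨f1, tri_mp (by omega) hm hf hlow h le_rfl ?_⟩
    nlinarith
  · have e : ((R : ℝ) + 3) * (f1 - (f1 - R * (f2 - f1) / (R + 3))) = R * (f2 - f1) := by
      field_simp
      ring
    have e' : ((R : ℝ) + 3) * (f1 - R * (f2 - f1) / (R + 3)) =
        (R + 3) * f1 - R * (f2 - f1) := by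
      field_simp
    refine ⟨f1 - R * (f2 - f1) / (R + 3), tri_pp hR hm hf h ?_ ?_⟩
    · rw [e]
    · rw [e']
      linarith

/-- `k = 0`: `f0` free. -/
theorem tri_pairE {p s q m : ℕ} (hq : q ≤ p) (hm : 1 ≤ m) (hms : m ≤ s + 1) :
    ∃ f0 : ℝ, Tri (2 * p + 3) m f0 (GE (p + 1) s q 0) (GE (p + 1) s q 1) := by
  have r5 : (1 : ℝ) ≤ m := by exact_mod_cast hm
  have r6 : (m : ℝ) ≤ s + 1 := by exact_mod_cast hms
  have hJ := Jc_pos (s + q)
  have hp0 : (0 : ℝ) ≤ p := Nat.cast_nonneg p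
  have hs0 : (0 : ℝ) ≤ s := Nat.cast_nonneg s
  have hq0 : (0 : ℝ) ≤ q := Nat.cast_nonneg q
  have hqp : (q : ℝ) ≤ p := by exact_mod_cast hq
  have e1 : GE (p + 1) s q 1 = Jc (s + q) * ((((2 * p + 2) * (2 * p + 1) + 2 * q) *
      (2 * (s + q) + 2) + 4 * q * (2 * p + 2 - q)) /
        ((2 * p + 2) * (2 * p + 1) * (2 * (s + q) + 3))) := by
    have hj := Jc_succ (s + q)
    push_cast at hj
    have hj' : Jc (s + q + 1) = (2 * ((s : ℝ) + q) + 2) * Jc (s + q) / (2 * (s + q) + 3) := by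
      rw [eq_div_iff (by positivity)]
      linarith
    have e0 : 4 * (q : ℝ) * (2 * (p : ℝ) + 2 - q) * Jc (s + 1 + (q - 1)) =
        4 * (q : ℝ) * (2 * (p : ℝ) + 2 - q) * Jc (s + q) := by
      rcases Nat.eq_zero_or_pos q with h0 | h0
      · rw [h0]
        push_cast
        ring
      · rw [show s + 1 + (q - 1) = s + q by omega]
    rw [GE_succ, GE_zero, GE_zero, e0, show s + 1 + q = s + q + 1 by omega, hj']
    field_simp
    ring
  have e0 : GE (p + 1) s q 0 = Jc (s + q) := GE_zero _ _ _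
  rw [e0]
  set X : ℝ := (((2 * p + 2) * (2 * p + 1) + 2 * q) *
      (2 * (s + q) + 2) + 4 * q * (2 * p + 2 - q)) /
        ((2 * p + 2) * (2 * p + 1) * (2 * (s + q) + 3)) with hX
  have hd : (0 : ℝ) < (2 * p + 2) * (2 * p + 1) * (2 * (s + q) + 3) := by positivity
  have a0 : (0 : ℝ) ≤ 4 * q * (2 * p + 2 - q) := by
    have : (0 : ℝ) ≤ 2 * p + 2 - q := by linarith
    positivity
  refine pair_of (by omega) hm hJ ?_ ?_
  · rw [e1]
    have h1 : 2 * (m : ℝ) ≤ (2 * m + 1) * X := by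
      rw [hX, mul_div_assoc', le_div_iff₀ hd]
      have a1 : 0 ≤ (2 * (p : ℝ) + 2) * (2 * p + 1) * (2 * (s + q + 1 - m)) :=
        mul_nonneg (by positivity) (by linarith)
      have a2 : 0 ≤ (2 * (m : ℝ) + 1) * (4 * q * (2 * p + 2 - q)) :=
        mul_nonneg (by linarith) a0
      have a3 : 0 ≤ (2 * (m : ℝ) + 1) * (2 * q * (2 * (s + q) + 2)) := by positivity
      nlinarith
    have := mul_le_mul_of_nonneg_left h1 hJ.le
    linarith
  · rw [e1]
    have h1 : (2 * (p : ℝ) + 3) * X ≤ 2 * p + 4 := by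
      rw [hX, mul_div_assoc', div_le_iff₀ hd]
      have b0 : 0 ≤ (p : ℝ) - q := by linarith
      have b1 : 0 ≤ ((p : ℝ) - q) * (2 * (s + q) + 2) := by positivity
      have b2 : 0 ≤ ((p : ℝ) - q) * (p + q + 2) := by
        have : (0 : ℝ) ≤ p + q + 2 := by positivity
        positivity
      nlinarith [mul_nonneg (by positivity : (0 : ℝ) ≤ 2 * p + 3) b1,
        mul_nonneg (by positivity : (0 : ℝ) ≤ 2 * p + 3) (mul_nonneg b0 b0),
        mul_nonneg (by positivity : (0 : ℝ) ≤ 2 * p + 3) b2]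
    have := mul_le_mul_of_nonneg_left h1 hJ.le
    push_cast
    linarith



/-! ### `k = 1` -/

theorem tri_baseE {t s q m : ℕ} (hq : q ≤ t + 1) (hm : 1 ≤ m) (hms : m ≤ s + 2) :
    Tri (2 * t + 3) m (GE (t + 2) s q 0) (GE (t + 2) s q 1) (GE (t + 2) s q 2) := by
  rcases Nat.eq_zero_or_pos q with h0 | h0
  · subst h0
    rw [GE_left s (by omega), GE_left s (by omega), GE_left s (by omega)]
    refine tri_iso (M := s + 2) (by omega) hm hms (by omega) (Jc_pos _) ?_ ?_
    · have := Jc_succ s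
      push_cast
      simp only [add_zero]
      linarith
    · have := Jc_succ (s + 1)
      push_cast at this ⊢
      linarith
  · obtain ⟨u, rfl⟩ : ∃ u, q = u + 1 := ⟨q - 1, by omega⟩
    have hu : (u : ℝ) ≤ t := by
      have : u ≤ t := by omega
      exact_mod_cast this
    set g : ℝ := Jc (s + u + 2) with hg
    have hgp : 0 < g := Jc_pos _
    have j0 : Jc (s + u + 1) = g * (2 * ((s : ℝ) + u + 2) + 1) / (2 * ((s : ℝ) + u + 2)) := by
      have := Jc_succ (s + u + 1)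
      push_cast at this
      rw [eq_div_iff (by positivity)]
      rw [hg]
      linarith
    have j2 : Jc (s + u + 3) = g * (2 * ((s : ℝ) + u + 2) + 2) / (2 * ((s : ℝ) + u + 2) + 3) := by
      have := Jc_succ (s + u + 2)
      push_cast at this
      rw [eq_div_iff (by positivity)]
      rw [hg]
      linarith
    have g0 : GE (t + 2) s (u + 1) 0 = Jc (s + u + 1) := by
      rw [GE_zero]
      rfl
    have g1 : GE (t + 2) s (u + 1) 1 =
        (4 * ((u : ℝ) + 1) * (2 * ((t : ℝ) + 1) + 2 - (u + 1)) * Jc (s + u + 1) +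
          (2 * ((t : ℝ) + 1) + 2 - 2 * (u + 1)) * (2 * ((t : ℝ) + 1) + 1 - 2 * (u + 1)) * g) /
          ((2 * ((t : ℝ) + 1) + 2) * (2 * (t + 1) + 1)) := by
      rw [GE_succ, GE_zero, GE_zero, show s + 1 + (u + 1 - 1) = s + u + 1 by omega,
        show s + 1 + (u + 1) = s + u + 2 by omega]
      push_cast
      rfl
    have g2a : GE (t + 1) (s + 1) (u + 1) 1 =
        (4 * ((u : ℝ) + 1) * (2 * (t : ℝ) + 2 - (u + 1)) * g +
          (2 * (t : ℝ) + 2 - 2 * (u + 1)) * (2 * (t : ℝ) + 1 - 2 * (u + 1)) * Jc (s + u + 3)) /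
          ((2 * (t : ℝ) + 2) * (2 * t + 1)) := by
      rw [GE_succ, GE_zero, GE_zero, show s + 1 + 1 + (u + 1 - 1) = s + u + 2 by omega,
        show s + 1 + 1 + (u + 1) = s + u + 3 by omega]
      push_cast
      rfl
    have g2b : GE (t + 1) (s + 1) u 1 =
        (4 * (u : ℝ) * (2 * (t : ℝ) + 2 - u) * Jc (s + u + 1) +
          (2 * (t : ℝ) + 2 - 2 * u) * (2 * (t : ℝ) + 1 - 2 * u) * g) /
          ((2 * (t : ℝ) + 2) * (2 * t + 1)) := by
      rw [GE_succ, GE_zero, GE_zero]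
      rcases Nat.eq_zero_or_pos u with h1 | h1
      · subst h1
        rw [hg]
        simp
      · rw [show s + 1 + 1 + (u - 1) = s + u + 1 by omega,
          show s + 1 + 1 + u = s + u + 2 by omega]
    have g2 : GE (t + 2) s (u + 1) 2 =
        (4 * ((u : ℝ) + 1) * (2 * ((t : ℝ) + 1) + 2 - (u + 1)) * GE (t + 1) (s + 1) u 1 +
          (2 * ((t : ℝ) + 1) + 2 - 2 * (u + 1)) * (2 * ((t : ℝ) + 1) + 1 - 2 * (u + 1)) *
            GE (t + 1) (s + 1) (u + 1) 1) /
          ((2 * ((t : ℝ) + 1) + 2) * (2 * (t + 1) + 1)) := by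
      rw [GE_succ]
      push_cast
      rfl
    set r : ℕ := 2 * t + 2 with hr
    set M : ℕ := s + 2 with hM
    have hrc : (r : ℝ) = 2 * t + 2 := by rw [hr]; push_cast; ring
    have hMc : (M : ℝ) = s + 2 := by rw [hM]; push_cast; ring
    set c : ℝ := g / (((r : ℝ) * (r - 1)) * ((r + 1) * (r + 2)) *
      (2 * ((s : ℝ) + u + 2)) * (2 * ((s : ℝ) + u + 2) + 3)) with hc
    have ht0 : (0 : ℝ) ≤ t := Nat.cast_nonneg t
    have hr1 : (0 : ℝ) < (r : ℝ) - 1 := by rw [hrc]; linarith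
    have hc0 : 0 ≤ c := by positivity
    have key := tri_FE (r := r) (m := m) (M := M) (q := u + 1) (u := 2 * t - 2 * u) (by omega)
      (by omega) (by omega) (by omega) hm hms rfl rfl rfl
    have k2 := Tri.smul hc0 key
    have hs0 : (0 : ℝ) < (s : ℝ) + u + 2 := by positivity
    have h9 : 2 * (t : ℝ) + 2 - 1 ≠ 0 := by
      have : 0 < 2 * (t : ℝ) + 2 - 1 := by linarith
      exact this.ne'
    have h9' : 2 * ((t : ℝ) + 1) - 1 ≠ 0 := by
      have : 0 < 2 * ((t : ℝ) + 1) - 1 := by linarith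
      exact this.ne'
    convert k2 using 1
    · rw [g0, j0, hc]
      push_cast
      rw [hrc, hMc]
      have : (s : ℝ) + 2 + (u + 1) - 1 = s + u + 2 := by ring
      rw [this]
      field_simp
    · rw [g1, j0, hc]
      push_cast
      rw [hrc, hMc]
      have : (s : ℝ) + 2 + (u + 1) - 1 = s + u + 2 := by ring
      rw [this]
      field_simp
      ring
    · rw [g2, g2a, g2b, j0, j2, hc]
      push_cast
      rw [hrc, hMc]
      have : (s : ℝ) + 2 + (u + 1) - 1 = s + u + 2 := by ring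
      rw [this]
      field_simp
      ring

/-! ### Induction -/

/-- The weights of the recursion. -/
theorem GE_step {p q : ℕ} (s : ℕ) (hq : q ≤ p) : ∃ α β : ℝ, 0 ≤ α ∧ 0 ≤ β ∧
    ∀ k, GE (p + 1) s q (k + 1) = α * GE p (s + 1) (q - 1) k + β * GE p (s + 1) q k := by
  have hq' : (q : ℝ) ≤ p := by exact_mod_cast hq
  have hp0 : (0 : ℝ) ≤ p := Nat.cast_nonneg p
  refine ⟨4 * (q : ℝ) * (2 * (p : ℝ) + 2 - q) / ((2 * (p : ℝ) + 2) * (2 * p + 1)),
    (2 * (p : ℝ) + 2 - 2 * q) * (2 * (p : ℝ) + 1 - 2 * q) / ((2 * (p : ℝ) + 2) * (2 * p + 1)),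
    ?_, ?_, fun k => ?_⟩
  · have : 0 ≤ 2 * (p : ℝ) + 2 - q := by linarith
    positivity
  · have c1 : 0 ≤ 2 * (p : ℝ) + 2 - 2 * q := by linarith
    have c2 : 0 ≤ 2 * (p : ℝ) + 1 - 2 * q := by linarith
    positivity
  · rw [GE_succ]
    ring

/-- The mixture of the two upper types, `k ≥ 1`. -/
theorem tri_mixE {p s k m : ℕ} (a b : ℝ) (ha : 0 ≤ a) (hb : 0 ≤ b)
    (hab : 2 * ((p : ℝ) + 1) * (s + p + 1) * b ≤ (s + 2 * p + 3) * a) (hk : k + 1 ≤ p)
    (hm : 1 ≤ m) (hms : m ≤ s + k + 2) :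
    Tri (2 * p - 2 * k + 1) m
      (a * GE (p + 1) s p k + b * GE (p + 1) s (p + 1) k)
      (a * GE (p + 1) s p (k + 1) + b * GE (p + 1) s (p + 1) (k + 1))
      (a * GE (p + 1) s p (k + 2) + b * GE (p + 1) s (p + 1) (k + 2)) := by
  obtain ⟨α, β, hα, hαβ, hβ, h⟩ := GE_mix p s a b ha hb hab
  rw [h k (by omega), h (k + 1) (by omega), h (k + 2) (by omega)]
  rcases hα.eq_or_lt with h0 | h0
  · have hb0 : β = 0 := by
      have : (0 : ℝ) < (s : ℝ) + p + 1 := by positivity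
      rw [← h0, mul_zero] at hβ
      have h1 : β ≤ 0 := by
        by_contra hc
        have := mul_pos this (not_le.1 hc)
        linarith
      linarith
    rw [← h0, hb0]
    simp only [zero_mul, add_zero, mul_zero]
    exact tri_zero (by omega) hm
  · obtain ⟨x, hx⟩ : ∃ x, p = k + x + 1 := ⟨p - k - 1, by omega⟩
    subst hx
    have h1 := tri_hx (x := x + 1) (m := m) (N := s + (k + x + 1) + 1) (by omega) hm (by omega) h0
      hαβ (by
        push_cast
        push_cast at hβ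
        linarith)
    rw [show x + 1 - 1 = x by omega] at h1
    rw [show 2 * (k + x + 1) - 2 * k + 1 = 2 * (x + 1) + 1 by omega,
      show k + x + 1 + 1 - k = x + 1 + 1 by omega, show k + x + 1 + 1 - (k + 1) = x + 1 by omega,
      show k + x + 1 + 1 - (k + 2) = x by omega]
    convert h1 using 1
    · push_cast
      congr 3
      ring
    · push_cast
      congr 3
      ring

/-- The mixture, `k = 0`. -/
theorem tri_mixP {p s m : ℕ} (a b : ℝ) (ha : 0 ≤ a) (hb : 0 ≤ b)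
    (hab : 2 * ((p : ℝ) + 1) * (s + p + 1) * b ≤ (s + 2 * p + 3) * a)
    (hm : 1 ≤ m) (hms : m ≤ s + 1) :
    ∃ f0 : ℝ, Tri (2 * p + 3) m f0
      (a * GE (p + 1) s p 0 + b * GE (p + 1) s (p + 1) 0)
      (a * GE (p + 1) s p 1 + b * GE (p + 1) s (p + 1) 1) := by
  obtain ⟨α, β, hα, hαβ, hβ, h⟩ := GE_mix p s a b ha hb hab
  rw [h 0 (by omega), h 1 (by omega)]
  rcases hα.eq_or_lt with h0 | h0
  · have hb0 : β = 0 := by
      have : (0 : ℝ) < (s : ℝ) + p + 1 := by positivity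
      rw [← h0, mul_zero] at hβ
      have h1 : β ≤ 0 := by
        by_contra hc
        have := mul_pos this (not_le.1 hc)
        linarith
      linarith
    rw [← h0, hb0]
    simp only [zero_mul, add_zero, mul_zero]
    exact ⟨0, tri_zero (by omega) hm⟩
  · have h1 := tri_hx (x := p + 1) (m := m) (N := s + p + 1) (by omega) hm (by omega) h0
      hαβ (by
        push_cast
        push_cast at hβ
        linarith)
    rw [show p + 1 - 1 = p by omega] at h1
    rw [show 2 * p + 3 = 2 * (p + 1) + 1 by omega, Nat.sub_zero, show p + 1 - 1 = p by omega]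
    refine ⟨Hx (p + 1 + 1) * (α + β * ((((p + 1 : ℕ) : ℝ) + 1) / (((p + 1 : ℕ) : ℝ) + 2))), ?_⟩
    convert h1 using 1
    push_cast
    congr 3
    ring

/-- The mixture, `k` maximal. -/
theorem tri_mixT {p s m : ℕ} (a b : ℝ) (ha : 0 ≤ a) (hb : 0 ≤ b)
    (hab : 2 * ((p : ℝ) + 1) * (s + p + 1) * b ≤ (s + 2 * p + 3) * a)
    (hm : 1 ≤ m) (hms : m ≤ s + p + 2) :
    ∃ f2 : ℝ, Tri 1 m
      (a * GE (p + 1) s p p + b * GE (p + 1) s (p + 1) p)
      (a * GE (p + 1) s p (p + 1) + b * GE (p + 1) s (p + 1) (p + 1)) f2 := by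
  obtain ⟨α, β, hα, hαβ, hβ, h⟩ := GE_mix p s a b ha hb hab
  rw [h p (by omega), h (p + 1) (by omega)]
  rcases hα.eq_or_lt with h0 | h0
  · have hb0 : β = 0 := by
      have : (0 : ℝ) < (s : ℝ) + p + 1 := by positivity
      rw [← h0, mul_zero] at hβ
      have h1 : β ≤ 0 := by
        by_contra hc
        have := mul_pos this (not_le.1 hc)
        linarith
      linarith
    rw [← h0, hb0]
    simp only [zero_mul, add_zero, mul_zero]
    exact ⟨0, tri_zero (by omega) hm⟩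
  · obtain ⟨x, h1⟩ := tri_h0 (m := m) (N := s + p + 1) hm (by omega) h0
      hαβ (by
        push_cast
        linarith)
    rw [show p + 1 - p = 1 by omega, show p + 1 - (p + 1) = 0 by omega]
    refine ⟨x, ?_⟩
    convert h1 using 1
    · push_cast
      congr 3
      ring
    · push_cast
      ring_nf

theorem pure_cond (p s : ℕ) :
    2 * ((p : ℝ) + 1) * (s + p + 1) * 0 ≤ (s + 2 * p + 3) * 1 := by
  rw [mul_zero, mul_one]
  positivity

theorem tri_genE {k p s q m : ℕ} (hk : k + 1 ≤ p) (hq : q ≤ p) (hm : 1 ≤ m)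
    (hms : m ≤ s + k + 2) :
    Tri (2 * p - 2 * k + 1) m (GE (p + 1) s q k) (GE (p + 1) s q (k + 1))
      (GE (p + 1) s q (k + 2)) := by
  induction k generalizing p s q with
  | zero =>
    obtain ⟨t, rfl⟩ : ∃ t, p = t + 1 := ⟨p - 1, by omega⟩
    have := tri_baseE (t := t) (s := s) hq hm (by omega)
    rw [show 2 * (t + 1) - 2 * 0 + 1 = 2 * t + 3 by omega]
    exact this
  | succ k ih =>
    obtain ⟨p, rfl⟩ : ∃ p', p = p' + 1 := ⟨p - 1, by omega⟩
    rcases Nat.lt_or_ge p q with h1 | h1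
    · have h2 : q = p + 1 := by omega
      subst h2
      have h3 := tri_mixE (p := p + 1) (s := s) (k := k + 1) (m := m) 1 0 zero_le_one le_rfl
        (pure_cond _ _) (by omega) hm (by omega)
      simpa using h3
    · obtain ⟨α, β, hα, hβ, h⟩ := GE_step (p := p + 1) (q := q) s (by omega)
      rw [h, h, h, show 2 * (p + 1) - 2 * (k + 1) + 1 = 2 * p - 2 * k + 1 by omega]
      exact Tri.add (Tri.smul hα (ih (p := p) (s := s + 1) (by omega) (by omega) (by omega)))
        (Tri.smul hβ (ih (p := p) (s := s + 1) (by omega) h1 (by omega)))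

theorem tri_topE {p s q m : ℕ} (hq : q ≤ p) (hm : 1 ≤ m) (hms : m ≤ s + p + 2) :
    ∃ f2 : ℝ, Tri 1 m (GE (p + 1) s q p) (GE (p + 1) s q (p + 1)) f2 := by
  induction p generalizing s q with
  | zero =>
    have h0 : q = 0 := by omega
    subst h0
    have h3 := tri_mixT (p := 0) (s := s) (m := m) 1 0 zero_le_one le_rfl (pure_cond _ _) hm
      (by omega)
    simpa using h3
  | succ p ih =>
    rcases Nat.lt_or_ge p q with h1 | h1
    · have h2 : q = p + 1 := by omega
      subst h2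
      have h3 := tri_mixT (p := p + 1) (s := s) (m := m) 1 0 zero_le_one le_rfl (pure_cond _ _) hm
        (by omega)
      simpa using h3
    · obtain ⟨α, β, hα, hβ, h⟩ := GE_step (p := p + 1) (q := q) s (by omega)
      rw [h, h]
      obtain ⟨x, hx⟩ := ih (s := s + 1) (q := q - 1) (by omega) (by omega)
      obtain ⟨y, hy⟩ := ih (s := s + 1) (q := q) h1 (by omega)
      exact ⟨_, Tri.add (Tri.smul hα hx) (Tri.smul hβ hy)⟩

end Pool.Agent.H89.ODD
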