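import Mathlib
import Pool.Agent.H89.ODD.NumE3

set_option autoImplicit false

/-!
# Project TAN / SHARP (MP_6cdc09_gt): the numbers `F` in even dimension
-/

open Pool.Agent.H35.ODD

namespace Pool.Agent.H89.ODD

variable {F : ℕ → ℕ → ℕ → ℕ → ℝ}

/-- `FH` and the complex line against the complex line. -/
structure FE (F : ℕ → ℕ → ℕ → ℕ → ℝ) : Prop extends FH F where
  two : ∀ n : ℕ, 2 ≤ n → F n 2 1 1 = 2 * F n 2 1 0

theorem F_eqE (h : FE F) (p s : ℕ) : ∃ κ : ℝ, 0 < κ ∧ ∀ q k, q ≤ p + 1 → k ≤ p + 1 →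
    F (s + 2 * p + 2) (2 * p + 2) q k = κ * GE (p + 1) s q k := by
  induction p generalizing s with
  | zero =>
    have hJ := (Jc_pos s).ne'
    have e1 := h.step (s + 2) 2 0 (by omega) (by omega)
    have e3 := Jc_succ s
    push_cast at e1
    have e4 : (s : ℝ) + 2 - 2 + 0 + 1 = s + 1 := by ring
    rw [e4] at e1
    have e10 : F (s + 2) 2 1 0 = F (s + 2) 2 0 0 / Jc s * Jc (s + 1) := by
      have e5 : Jc (s + 1) = (2 * s + 2) * Jc s / (2 * s + 3) := by
        rw [eq_div_iff (by positivity)]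
        linarith
      rw [e5]
      field_simp
      linarith
    refine ⟨F (s + 2) 2 0 0 / Jc s, div_pos (h.pos _ _ (by omega) (by omega)) (Jc_pos s),
      fun q k hq hk => ?_⟩
    rw [show s + 2 * 0 + 2 = s + 2 by omega, show 2 * 0 + 2 = 2 by omega]
    have hq' : q = 0 ∨ q = 1 := by omega
    have hk' : k = 0 ∨ k = 1 := by omega
    rcases hq' with rfl | rfl <;> rcases hk' with rfl | rfl
    · rw [GE_zero, add_zero, div_mul_cancel₀ _ hJ]
    · rw [GE_left s (by omega), h.symm]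
      exact e10
    · rw [GE_zero]
      exact e10
    · rw [h.two _ (by omega), e10]
      have : GE (0 + 1) s 1 1 = 2 * Jc (s + 1) := by
        have e := GE_succ 0 s 1 0
        rw [GE_zero, GE_zero, show s + 1 + (1 - 1) = s + 1 by omega] at e
        push_cast at e
        rw [show GE (0 + 1) s 1 1 = GE (0 + 1) s 1 (0 + 1) by rfl, e]
        ring
      rw [this]
      ring
  | succ p ih =>
    obtain ⟨κ, hκ, hF⟩ := ih (s + 1)
    have en : s + 1 + 2 * p + 2 = s + 2 * p + 3 := by omega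
    rw [en] at hF
    obtain ⟨c, hc, hrc⟩ := h.rc (s + 2 * p + 3) (2 * p + 2) (by omega) (by omega)
    have eN : s + 2 * (p + 1) + 2 = s + 2 * p + 3 + 1 := by omega
    have eI : 2 * (p + 1) + 2 = 2 * p + 2 + 2 := by omega
    rw [eN, eI]
    have hp0 : (0 : ℝ) ≤ p := Nat.cast_nonneg p
    set K : ℝ := c * ((2 * (p : ℝ) + 4) * (2 * p + 3)) * κ with hK
    have hK0 : 0 < K := by positivity
    have hsucc : ∀ Q k : ℕ, Q ≤ p + 2 → k ≤ p + 1 →
        F (s + 2 * p + 3 + 1) (2 * p + 2 + 2) Q (k + 1) = K * GE (p + 2) s Q (k + 1) := by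
      intro Q k hQ hk
      rw [h.symm, hrc k Q (by omega) (by omega), h.symm _ _ k (Q - 1), h.symm _ _ k Q,
        hF (Q - 1) k (by omega) hk, show p + 2 = p + 1 + 1 by rfl, GE_succ]
      rcases Nat.lt_or_ge (p + 1) Q with h2 | h2
      · have h3 : Q = p + 2 := by omega
        subst h3
        push_cast
        have : (2 * (p : ℝ) + 2 + 2 - 2 * (p + 2)) = 0 := by ring
        rw [this]
        have : (2 * ((p : ℝ) + 1) + 2 - 2 * (p + 2)) = 0 := by ring
        rw [this, hK]
        field_simp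
        ring
      · rw [hF Q k h2 hk, hK]
        push_cast
        field_simp
        ring
    refine ⟨K, hK0, fun Q k hQ hk => ?_⟩
    rcases Nat.eq_zero_or_pos k with h0 | h0
    · subst h0
      rcases Nat.eq_zero_or_pos Q with h1 | h1
      · subst h1
        have e1 := h.step (s + 2 * p + 3 + 1) (2 * p + 2 + 2) 0 (by omega) (by omega)
        have e2 := hsucc 0 0 (by omega) (by omega)
        rw [h.symm, GE_left s (by omega)] at e2
        rw [e2] at e1
        have e3 := Jc_succ s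
        rw [GE_zero]
        push_cast at e1
        have e4 : (s : ℝ) + 2 * p + 3 + 1 - (2 * p + 2 + 2) + 0 + 1 = s + 1 := by ring
        rw [e4] at e1
        have hs : (0 : ℝ) < 2 * ((s : ℝ) + 1) := by positivity
        refine mul_left_cancel₀ hs.ne' ?_
        rw [← e1]
        simp only [add_zero]
        calc (2 * ((s : ℝ) + 1) + 1) * (K * Jc (s + 1)) = K * ((2 * (s : ℝ) + 3) * Jc (s + 1)) := by
              ring
          _ = K * ((2 * s + 2) * Jc s) := by rw [e3]
          _ = 2 * ((s : ℝ) + 1) * (K * Jc s) := by ring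
      · obtain ⟨Q, rfl⟩ : ∃ Q', Q = Q' + 1 := ⟨Q - 1, by omega⟩
        rw [h.symm, hsucc 0 Q (by omega) (by omega), GE_left s (by omega), GE_zero]
    · obtain ⟨k, rfl⟩ : ∃ k', k = k' + 1 := ⟨k - 1, by omega⟩
      exact hsucc Q k hQ (by omega)

theorem F_posE (h : FE F) {n i q k : ℕ} (heven : Even i) (hi : 1 ≤ i) (hin : i ≤ n)
    (hq : 2 * q ≤ i) (hk : 2 * k ≤ i) : 0 < F n i q k := by
  obtain ⟨P, hP⟩ := heven
  obtain ⟨p, rfl⟩ : ∃ p, P = p + 1 := ⟨P - 1, by omega⟩
  obtain ⟨s, rfl⟩ : ∃ s, n = s + 2 * p + 2 := ⟨n - (2 * p + 2), by omega⟩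
  have hi' : i = 2 * p + 2 := by omega
  subst hi'
  obtain ⟨κ, hκ, hF⟩ := F_eqE h p s
  rw [hF q k (by omega) (by omega)]
  exact mul_pos hκ (GE_pos s (by omega) (by omega))

end Pool.Agent.H89.ODD
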