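import Mathlib
import Pool.Agent.H89.ODD.NumE4

set_option autoImplicit false

/-!
# Project SHARP (MP_6cdc09_gt): all triples lie in the triangle `Δ`

`Δ` (as a cone in `(f0, f1, f2)`): `A ≥ -1/(2m+1)`, `B ≤ 1/(r+2)` and below the line through the
isotropic point `(-1/(2m+1), -1/(2m-2))` and the complex point `(1/(r-1), 1/(r+2))`, where
`A = f2/f1 - 1`, `B = 1 - f0/f1`, `r ≥ 2` even the real dimension of the vertex.
-/

open Pool.Agent.H35.ODD

namespace Pool.Agent.H89.ODD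

/-- The triangle `Δ`. -/
def Del (r m : ℕ) (f0 f1 f2 : ℝ) : Prop :=
  0 ≤ f1 ∧ 2 * (m : ℝ) * f1 ≤ (2 * m + 1) * f2 ∧ ((r : ℝ) + 1) * f1 ≤ (r + 2) * f0 ∧
    ((r : ℝ) - 1) * (2 * m + 1) * f2 + (r + 2) * (2 * m - 2) * f0 ≤
      (4 * m * r + 2 * m - r - 2) * f1

theorem Del.add {r m : ℕ} {f0 f1 f2 g0 g1 g2 : ℝ} (hf : Del r m f0 f1 f2)
    (hg : Del r m g0 g1 g2) : Del r m (f0 + g0) (f1 + g1) (f2 + g2) := by
  obtain ⟨a1, a2, a3, a4⟩ := hf
  obtain ⟨b1, b2, b3, b4⟩ := hg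
  exact ⟨by linarith, by linarith, by linarith, by linarith⟩

theorem Del.smul {r m : ℕ} {f0 f1 f2 c : ℝ} (hc : 0 ≤ c) (hf : Del r m f0 f1 f2) :
    Del r m (c * f0) (c * f1) (c * f2) := by
  obtain ⟨a1, a2, a3, a4⟩ := hf
  have b1 := mul_nonneg hc a1
  have b2 := mul_le_mul_of_nonneg_left a2 hc
  have b3 := mul_le_mul_of_nonneg_left a3 hc
  have b4 := mul_le_mul_of_nonneg_left a4 hc
  exact ⟨b1, by linarith, by linarith, by linarith⟩

/-- Smaller `m`. -/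
theorem Del.mono {r m M : ℕ} (hr : 1 ≤ r) (hm : 1 ≤ m) (hmM : m ≤ M) {f0 f1 f2 : ℝ}
    (h : Del r M f0 f1 f2) : Del r m f0 f1 f2 := by
  obtain ⟨a1, a2, a3, a4⟩ := h
  have hr' : (1 : ℝ) ≤ r := by exact_mod_cast hr
  have hm' : (1 : ℝ) ≤ m := by exact_mod_cast hm
  have hM' : (m : ℝ) ≤ M := by exact_mod_cast hmM
  have h2 : 2 * (m : ℝ) * f1 ≤ (2 * m + 1) * f2 := by
    have hp : (0 : ℝ) < 2 * M + 1 := by linarith
    refine le_of_mul_le_mul_left ?_ hp
    have e1 := mul_le_mul_of_nonneg_left a2 (by linarith : (0 : ℝ) ≤ 2 * m + 1)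
    have e2 : 0 ≤ 2 * ((M : ℝ) - m) * f1 := mul_nonneg (by linarith) a1
    linarith
  refine ⟨a1, h2, a3, ?_⟩
  -- linear in `m`: at `m = 1` it is `(r-1) f2 ≤ r f1`
  by_cases hs : ((r : ℝ) - 1) * (f2 - f1) ≤ (r + 2) * (f1 - f0)
  · have h5 : ((r : ℝ) - 1) * (f2 - f1) ≤ f1 := by linarith
    have h6 := mul_nonneg (by linarith : (0 : ℝ) ≤ m - 1) (by linarith :
      (0 : ℝ) ≤ (r + 2) * (f1 - f0) - (r - 1) * (f2 - f1))
    nlinarith
  · have h6 := mul_nonneg (by linarith : (0 : ℝ) ≤ M - m) (by linarith [not_le.1 hs] :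
      (0 : ℝ) ≤ (r - 1) * (f2 - f1) - (r + 2) * (f1 - f0))
    nlinarith

theorem del_F {r M q v : ℕ} (hr : 2 ≤ r) (hM : 2 ≤ M) (hq : 1 ≤ q) (hv : r + 2 = v + 2 * q)
    {F0 F1 F2 : ℝ}
    (h0 : F0 = r * (r - 1) * ((r + 1) * (r + 2)) * (2 * (M + q - 1) + 1) * (2 * (M + q - 1) + 3))
    (h1 : F1 = r * (r - 1) * (2 * ((r + 1) * (r + 2)) * (M + q - 1) + 4 * q * (M + r + 1)) *
      (2 * (M + q - 1) + 3))
    (h2 : F2 = 8 * q * (r + 2 - q) * (2 * (M + q - 1) + 3) *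
        (r * (r - 1) * (M + q - 1) + 2 * (q - 1) * (M + r)) +
      2 * (r + 2 - 2 * q) * (r + 1 - 2 * q) * (M + q - 1) *
        (2 * ((M + q - 1) + 1) * (r * (r - 1)) + 4 * q * (M + r))) :
    Del r M F0 F1 F2 := by
  have r1 : (2 : ℝ) ≤ r := by exact_mod_cast hr
  have r2 : (2 : ℝ) ≤ M := by exact_mod_cast hM
  have r3 : (1 : ℝ) ≤ q := by exact_mod_cast hq
  have r4 : (r : ℝ) + 2 = v + 2 * q := by exact_mod_cast hv
  have v0 : (0 : ℝ) ≤ v := Nat.cast_nonneg v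
  have p1 : (0 : ℝ) ≤ r - 1 := by linarith
  have p2 : (0 : ℝ) ≤ q - 1 := by linarith
  have p3 : (0 : ℝ) ≤ r + 2 - 2 * q := by linarith
  have p4 : (0 : ℝ) < M + q - 1 := by linarith
  refine ⟨?_, ?_, ?_, ?_⟩
  · rw [h1]
    positivity
  · have nA : (2 * (M : ℝ) + 1) * F2 - 2 * M * F1 =
      q * (2 * M + r) * (2 * M + r + 1) *
        (4 * (q - 1) * (r ^ 2 + 5 * r + 6 * M + 6) + 4 * r * M * (r - 1)) := by
      rw [h1, h2]
      ring
    have : 0 ≤ (q : ℝ) * (2 * M + r) * (2 * M + r + 1) *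
        (4 * (q - 1) * (r ^ 2 + 5 * r + 6 * M + 6) + 4 * r * M * (r - 1)) := by positivity
    linarith
  · have nB : ((r : ℝ) + 2) * F0 - (r + 1) * F1 =
        r * (r - 1) * (2 * (M + q - 1) + 3) * (r + 1) * ((r + 2 - 2 * q) * (2 * M + r)) := by
      rw [h0, h1]
      ring
    have : 0 ≤ (r : ℝ) * (r - 1) * (2 * (M + q - 1) + 3) * (r + 1) *
        ((r + 2 - 2 * q) * (2 * M + r)) := by positivity
    linarith
  · have nC : (4 * (M : ℝ) * r + 2 * M - r - 2) * F1 - ((r - 1) * (2 * M + 1) * F2 +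
        (r + 2) * (2 * M - 2) * F0) =
        6 * q * (r + 2 - 2 * q) * (r - 1) * (2 * M + r) * (2 * M + r + 1) * (2 * M + r + 2) := by
      rw [h0, h1, h2]
      ring
    have : 0 ≤ 6 * (q : ℝ) * (r + 2 - 2 * q) * (r - 1) * (2 * M + r) * (2 * M + r + 1) *
        (2 * M + r + 2) := by positivity
    linarith

theorem del_iso {r M : ℕ} (hM : 2 ≤ M) (hr : 1 ≤ r) {f0 f1 f2 : ℝ}
    (hf : 0 ≤ f1) (h0 : (2 * (M : ℝ) - 1) * f1 = (2 * M - 2) * f0)
    (h2 : (2 * (M : ℝ) + 1) * f2 = 2 * M * f1) : Del r M f0 f1 f2 := by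
  have r2 : (2 : ℝ) ≤ M := by exact_mod_cast hM
  have r1 : (1 : ℝ) ≤ r := by exact_mod_cast hr
  refine ⟨hf, h2.ge, ?_, ?_⟩
  · have h3 : f1 ≤ f0 := by
      have hp : (0 : ℝ) < 2 * M - 2 := by linarith
      refine le_of_mul_le_mul_left ?_ hp
      linarith
    nlinarith
  · have e1 : ((r : ℝ) - 1) * (2 * M + 1) * f2 = (r - 1) * (2 * M * f1) := by
      rw [← h2]
      ring
    have e2 : ((r : ℝ) + 2) * (2 * M - 2) * f0 = (r + 2) * ((2 * M - 1) * f1) := by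
      rw [h0]
      ring
    rw [e1, e2]
    nlinarith

theorem del_baseE {t s q : ℕ} (hq : q ≤ t + 2) :
    Del (2 * t + 2) (s + 2) (GE (t + 2) s q 0) (GE (t + 2) s q 1) (GE (t + 2) s q 2) := by
  rcases Nat.eq_zero_or_pos q with h0 | h0
  · subst h0
    rw [GE_left s (by omega), GE_left s (by omega), GE_left s (by omega)]
    refine del_iso (M := s + 2) (by omega) (by omega) (Jc_pos _).le ?_ ?_
    · have := Jc_succ s
      push_cast
      simp only [add_zero]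
      linarith
    · have := Jc_succ (s + 1)
      push_cast at this ⊢
      linarith
  · obtain ⟨u, rfl⟩ : ∃ u, q = u + 1 := ⟨q - 1, by omega⟩
    set g : ℝ := Jc (s + u + 2) with hg
    have hgp : 0 < g := Jc_pos _
    have j0 : Jc (s + u + 1) = g * (2 * ((s : ℝ) + u + 2) + 1) / (2 * ((s : ℝ) + u + 2)) := by
      have := Jc_succ (s + u + 1)
      push_cast at this
      rw [eq_div_iff (by positivity)]
      rw [hg]
      linarith
    have j2 : Jc (s + u + 3) = g * (2 * ((s : ℝ) + u + 2) + 2) / (2 * ((s : ℝ) + u + 2) + 3) := by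
      have := Jc_succ (s + u + 2)
      push_cast at this
      rw [eq_div_iff (by positivity)]
      rw [hg]
      linarith
    have g0 : GE (t + 2) s (u + 1) 0 = Jc (s + u + 1) := by
      rw [GE_zero]
      rfl
    have g1 : GE (t + 2) s (u + 1) 1 =
        (4 * ((u : ℝ) + 1) * (2 * ((t : ℝ) + 1) + 2 - (u + 1)) * Jc (s + u + 1) +
          (2 * ((t : ℝ) + 1) + 2 - 2 * (u + 1)) * (2 * ((t : ℝ) + 1) + 1 - 2 * (u + 1)) * g) /
          ((2 * ((t : ℝ) + 1) + 2) * (2 * (t + 1) + 1)) := by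
      rw [GE_succ, GE_zero, GE_zero, show s + 1 + (u + 1 - 1) = s + u + 1 by omega,
        show s + 1 + (u + 1) = s + u + 2 by omega]
      push_cast
      rfl
    have g2a : GE (t + 1) (s + 1) (u + 1) 1 =
        (4 * ((u : ℝ) + 1) * (2 * (t : ℝ) + 2 - (u + 1)) * g +
          (2 * (t : ℝ) + 2 - 2 * (u + 1)) * (2 * (t : ℝ) + 1 - 2 * (u + 1)) * Jc (s + u + 3)) /
          ((2 * (t : ℝ) + 2) * (2 * t + 1)) := by
      rw [GE_succ, GE_zero, GE_zero, show s + 1 + 1 + (u + 1 - 1) = s + u + 2 by omega,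
        show s + 1 + 1 + (u + 1) = s + u + 3 by omega]
      push_cast
      rfl
    have g2b : GE (t + 1) (s + 1) u 1 =
        (4 * (u : ℝ) * (2 * (t : ℝ) + 2 - u) * Jc (s + u + 1) +
          (2 * (t : ℝ) + 2 - 2 * u) * (2 * (t : ℝ) + 1 - 2 * u) * g) /
          ((2 * (t : ℝ) + 2) * (2 * t + 1)) := by
      rw [GE_succ, GE_zero, GE_zero]
      rcases Nat.eq_zero_or_pos u with h1 | h1
      · subst h1
        rw [hg]
        simp
      · rw [show s + 1 + 1 + (u - 1) = s + u + 1 by omega,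
          show s + 1 + 1 + u = s + u + 2 by omega]
    have g2 : GE (t + 2) s (u + 1) 2 =
        (4 * ((u : ℝ) + 1) * (2 * ((t : ℝ) + 1) + 2 - (u + 1)) * GE (t + 1) (s + 1) u 1 +
          (2 * ((t : ℝ) + 1) + 2 - 2 * (u + 1)) * (2 * ((t : ℝ) + 1) + 1 - 2 * (u + 1)) *
            GE (t + 1) (s + 1) (u + 1) 1) /
          ((2 * ((t : ℝ) + 1) + 2) * (2 * (t + 1) + 1)) := by
      rw [GE_succ]
      push_cast
      rfl
    set r : ℕ := 2 * t + 2 with hr
    set M : ℕ := s + 2 with hM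
    have hrc : (r : ℝ) = 2 * t + 2 := by rw [hr]; push_cast; ring
    have hMc : (M : ℝ) = s + 2 := by rw [hM]; push_cast; ring
    set c : ℝ := g / (((r : ℝ) * (r - 1)) * ((r + 1) * (r + 2)) *
      (2 * ((s : ℝ) + u + 2)) * (2 * ((s : ℝ) + u + 2) + 3)) with hc
    have ht0 : (0 : ℝ) ≤ t := Nat.cast_nonneg t
    have hr1 : (0 : ℝ) < (r : ℝ) - 1 := by rw [hrc]; linarith
    have hc0 : 0 ≤ c := by positivity
    have key := del_F (r := r) (M := M) (q := u + 1) (v := 2 * t + 2 - 2 * u) (by omega)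
      (by omega) (by omega) (by omega) rfl rfl rfl
    have k2 := Del.smul hc0 key
    have hs0 : (0 : ℝ) < (s : ℝ) + u + 2 := by positivity
    have h9 : 2 * (t : ℝ) + 2 - 1 ≠ 0 := by
      have : 0 < 2 * (t : ℝ) + 2 - 1 := by linarith
      exact this.ne'
    have h9' : 2 * ((t : ℝ) + 1) - 1 ≠ 0 := by
      have : 0 < 2 * ((t : ℝ) + 1) - 1 := by linarith
      exact this.ne'
    convert k2 using 1
    · rw [g0, j0, hc]
      push_cast
      rw [hrc, hMc]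
      have : (s : ℝ) + 2 + (u + 1) - 1 = s + u + 2 := by ring
      rw [this]
      field_simp
    · rw [g1, j0, hc]
      push_cast
      rw [hrc, hMc]
      have : (s : ℝ) + 2 + (u + 1) - 1 = s + u + 2 := by ring
      rw [this]
      field_simp
      ring
    · rw [g2, g2a, g2b, j0, j2, hc]
      push_cast
      rw [hrc, hMc]
      have : (s : ℝ) + 2 + (u + 1) - 1 = s + u + 2 := by ring
      rw [this]
      field_simp
      ring


/-! ### Induction -/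

theorem GE_step' {p q : ℕ} (s : ℕ) (hq : q ≤ p + 1) : ∃ α β : ℝ, 0 ≤ α ∧ 0 ≤ β ∧
    (p < q → β = 0) ∧
    ∀ k, GE (p + 1) s q (k + 1) = α * GE p (s + 1) (q - 1) k + β * GE p (s + 1) q k := by
  have hq' : (q : ℝ) ≤ p + 1 := by exact_mod_cast hq
  have hp0 : (0 : ℝ) ≤ p := Nat.cast_nonneg p
  refine ⟨4 * (q : ℝ) * (2 * (p : ℝ) + 2 - q) / ((2 * (p : ℝ) + 2) * (2 * p + 1)),
    (2 * (p : ℝ) + 2 - 2 * q) * (2 * (p : ℝ) + 1 - 2 * q) / ((2 * (p : ℝ) + 2) * (2 * p + 1)),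
    ?_, ?_, fun h => ?_, fun k => ?_⟩
  · have : 0 ≤ 2 * (p : ℝ) + 2 - q := by linarith
    positivity
  · rcases Nat.lt_or_ge p q with h2 | h2
    · have h3 : q = p + 1 := by omega
      have h4 : (2 * (p : ℝ) + 2 - 2 * q) = 0 := by
        rw [h3]
        push_cast
        ring
      rw [h4]
      simp
    · have h4 : (q : ℝ) ≤ p := by exact_mod_cast h2
      have c1 : 0 ≤ 2 * (p : ℝ) + 2 - 2 * q := by linarith
      have c2 : 0 ≤ 2 * (p : ℝ) + 1 - 2 * q := by linarith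
      positivity
  · have h3 : q = p + 1 := by omega
    have h4 : (2 * (p : ℝ) + 2 - 2 * q) = 0 := by
      rw [h3]
      push_cast
      ring
    rw [h4]
    simp
  · rw [GE_succ]
    ring

/-- All vertices, `k ≥ 1`, `r = 2p - 2k ≥ 2`. -/
theorem del_genE {k p s q : ℕ} (hk : k + 1 ≤ p) (hq : q ≤ p + 1) :
    Del (2 * p - 2 * k) (s + k + 2) (GE (p + 1) s q k) (GE (p + 1) s q (k + 1))
      (GE (p + 1) s q (k + 2)) := by
  induction k generalizing p s q with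
  | zero =>
    obtain ⟨t, rfl⟩ : ∃ t, p = t + 1 := ⟨p - 1, by omega⟩
    have := del_baseE (t := t) (s := s) hq
    rw [show 2 * (t + 1) - 2 * 0 = 2 * t + 2 by omega, add_zero]
    exact this
  | succ k ih =>
    obtain ⟨p, rfl⟩ : ∃ p', p = p' + 1 := ⟨p - 1, by omega⟩
    obtain ⟨α, β, hα, hβ, hb, h⟩ := GE_step' (p := p + 1) (q := q) s (by omega)
    rw [h, h, h, show 2 * (p + 1) - 2 * (k + 1) = 2 * p - 2 * k by omega,
      show s + (k + 1) + 2 = s + 1 + k + 2 by omega]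
    have t1 := Del.smul hα (ih (p := p) (s := s + 1) (q := q - 1) (by omega) (by omega))
    rcases Nat.lt_or_ge (p + 1) q with h1 | h1
    · rw [hb h1, zero_mul, zero_mul, zero_mul, add_zero, add_zero, add_zero]
      exact t1
    · exact Del.add t1 (Del.smul hβ (ih (p := p) (s := s + 1) (q := q) (by omega) h1))

/-- `k = 0`: `f0` free, `m = 1`. -/
theorem del_pairE {p s q : ℕ} (hq : q ≤ p + 1) :
    ∃ f0 : ℝ, Del (2 * p + 2) 1 f0 (GE (p + 1) s q 0) (GE (p + 1) s q 1) := by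
  have hJ := Jc_pos (s + q)
  have hp0 : (0 : ℝ) ≤ p := Nat.cast_nonneg p
  have hs0 : (0 : ℝ) ≤ s := Nat.cast_nonneg s
  have hq0 : (0 : ℝ) ≤ q := Nat.cast_nonneg q
  have hqp : (q : ℝ) ≤ p + 1 := by exact_mod_cast hq
  have e1 : GE (p + 1) s q 1 = Jc (s + q) * ((((2 * p + 2) * (2 * p + 1) + 2 * q) *
      (2 * (s + q) + 2) + 4 * q * (2 * p + 2 - q)) /
        ((2 * p + 2) * (2 * p + 1) * (2 * (s + q) + 3))) := by
    have hj := Jc_succ (s + q)
    push_cast at hj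
    have hj' : Jc (s + q + 1) = (2 * ((s : ℝ) + q) + 2) * Jc (s + q) / (2 * (s + q) + 3) := by
      rw [eq_div_iff (by positivity)]
      linarith
    have e0 : 4 * (q : ℝ) * (2 * (p : ℝ) + 2 - q) * Jc (s + 1 + (q - 1)) =
        4 * (q : ℝ) * (2 * (p : ℝ) + 2 - q) * Jc (s + q) := by
      rcases Nat.eq_zero_or_pos q with h0 | h0
      · rw [h0]
        push_cast
        ring
      · rw [show s + 1 + (q - 1) = s + q by omega]
    rw [GE_succ, GE_zero, GE_zero, e0, show s + 1 + q = s + q + 1 by omega, hj']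
    field_simp
    ring
  have e0 : GE (p + 1) s q 0 = Jc (s + q) := GE_zero _ _ _
  rw [e0]
  set X : ℝ := (((2 * p + 2) * (2 * p + 1) + 2 * q) *
      (2 * (s + q) + 2) + 4 * q * (2 * p + 2 - q)) /
        ((2 * p + 2) * (2 * p + 1) * (2 * (s + q) + 3)) with hX
  have hd : (0 : ℝ) < (2 * p + 2) * (2 * p + 1) * (2 * (s + q) + 3) := by positivity
  have a0 : (0 : ℝ) ≤ 4 * q * (2 * p + 2 - q) := by
    have : (0 : ℝ) ≤ 2 * p + 2 - q := by linarith
    positivity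
  refine ⟨Jc (s + q), hJ.le, ?_, ?_, ?_⟩
  · rw [e1]
    have h1 : (2 : ℝ) ≤ 3 * X := by
      rw [hX, mul_div_assoc', le_div_iff₀ hd]
      have a1 : 0 ≤ (2 * (p : ℝ) + 2) * (2 * p + 1) * (2 * (s + q)) := by positivity
      have a3 : 0 ≤ (2 * (q : ℝ)) * (2 * (s + q) + 2) := by positivity
      nlinarith
    have := mul_le_mul_of_nonneg_left h1 hJ.le
    push_cast
    linarith
  · nlinarith
  · rw [e1]
    have h1 : (2 * (p : ℝ) + 1) * X ≤ 2 * p + 2 := by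
      rw [hX, mul_div_assoc', div_le_iff₀ hd]
      have b0 : 0 ≤ (p : ℝ) + 1 - q := by linarith
      have b1 : 0 ≤ ((p : ℝ) + 1 - q) * (2 * (s + q) + 2) := by positivity
      nlinarith [mul_nonneg (by positivity : (0 : ℝ) ≤ 2 * p + 1) b1,
        mul_nonneg (by positivity : (0 : ℝ) ≤ 2 * p + 1) (mul_nonneg b0 b0)]
    have := mul_le_mul_of_nonneg_left h1 hJ.le
    push_cast
    linarith

end Pool.Agent.H89.ODD
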