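import Mathlib
import Pool.Agent.H89.EN.SpSide
import Pool.Agent.H89.EN.IxSide
import Pool.Agent.H89.EN.KForm
import Pool.Agent.H89.EN.Trig
import Pool.Agent.H89.EN.G1

set_option autoImplicit false

/-!
# The condition at the vertex `r = 0` of the link (project SHARP, MP_6cdc09_gt)

Copy of `H89/EN/AB.lean` with `≤`: if the inequality of `EvenNecessary` does not hold for `e`, then
`(4B+1) gg e (ℂ^r) ≤ (6B+2) gg e (ℂ^(r-1) ⊕ ℝ²)`, `B = n - r + 1`.
-/

open MeasureTheory Pool.Agent.H61.UProj Pool.Agent.H89.CZ Pool.Agent.H35.NI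

noncomputable section

namespace Pool.Agent.H89.EN

private theorem AB_io_st {s q j : ℕ} : io s (st q j) = st (s + q) (s + j) := by
  ext i
  refine Fin.addCases (fun i => ?_) (fun i => ?_) i
  · rw [io_castAdd, st_apply, if_neg]
    simp only [Fin.val_castAdd]
    have := i.2
    omega
  · rw [io_natAdd, st_apply, st_apply]
    simp only [Fin.val_natAdd]
    by_cases h : (i : ℕ) = j
    · simp [h]
    · have : ¬ (s + (i : ℕ) = s + j) := by omega
      simp [h]

private theorem AB_append {s q : ℕ} :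
    (Fin.append (cf (s + q) s) ![io s (st q 0), io s (Complex.I • st q 0)] :
      Fin (2 * s + 2) → Cn (s + q)) = cf (s + q) (s + 1) := by
  funext a
  refine Fin.addCases (fun a => ?_) (fun a => ?_) a
  · rw [Fin.append_left]
    unfold cf vf
    have h1 : (a : ℕ) < 2 * s := a.2
    have h2 : (a : ℕ) < 2 * (s + 1) := by omega
    simp only [Fin.val_castAdd, h1, h2, if_true]
  · rw [Fin.append_right]
    unfold cf vf
    have h0 : io s (st q 0) = st (s + q) s := by
      have := AB_io_st (s := s) (q := q) (j := 0)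
      simpa using this
    fin_cases a
    · have h2 : 2 * s < 2 * (s + 1) := by omega
      have h4 : 2 * s / 2 = s := by omega
      simp [h0]
    · have h2 : 2 * s + 1 < 2 * (s + 1) := by omega
      have h3 : (2 * s + 1) % 2 = 1 := by omega
      have h4 : (2 * s + 1) / 2 = s := by omega
      simp only [io_smul, h0]
      simp only [Fin.natAdd, Fin.mk_one, h2, h3, h4]
      simp

private theorem AB_orth_area {q : ℕ} {u v : Cn q} (hu : ‖u‖ = 1) (hv : ‖v‖ = 1)
    (h : (inner ℝ u v : ℝ) = 0) : area u v = 1 := by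
  unfold area
  rw [hu, hv, h]
  simp

private theorem AB_cpx {q : ℕ} (hq : 2 ≤ q) (A B : ℝ) :
    KQ A B (st q 0) (Complex.I • st q 0) = A + B := by
  have h1 : (inner ℂ (st q 0) (st q 0) : ℂ) = 1 := by
    rw [cinner_st q 0 0 (by omega)]
    simp
  have h2 : (inner ℂ (st q 0) (Complex.I • st q 0) : ℂ) = Complex.I := by
    rw [inner_smul_right, h1, mul_one]
  have h3 : ‖st q 0‖ = 1 := by
    have h := @inner_self_eq_norm_sq ℂ (Cn q) _ _ _ (st q 0)
    rw [h1] at h
    have h4 : ‖st q 0‖ ^ 2 = 1 := by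
      rw [← h]
      simp
    have h6 := norm_nonneg (st q 0)
    nlinarith
  have h4 : ‖Complex.I • st q 0‖ = 1 := by
    rw [norm_smul, h3]
    simp
  have h5 : (inner ℝ (st q 0) (Complex.I • st q 0) : ℝ) = 0 := by
    rw [rinner_eq, h2]
    simp
  have h6 : om (st q 0) (Complex.I • st q 0) = 1 := by
    unfold om
    rw [h2]
    simp
  unfold KQ
  rw [AB_orth_area h3 h4 h5, h6]
  ring

private theorem AB_bb {q : ℕ} (A B : ℝ) (i j : Fin (2 * q)) :
    KQ A B (bb q i) (bb q j) = (if i = j then 0 else A) + B * om (bb q i) (bb q j) ^ 2 := by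
  have ho := orthonormal_bb q
  by_cases h : i = j
  · subst h
    have h1 : area (bb q i) (bb q i) = 0 := by
      unfold area
      rw [real_inner_self_eq_norm_sq, ho.1 i]
      simp
    have h2 : om (bb q i) (bb q i) = 0 := by
      have := om_symm (bb q i) (bb q i)
      linarith
    unfold KQ
    rw [h1, h2]
    simp
  · have h1 : area (bb q i) (bb q j) = 1 := AB_orth_area (ho.1 i) (ho.1 j) (ho.2 h)
    unfold KQ
    rw [h1, if_neg h]
    ring

private theorem AB_sum {q : ℕ} (A B : ℝ) :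
    ∑ i : Fin (2 * q), ∑ j : Fin (2 * q), KQ A B (bb q i) (bb q j) =
      2 * q * ((2 * q - 1) * A + B) := by
  have h1 : ∀ i : Fin (2 * q), ∑ j : Fin (2 * q), KQ A B (bb q i) (bb q j) =
      (2 * q - 1) * A + B := by
    intro i
    simp only [AB_bb]
    rw [Finset.sum_add_distrib, ← Finset.mul_sum, om_bb_sum, mul_one]
    congr 1
    have h2 : ∀ j : Fin (2 * q), (if i = j then (0 : ℝ) else A) = A - (if i = j then A else 0) := by
      intro j
      split_ifs <;> ring
    simp only [h2]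
    rw [Finset.sum_sub_distrib, Finset.sum_const, Finset.sum_ite_eq, if_pos (Finset.mem_univ _),
      Finset.card_univ, Fintype.card_fin, nsmul_eq_mul]
    push_cast
    ring
  rw [Finset.sum_congr rfl fun i _ => h1 i, Finset.sum_const, Finset.card_univ, Fintype.card_fin,
    nsmul_eq_mul]
  push_cast
  ring

private theorem AB_alg {s q A B P Q : ℝ} (hq : 2 ≤ q) (h1 : q * (A + B) = (s + 1) * P)
    (h2 : (2 * q - 1) * A + B = (s + 1) * P + (s + 2) * Q)
    (h3 : (s + 1) * (q - 1) * P ≤ (s + 2) * (3 * q + 1) * Q) :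
    (4 * q + 1) * B ≤ (2 * q + 1) * A := by
  have h4 : q * (q - 1) * ((4 * q + 1) * B - (2 * q + 1) * A) =
      q * ((s + 1) * (q - 1) * P - (s + 2) * (3 * q + 1) * Q) := by
    linear_combination ((4 * q + 1) * (q - 1) + (3 * q + 1)) * h1 - q * (3 * q + 1) * h2
  have h5 : 0 ≤ q * ((s + 2) * (3 * q + 1) * Q - (s + 1) * (q - 1) * P) := by
    apply mul_nonneg
    · linarith
    · linarith
  have h6 : 0 < q * (q - 1) := by
    apply mul_pos <;> linarith
  have h8 : 0 ≤ q * (q - 1) * ((2 * q + 1) * A - (4 * q + 1) * B) := by linarith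
  have h7 := nonneg_of_mul_nonneg_right h8 h6
  linarith

theorem ab_le {s q : ℕ} (hq : 2 ≤ q) {e : Fin (2 * s + 2) → Cn (s + q)}
    (he : Orthonormal ℝ e)
    (hc : ((s : ℝ) + 1) * (q - 1) * (∫ θ in (0 : ℝ)..Real.pi, TT e θ) ≤
      ((s : ℝ) + 2) * (3 * q + 1) * ∫ θ in (0 : ℝ)..Real.pi, TT e θ * Real.cos (2 * θ)) :
    ∃ A B : ℝ, (∀ u v : Cn q,
      gg e (Fin.append (cf (s + q) s) ![io s u, io s v]) = KQ A B u v) ∧
      (4 * q + 1) * B ≤ (2 * q + 1) * A := by
  obtain ⟨A, B, hk⟩ := k_form hq he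
  refine ⟨A, B, hk, ?_⟩
  have hsp := sp_side (s := s) (q := q) (by omega) he
  have hix := ix_side (n := s + q) (s := s) (by omega) he
  have hmin := int_minors (r := s) e
  have h1 : A + B = (∫ θ in (0 : ℝ)..Real.pi, TT e θ) / (Real.pi * (s + q).choose (s + 1)) := by
    have h := g_one (n := s + q) (r := s + 1) (by omega) he
    rw [← AB_append, hk, AB_cpx hq] at h
    exact h
  simp only [hk] at hsp
  rw [AB_sum] at hsp
  have hq0 : (0 : ℝ) < 2 * q := by
    have : 0 < 2 * q := by omega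
    exact_mod_cast this
  have hV : VV e = (2 * q - 1) * A + B := (mul_left_cancel₀ hq0.ne' hsp).symm
  have hon : ∀ (i : Fin (2 * s + 2)) (j : Fin (2 * s + 1)),
      Orthonormal ℝ (fun a : Fin (2 * s) => e (i.succAbove (j.succAbove a))) := by
    intro i j
    exact he.comp _ (Fin.succAbove_right_injective.comp Fin.succAbove_right_injective)
  have hix2 : ∑ i : Fin (2 * s + 2), ∑ j : Fin (2 * s + 1),
      gg (fun a : Fin (2 * s) => e (i.succAbove (j.succAbove a))) (cf (s + q) s) =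
      (∑ i : Fin (2 * s + 2), ∑ j : Fin (2 * s + 1),
        (∫ θ in (0 : ℝ)..Real.pi, TT (fun a : Fin (2 * s) => e (i.succAbove (j.succAbove a))) θ)) /
          (Real.pi * (s + q).choose s) := by
    rw [Finset.sum_div]
    refine Finset.sum_congr rfl fun i _ => ?_
    rw [Finset.sum_div]
    refine Finset.sum_congr rfl fun j _ => ?_
    exact g_one (n := s + q) (r := s) (by omega) (hon i j)
  rw [hix2, hmin, hV] at hix
  have hCpos : 0 < (s + q).choose s := Nat.choose_pos (by omega)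
  have hC'pos : 0 < (s + q).choose (s + 1) := Nat.choose_pos (by omega)
  have hC0 : (0 : ℝ) < (s + q).choose s := by exact_mod_cast hCpos
  have hC1 : (0 : ℝ) < (s + q).choose (s + 1) := by exact_mod_cast hC'pos
  have hCC : ((s + q).choose (s + 1) : ℝ) * (s + 1) = (s + q).choose s * q := by
    have h := Nat.choose_succ_right_eq (s + q) s
    have h2 : s + q - s = q := by omega
    rw [h2] at h
    exact_mod_cast h
  have hpi := Real.pi_pos
  set I0 := ∫ θ in (0 : ℝ)..Real.pi, TT e θ with hI0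
  set I2 := ∫ θ in (0 : ℝ)..Real.pi, TT e θ * Real.cos (2 * θ) with hI2
  set C0 : ℝ := ((s + q).choose s : ℝ) with hC0'
  set C1 : ℝ := ((s + q).choose (s + 1) : ℝ) with hC1'
  have hq2 : (2 : ℝ) ≤ q := by exact_mod_cast hq
  have hs0 : (0 : ℝ) < 2 * ((s : ℝ) + 1) := by positivity
  refine AB_alg (s := s) (q := q) (P := I0 / (Real.pi * C0)) (Q := I2 / (Real.pi * C0)) hq2 ?_ ?_ ?_
  · rw [h1]
    have e1 : (q : ℝ) * (I0 / (Real.pi * C1)) = (q * C0) * I0 / (Real.pi * C1 * C0) := by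
      field_simp
    have e2 : ((s : ℝ) + 1) * (I0 / (Real.pi * C0)) =
        (C1 * ((s : ℝ) + 1)) * I0 / (Real.pi * C1 * C0) := by
      field_simp
    rw [e1, e2, hCC]
    ring
  · have e3 : 2 * ((s : ℝ) + 1) * (((s : ℝ) + 1) * I0 + (s + 2) * I2) / (Real.pi * C0) =
        2 * ((s : ℝ) + 1) * (((s : ℝ) + 1) * (I0 / (Real.pi * C0)) +
          (s + 2) * (I2 / (Real.pi * C0))) := by
      field_simp
    rw [e3] at hix
    exact (mul_left_cancel₀ hs0.ne' hix).symm
  · have e4 : ((s : ℝ) + 2) * (3 * q + 1) * (I2 / (Real.pi * C0)) =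
        (((s : ℝ) + 2) * (3 * q + 1) * I2) / (Real.pi * C0) := by ring
    have e5 : ((s : ℝ) + 1) * (q - 1) * (I0 / (Real.pi * C0)) =
        (((s : ℝ) + 1) * (q - 1) * I0) / (Real.pi * C0) := by ring
    rw [e4, e5]
    exact div_le_div_of_nonneg_right hc (by positivity)


private theorem AB_append1 {s q : ℕ} :
    (Fin.append (cf (s + q) s) ![io s (st q 0), io s (st q 1)] :
      Fin (2 * s + 2) → Cn (s + q)) = fun a : Fin (2 * s + 2) => vf (s + q) s a := by
  funext a
  refine Fin.addCases (fun a => ?_) (fun a => ?_) a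
  · rw [Fin.append_left]
    rfl
  · rw [Fin.append_right]
    unfold vf
    fin_cases a
    · have h0 : io s (st q 0) = st (s + q) s := by
        have := AB_io_st (s := s) (q := q) (j := 0)
        simpa using this
      simp [h0]
    · have h0 : io s (st q 1) = st (s + q) (s + 1) := AB_io_st (s := s) (q := q) (j := 1)
      simp [h0]

private theorem AB_real {q : ℕ} (hq : 2 ≤ q) (A B : ℝ) : KQ A B (st q 0) (st q 1) = A := by
  have hn : ∀ j, j < q → ‖st q j‖ = 1 := by
    intro j hj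
    have h := @inner_self_eq_norm_sq ℂ (Cn q) _ _ _ (st q j)
    rw [cinner_st q j j hj] at h
    have h4 : ‖st q j‖ ^ 2 = 1 := by
      rw [← h]
      simp
    have h6 := norm_nonneg (st q j)
    nlinarith
  have h5 : (inner ℝ (st q 0) (st q 1) : ℝ) = 0 := by
    rw [rinner_eq, cinner_st q 0 1 (by omega)]
    simp
  have h6 : om (st q 0) (st q 1) = 0 := om_st q 0 1 (by omega)
  unfold KQ
  rw [AB_orth_area (hn 0 (by omega)) (hn 1 (by omega)) h5, h6]
  ring

/-- The condition at the vertex `r = 0`. -/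
theorem b_cond {n r : ℕ} (hr : 1 ≤ r) (hrn : r < n) {e : Fin (2 * r) → Cn n}
    (he : Orthonormal ℝ e)
    (hc : (r : ℝ) * (n - r) * (∫ θ in (0 : ℝ)..Real.pi, TT e θ) ≤
      ((r : ℝ) + 1) * (3 * n - 3 * r + 4) *
        ∫ θ in (0 : ℝ)..Real.pi, TT e θ * Real.cos (2 * θ)) :
    (4 * ((n : ℝ) - r + 1) + 1) * gg e (fun a : Fin (2 * r) => vf n r a) ≤
      (6 * ((n : ℝ) - r + 1) + 2) * gg e (fun a : Fin (2 * r) => vf n (r - 1) a) := by
  obtain ⟨s, rfl⟩ : ∃ s, r = s + 1 := ⟨r - 1, by omega⟩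
  obtain ⟨q, rfl⟩ : ∃ q, n = s + (q + 2) := ⟨n - s - 2, by omega⟩
  rw [show s + 1 - 1 = s by omega]
  have hc' : ((s : ℝ) + 1) * (((q + 2 : ℕ) : ℝ) - 1) * (∫ θ in (0 : ℝ)..Real.pi, TT e θ) ≤
      ((s : ℝ) + 2) * (3 * ((q + 2 : ℕ) : ℝ) + 1) *
        ∫ θ in (0 : ℝ)..Real.pi, TT e θ * Real.cos (2 * θ) := by
    have e1 : ((s : ℝ) + 2) * (3 * ((q + 2 : ℕ) : ℝ) + 1) =
        (((s + 1 : ℕ) : ℝ) + 1) * (3 * ((s + (q + 2) : ℕ) : ℝ) - 3 * ((s + 1 : ℕ) : ℝ) + 4) := by
      push_cast
      ring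
    have e2 : ((s : ℝ) + 1) * (((q + 2 : ℕ) : ℝ) - 1) =
        ((s + 1 : ℕ) : ℝ) * (((s + (q + 2) : ℕ) : ℝ) - ((s + 1 : ℕ) : ℝ)) := by
      push_cast
      ring
    rw [e1, e2]
    exact hc
  obtain ⟨A, B, hK, hAB⟩ := ab_le (s := s) (q := q + 2) (by omega) (e := e) he hc'
  have h1 : gg e (fun a : Fin (2 * (s + 1)) => vf (s + (q + 2)) (s + 1) a) = A + B := by
    have h := hK (st (q + 2) 0) (Complex.I • st (q + 2) 0)
    rw [AB_append, AB_cpx (by omega)] at h
    exact h
  have h2 : gg e (fun a : Fin (2 * (s + 1)) => vf (s + (q + 2)) s a) = A := by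
    have h := hK (st (q + 2) 0) (st (q + 2) 1)
    rw [AB_append1, AB_real (by omega)] at h
    exact h
  rw [h1, h2]
  push_cast at hAB ⊢
  linarith

end Pool.Agent.H89.EN
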