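import Mathlib
import Pool.Agent.H35.ODD.OBri
import Pool.Agent.H35.ODD.OFun
import Pool.Agent.H89.ODD.NumD
import Pool.Agent.H89.ODD.Bc
import Pool.Agent.H89.EN.GVert

set_option autoImplicit false

/-!
# Projects TAN, SHARP (MP_6cdc09_gt): the numbers at the vertices of the link, even dimension

`i = m + 2` even, `2B = 2n - m`, `z = |Z|`.
-/

open MeasureTheory Pool.Agent.H61.UProj Pool.Agent.H89.CZ Pool.Agent.H35.NI Pool.Agent.H89.EN
open Pool.Agent.H35.ODD

noncomputable section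

namespace Pool.Agent.H89.ODD

theorem fe : FE Fq where
  toFH := fh
  two n hn := by
    have h1 : Fq n 2 1 1 = dd 0 / (n.choose 1) :=
      g_vert (n := n) (r := 1) (k := 1) le_rfl (by omega)
    have h2 : Fq n 2 0 1 = dd 1 / (n.choose 1) :=
      g_vert (n := n) (r := 1) (k := 0) (by omega) (by omega)
    rw [fh.symm n 2 1 0, h1, h2, dd_succ 0, dd_zero]
    push_cast
    ring

theorem del_sum {r m : ℕ} (S : ℕ) (lam g0 g1 g2 : ℕ → ℝ) (hl : ∀ q, 0 ≤ lam q)
    (h : ∀ q, q ≤ S → Del r m (g0 q) (g1 q) (g2 q)) :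
    Del r m (∑ q ∈ Finset.range (S + 1), lam q * g0 q)
      (∑ q ∈ Finset.range (S + 1), lam q * g1 q) (∑ q ∈ Finset.range (S + 1), lam q * g2 q) := by
  induction S with
  | zero =>
    rw [Finset.sum_range_one, Finset.sum_range_one, Finset.sum_range_one]
    exact Del.smul (hl 0) (h 0 le_rfl)
  | succ S ih =>
    rw [Finset.sum_range_succ, Finset.sum_range_succ _ (S + 1), Finset.sum_range_succ _ (S + 1)]
    exact Del.add (ih fun q hq => h q (by omega)) (Del.smul (hl (S + 1)) (h (S + 1) le_rfl))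

theorem num_del {F : ℕ → ℕ → ℕ → ℕ → ℝ} (h : FE F) {n i q k m : ℕ} (heven : Even i)
    (hin : i ≤ n) (hq : 2 * q ≤ i) (hk : 2 ≤ k) (hk' : 2 * k ≤ i) (hm : 1 ≤ m)
    (hm' : m + i ≤ k + n) :
    Del (i + 2 - 2 * k) m (F n i q (k - 2)) (F n i q (k - 1)) (F n i q k) := by
  obtain ⟨P, hP⟩ := heven
  obtain ⟨p, rfl⟩ : ∃ p, P = p + 1 := ⟨P - 1, by omega⟩
  obtain ⟨s, rfl⟩ : ∃ s, n = s + 2 * p + 2 := ⟨n - (2 * p + 2), by omega⟩
  have hi' : i = 2 * p + 2 := by omega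
  subst hi'
  obtain ⟨κ, hκ, hF⟩ := F_eqE h p s
  obtain ⟨k, rfl⟩ : ∃ k', k = k' + 2 := ⟨k - 2, by omega⟩
  rw [show k + 2 - 2 = k by omega, show k + 2 - 1 = k + 1 by omega,
    hF q k (by omega) (by omega), hF q (k + 1) (by omega) (by omega),
    hF q (k + 2) (by omega) (by omega), show 2 * p + 2 + 2 - 2 * (k + 2) = 2 * p - 2 * k by omega]
  refine Del.smul hκ.le (Del.mono (M := s + k + 2) (by omega) hm (by omega) ?_)
  exact del_genE (by omega) (by omega)

theorem num_delP {F : ℕ → ℕ → ℕ → ℕ → ℝ} (h : FE F) {n i q : ℕ} (heven : Even i) (hi : 2 ≤ i)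
    (hin : i ≤ n) (hq : 2 * q ≤ i) :
    ∃ f0 : ℝ, Del i 1 f0 (F n i q 0) (F n i q 1) := by
  obtain ⟨P, hP⟩ := heven
  obtain ⟨p, rfl⟩ : ∃ p, P = p + 1 := ⟨P - 1, by omega⟩
  obtain ⟨s, rfl⟩ : ∃ s, n = s + 2 * p + 2 := ⟨n - (2 * p + 2), by omega⟩
  have hi' : i = 2 * p + 2 := by omega
  subst hi'
  obtain ⟨κ, hκ, hF⟩ := F_eqE h p s
  rw [hF q 0 (by omega) (by omega), hF q 1 (by omega) (by omega)]
  obtain ⟨f0, h0⟩ := del_pairE (p := p) (s := s) (q := q) (by omega)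
  exact ⟨κ * f0, Del.smul hκ.le h0⟩

/-- The triples at the vertices with `r = 2B - 2z ≥ 2`. -/
theorem del_at {n m B : ℕ} (heven : Even m) (hm : m + 2 < 2 * n) (hB : m + 2 * B = 2 * n)
    {e : Fin (m + 2) → Cn n} (he : Orthonormal ℝ e) (φ : ℕ → ℝ)
    (hφ : ∀ x, x < B → n ≤ x + (m + 2) →
      φ x = gg e (fun a : Fin (m + 2) => vf n (x + (m + 2) - n) a))
    {z : ℕ} (hz : n ≤ m + z) (hz1 : 1 ≤ z) (hzB : z < B) :
    ∃ f0 : ℝ, Del (2 * B - 2 * z) z f0 (φ (z - 1)) (φ z) ∧ (2 ≤ z → f0 = φ (z - 2)) := by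
  rcases le_or_gt (m + 2) n with hin | hin
  · obtain ⟨lam, hl, -, hd⟩ := gg_dec (n := n) (by omega : 0 < m + 2) hin he
    have hφ' : ∀ x, x < B → n ≤ x + (m + 2) → φ x =
        ∑ q ∈ Finset.range ((m + 2) / 2 + 1), lam q * Fq n (m + 2) q (x + (m + 2) - n) := by
      intro x hx hnx
      rw [hφ x hx hnx, hd]
      rfl
    obtain ⟨k, hk⟩ : ∃ k, z + (m + 2) = n + k := ⟨z + (m + 2) - n, by omega⟩
    obtain ⟨t, ht⟩ := heven
    have heven' : Even (m + 2) := ⟨t + 1, by omega⟩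
    have hD := del_sum (r := m + 2 + 2 - 2 * k) (m := z) ((m + 2) / 2) lam
      (fun q => Fq n (m + 2) q (k - 2)) (fun q => Fq n (m + 2) q (k - 1))
      (fun q => Fq n (m + 2) q k) hl fun q hq =>
        num_del fe heven' hin (by omega) (by omega) (by omega) hz1 (by omega)
    have e1 : 2 * B - 2 * z = m + 2 + 2 - 2 * k := by omega
    refine ⟨φ (z - 2), ?_, fun _ => rfl⟩
    rw [e1, hφ' (z - 1) (by omega) (by omega), hφ' z hzB (by omega),
      hφ' (z - 2) (by omega) (by omega), show z - 1 + (m + 2) - n = k - 1 by omega,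
      show z + (m + 2) - n = k by omega, show z - 2 + (m + 2) - n = k - 2 by omega]
    exact hD
  · obtain ⟨t, ht⟩ := heven
    obtain ⟨i', hi'⟩ : ∃ i', m + 2 + i' = 2 * n := ⟨2 * n - (m + 2), by omega⟩
    have heven' : Even i' := ⟨n - t - 1, by omega⟩
    have h3 : 2 ≤ i' := by omega
    have hin' : i' ≤ n := by omega
    obtain ⟨e', hc⟩ := exists_cpl hi' he
    obtain ⟨lam, hl, -, hd⟩ := gg_dec (n := n) (by omega : 0 < i') hin' hc.2.1
    have hφ' : ∀ x, x < B → φ x = ∑ q ∈ Finset.range (i' / 2 + 1), lam q * Fq n i' q x := by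
      intro x hx
      rw [hφ x hx (by omega), gg_dual hi' (by omega) (by omega) (by omega) hc, hd]
      rfl
    rcases Nat.lt_or_ge z 2 with hz2 | hz2
    · have h1 : z = 1 := by omega
      subst h1
      have h1 : ∀ q, ∃ f0, q ≤ i' / 2 → Del i' 1 f0 (Fq n i' q 0) (Fq n i' q 1) := by
        intro q
        by_cases hq : q ≤ i' / 2
        · obtain ⟨f0, h⟩ := num_delP fe heven' h3 hin' (by omega : 2 * q ≤ i')
          exact ⟨f0, fun _ => h⟩
        · exact ⟨0, fun h => absurd h hq⟩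
      choose f0 hf0 using h1
      refine ⟨∑ q ∈ Finset.range (i' / 2 + 1), lam q * f0 q, ?_, fun h => by omega⟩
      rw [show 2 * B - 2 * 1 = i' by omega, show 1 - 1 = 0 by rfl, hφ' 0 (by omega),
        hφ' 1 (by omega)]
      exact del_sum (i' / 2) lam _ _ _ hl fun q hq => hf0 q hq
    · refine ⟨φ (z - 2), ?_, fun _ => rfl⟩
      have hD := del_sum (r := i' + 2 - 2 * z) (m := z) (i' / 2) lam
        (fun q => Fq n i' q (z - 2)) (fun q => Fq n i' q (z - 1))
        (fun q => Fq n i' q z) hl fun q hq =>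
          num_del fe heven' hin' (by omega) hz2 (by omega) hz1 (by omega)
      rw [show 2 * B - 2 * z = i' + 2 - 2 * z by omega, hφ' (z - 1) (by omega), hφ' z hzB,
        hφ' (z - 2) (by omega)]
      exact hD

/-- The condition at the vertex `r = 0` (and at `r = 2`). -/
theorem b_at {n m B : ℕ} (heven : Even m) (hm : m + 2 < 2 * n) (hB : m + 2 * B = 2 * n)
    {e : Fin (m + 2) → Cn n} (he : Orthonormal ℝ e)
    (hc : ((m : ℝ) + 2) * (2 * n - m - 2) * (∫ θ in (0 : ℝ)..Real.pi, TT e θ) ≤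
      ((m : ℝ) + 4) * (6 * n - 3 * m + 2) *
        ∫ θ in (0 : ℝ)..Real.pi, TT e θ * Real.cos (2 * θ)) (φ : ℕ → ℝ)
    (hφ : ∀ x, x < B → n ≤ x + (m + 2) →
      φ x = gg e (fun a : Fin (m + 2) => vf n (x + (m + 2) - n) a)) :
    (4 * (B : ℝ) + 1) * φ (B - 1) ≤ (6 * B + 2) * φ (B - 2) := by
  obtain ⟨s, hs⟩ := heven
  have hs' : m = 2 * s := by omega
  subst hs'
  have h1 := b_cond (n := n) (r := s + 1) (by omega) (by omega) (e := e) he (by
    push_cast at hc ⊢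
    linarith)
  have hBr : (B : ℝ) = n - ((s + 1 : ℕ) : ℝ) + 1 := by
    have h2 : B + s = n := by omega
    have h3 : (B : ℝ) + s = n := by exact_mod_cast h2
    push_cast
    linarith
  rw [← hBr] at h1
  rw [hφ (B - 1) (by omega) (by omega), hφ (B - 2) (by omega) (by omega),
    show B - 1 + (2 * s + 2) - n = s + 1 by omega, show B - 2 + (2 * s + 2) - n = s by omega]
  exact h1

end Pool.Agent.H89.ODD
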