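import Mathlib
import Pool.Agent.H89.ODD.LnkG
import Pool.Agent.H35.ODD.OFun
import Pool.Agent.H35.ODD.OEz
import Pool.Agent.H35.ISO.Ker

set_option autoImplicit false

/-!
# KerE: the kernel in the link, even dimension (copy of `H35/ODD/OKer.lean` with `link_gen`)

The vectors have real coordinate `0` (`(ζ u).2 = 0`).
-/

open MeasureTheory Pool.Agent.H61.UProj Pool.Agent.H89.CZ Pool.Agent.H35.NI Pool.Agent.H89.EN
open Pool.Agent.H35.ODD
open scoped ComplexConjugate

noncomputable section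

namespace Pool.Agent.H89.ODD

variable {n B : ℕ}

/-- `num` with values in a module. -/
private def numM {M : Type*} [AddCommGroup M] [Module ℝ M] (P2 : Bk B → Bk B → M) (P1 : Fin B → M)
    (X2 : Fin B → Fin B → M) (u v : Vc B) : M :=
  ∑ k, (im2 u v k ^ 2) • P1 k +
    ∑ j, ∑ k ∈ Finset.univ.erase j, (rho u j * rho v k - re2 u v j * re2 u v k) • P2 j k +
    ∑ j, ∑ k ∈ Finset.univ.erase j, (im2 u v j * im2 u v k) • X2 j k

private theorem numM_map {M : Type*} [AddCommGroup M] [Module ℝ M] (T : M →ₗ[ℝ] ℝ)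
    (P2 : Bk B → Bk B → M) (P1 : Fin B → M) (X2 : Fin B → Fin B → M) (u v : Vc B) :
    T (numM P2 P1 X2 u v) =
      num (fun j k => T (P2 j k)) (fun k => T (P1 k)) (fun j k => T (X2 j k)) u v := by
  unfold numM num
  simp only [map_add, map_sum, map_smul, smul_eq_mul]
  refine congrArg₂ (· + ·) (congrArg₂ (· + ·) ?_ ?_) ?_
  · exact Finset.sum_congr rfl fun k _ => mul_comm _ _
  · exact Finset.sum_congr rfl fun j _ => Finset.sum_congr rfl fun k _ => mul_comm _ _
  · exact Finset.sum_congr rfl fun j _ => Finset.sum_congr rfl fun k _ => mul_comm _ _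

private theorem num_mulK (x : ℝ) (P2 : Bk B → Bk B → ℝ) (P1 : Fin B → ℝ)
    (X2 : Fin B → Fin B → ℝ) (u v : Vc B) :
    num (fun j k => x * P2 j k) (fun k => x * P1 k) (fun j k => x * X2 j k) u v =
      x * num P2 P1 X2 u v := by
  unfold num
  simp only [mul_add, Finset.mul_sum, mul_assoc]

/-- The mean of elements of a module. -/
private def EP {M : Type*} [AddCommGroup M] [Module ℝ M] (s : Fin B → ℝ)
    (g : Finset (Fin B) → M) : M := ∑ Z, PZ s Z • g Z

private theorem EP_map {M : Type*} [AddCommGroup M] [Module ℝ M] (T : M →ₗ[ℝ] ℝ) (s : Fin B → ℝ)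
    (g : Finset (Fin B) → M) : T (EP s g) = EZ s (fun Z => T (g Z)) := by
  unfold EP EZ
  simp only [map_sum, map_smul, smul_eq_mul]

private theorem EZ_congrK {s : Fin B → ℝ} {g h : Finset (Fin B) → ℝ}
    (hgh : ∀ Z, PZ s Z ≠ 0 → g Z = h Z) : EZ s g = EZ s h := by
  unfold EZ
  refine Finset.sum_congr rfl fun Z _ => ?_
  by_cases hZ : PZ s Z = 0
  · rw [hZ, zero_mul, zero_mul]
  · rw [hgh Z hZ]

private theorem rmv_cardK (Z : Finset (Fin B)) (j : Bk B) : Z.card ≤ (rmv Z j).card + 1 := by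
  cases j with
  | none =>
    show Z.card ≤ Z.card + 1
    omega
  | some k =>
    have h := Finset.pred_card_le_card_erase (s := Z) (a := k)
    show Z.card ≤ (Z.erase k).card + 1
    omega

private theorem rmv_interK (Z S : Finset (Fin B)) (j : Bk B) : Z ∩ rmv S j = rmv (Z ∩ S) j := by
  cases j with
  | none => rfl
  | some k =>
    show Z ∩ S.erase k = (Z ∩ S).erase k
    rw [Finset.inter_erase]

private theorem Q2_EZ (c : Fin B → ℝ) (t : ℝ) (j k : Bk B) :
    EZ (fun l => c l ^ 2) (fun Z => (1 + t) ^ (rmv (rmv Z j) k).card) = Q2 c t j k := by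
  have h := EZ_gen (fun l => c l ^ 2) (rmv (rmv Finset.univ j) k) (1 + t)
  have h1 : ∀ Z : Finset (Fin B), Z ∩ rmv (rmv Finset.univ j) k = rmv (rmv Z j) k := fun Z => by
    rw [rmv_interK, rmv_interK, Finset.inter_univ]
  simp only [h1] at h
  rw [h]
  unfold Q2
  refine Finset.prod_congr rfl fun l _ => ?_
  ring

private theorem Q1_EZ (c : Fin B → ℝ) (t : ℝ) (k : Fin B) :
    EZ (fun l => c l ^ 2) (fun Z => (1 + t) ^ (Z.erase k).card) = Q1 c t k :=
  Q2_EZ c t none (some k)

private theorem QX_EZ (c : Fin B → ℝ) (t : ℝ) (j k : Fin B) :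
    c j * c k * EZ (fun l => c l ^ 2) (fun Z => (1 + t) ^ (((Z.erase j).erase k).card + 1) -
      (1 + t) ^ ((Z.erase j).erase k).card) = QX c t j k := by
  have h : (fun Z : Finset (Fin B) => (1 + t) ^ (((Z.erase j).erase k).card + 1) -
      (1 + t) ^ ((Z.erase j).erase k).card) =
      fun Z => t * (1 + t) ^ ((Z.erase j).erase k).card := by
    funext Z
    ring
  have h2 : EZ (fun l => c l ^ 2) (fun Z => (1 + t) ^ ((Z.erase j).erase k).card) =
      ∏ l ∈ (Finset.univ.erase j).erase k, (1 + t * c l ^ 2) := Q2_EZ c t (some j) (some k)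
  rw [h, EZ_mul, h2]
  unfold QX
  ring

theorem kernel_even {m : ℕ} (heven : Even m) (hm : m + 2 < 2 * n) {e : Fin (m + 2) → Cn n}
    (he : Orthonormal ℝ e) (W : Fin m → Cn n) (hW : Orthonormal ℝ W) :
    ∃ (B : ℕ) (c : Fin B → ℝ) (ζ : Cn n →ₗ[ℝ] Vc B) (φ : ℕ → ℝ), m + 2 * B = 2 * n ∧
      (∀ u, (ζ u).2 = 0) ∧
      (∀ k, 0 ≤ c k ∧ c k ≤ 1) ∧
      (∀ Z, PZ (fun k => c k ^ 2) Z ≠ 0 → n ≤ m + Z.card) ∧
      (∀ x, x < B → n ≤ x + (m + 2) →
        φ x = gg e (fun a : Fin (m + 2) => vf n (x + (m + 2) - n) a)) ∧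
      (∀ u v : Cn n, (∀ a, (inner ℝ (W a) u : ℝ) = 0) → (∀ a, (inner ℝ (W a) v : ℝ) = 0) →
        tto (ζ u) (ζ v) = inner ℝ u v) ∧
      ∀ u v : Cn n, (∀ a, (inner ℝ (W a) u : ℝ) = 0) → (∀ a, (inner ℝ (W a) v : ℝ) = 0) →
        gg e (Fin.cons u (Fin.cons v W : Fin (m + 1) → Cn n) : Fin (m + 2) → Cn n) *
            √(‖u‖ ^ 2 * ‖v‖ ^ 2 - (inner ℝ u v : ℝ) ^ 2) =
          num (AP2 c φ) (AP1 c φ) (AX2 c φ) (ζ u) (ζ v) := by
  obtain ⟨L, hL⟩ := exists_fun (n := n) (i := m + 2) (by omega) hm he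
  obtain ⟨B, c, ζ, hB', hc, hcard, htt, hl⟩ := link_gen W hW
  have hB : m + 2 * B = 2 * n ∧ ∀ u, (ζ u).2 = 0 := by
    rcases hB' with h | h
    · obtain ⟨a, rfl⟩ := heven
      omega
    · exact h
  have hZ : ∀ Z, PZ (fun k => c k ^ 2) Z ≠ 0 → n ≤ m + Z.card := by
    intro Z hZ
    have h1 : Finset.univ.filter (fun k => c k = 1) ⊆ Z := by
      intro k hk
      rw [Finset.mem_filter] at hk
      exact PZ_ne hZ k (by simp only [hk.2, one_pow])
    have h2 := Finset.card_le_card h1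
    omega
  refine ⟨B, c, ζ, fun x => L ((1 + Polynomial.X) ^ (x + (m + 2) - n)), hB.1, hB.2, hc, hZ,
    ?_, htt, ?_⟩
  · intro x hx hn
    have hk1 : 2 * (x + (m + 2) - n) ≤ m + 2 := by omega
    have hk2 : m + 2 ≤ n + (x + (m + 2) - n) := by omega
    have h := hL (fun a : Fin (m + 2) => vf n (x + (m + 2) - n) a)
      ((1 + Polynomial.X) ^ (x + (m + 2) - n)) (fun z => by
        rw [dz_vf hk1 hk2]
        simp)
    rw [GG_orth (vf_orth hk1 hk2), Real.sqrt_one, mul_one] at h
    exact h.symm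
  · intro u v hu hv
    have hG := Pool.Agent.H35.ISO.GG_link W hW u v hu hv
    rw [← hG]
    set s : Fin B → ℝ := fun k => c k ^ 2 with hs
    set R : ℕ → Polynomial ℝ := fun x => (1 + Polynomial.X) ^ (x + (m + 2) - n) with hR
    set p : Polynomial ℝ := numM (fun j k => EP s (fun Z => R (rmv (rmv Z j) k).card))
      (fun k => EP s (fun Z => R (Z.erase k).card))
      (fun j k => (c j * c k) • EP s (fun Z => R (((Z.erase j).erase k).card + 1) -
        R ((Z.erase j).erase k).card)) (ζ u) (ζ v) with hp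
    have hmain : ∀ z : ℝ, p.eval (z ^ 2) =
        dz (Fin.cons u (Fin.cons v W : Fin (m + 1) → Cn n) : Fin (m + 2) → Cn n) z := by
      intro z
      have hpos : (0 : ℝ) < 1 + z ^ 2 := by positivity
      refine mul_left_cancel₀ (pow_pos hpos n).ne' ?_
      rw [hl u v hu hv z, ← num_mulK]
      have h1 : (1 + z ^ 2) ^ n * p.eval (z ^ 2) =
          ((1 + z ^ 2) ^ n • Polynomial.leval (z ^ 2) : Polynomial ℝ →ₗ[ℝ] ℝ) p := by
        simp [Polynomial.leval_apply]
      have hT : ∀ x : ℕ, n ≤ x + (m + 2) →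
          ((1 + z ^ 2) ^ n • Polynomial.leval (z ^ 2) : Polynomial ℝ →ₗ[ℝ] ℝ) (R x) =
            (1 + z ^ 2) ^ (m + 2) * (1 + z ^ 2) ^ x := by
        intro x hx
        have h2 : ((1 + z ^ 2) ^ n • Polynomial.leval (z ^ 2) : Polynomial ℝ →ₗ[ℝ] ℝ) (R x) =
            (1 + z ^ 2) ^ n * (1 + z ^ 2) ^ (x + (m + 2) - n) := by
          simp [Polynomial.leval_apply, hR]
        rw [h2, ← pow_add, ← pow_add]
        congr 1
        omega
      rw [h1, hp, numM_map]
      generalize ((1 + z ^ 2) ^ n • Polynomial.leval (z ^ 2) : Polynomial ℝ →ₗ[ℝ] ℝ) = T at hT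
      have e2 : (fun j k : Bk B => T (EP s (fun Z => R (rmv (rmv Z j) k).card))) =
          fun j k => (1 + z ^ 2) ^ (m + 2) * Q2 c (z ^ 2) j k := by
        funext j k
        rw [EP_map, ← Q2_EZ, ← EZ_mul]
        refine EZ_congrK fun Z h => ?_
        have h3 := hZ Z h
        have h4 := rmv_cardK Z j
        have h5 := rmv_cardK (rmv Z j) k
        exact hT _ (by omega)
      have e1 : (fun k : Fin B => T (EP s (fun Z => R (Z.erase k).card))) =
          fun k => (1 + z ^ 2) ^ (m + 2) * Q1 c (z ^ 2) k := by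
        funext k
        rw [EP_map, ← Q1_EZ, ← EZ_mul]
        refine EZ_congrK fun Z h => ?_
        have h3 := hZ Z h
        have h4 : Z.card ≤ (Z.erase k).card + 1 := rmv_cardK Z (some k)
        exact hT _ (by omega)
      have eX : (fun j k : Fin B => T ((c j * c k) • EP s (fun Z =>
            R (((Z.erase j).erase k).card + 1) - R ((Z.erase j).erase k).card))) =
          fun j k => (1 + z ^ 2) ^ (m + 2) * QX c (z ^ 2) j k := by
        funext j k
        rw [map_smul, smul_eq_mul, EP_map, ← QX_EZ, mul_left_comm]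
        refine congrArg (fun y => c j * c k * y) ?_
        rw [← EZ_mul]
        refine EZ_congrK fun Z h => ?_
        have h3 := hZ Z h
        have h4 : Z.card ≤ (Z.erase j).card + 1 := rmv_cardK Z (some j)
        have h5 : (Z.erase j).card ≤ ((Z.erase j).erase k).card + 1 :=
          rmv_cardK (Z.erase j) (some k)
        rw [map_sub, hT _ (by omega), hT _ (by omega)]
        ring
      rw [e2, e1, eX]
    rw [hL _ p hmain, hp, numM_map]
    have e2 : (fun j k : Bk B => L (EP s (fun Z => R (rmv (rmv Z j) k).card))) =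
        AP2 c (fun x => L ((1 + Polynomial.X) ^ (x + (m + 2) - n))) := by
      funext j k
      rw [EP_map]
      rfl
    have e1 : (fun k : Fin B => L (EP s (fun Z => R (Z.erase k).card))) =
        AP1 c (fun x => L ((1 + Polynomial.X) ^ (x + (m + 2) - n))) := by
      funext k
      rw [EP_map]
      rfl
    have eX : (fun j k : Fin B => L ((c j * c k) • EP s (fun Z =>
          R (((Z.erase j).erase k).card + 1) - R ((Z.erase j).erase k).card))) =
        AX2 c (fun x => L ((1 + Polynomial.X) ^ (x + (m + 2) - n))) := by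
      funext j k
      rw [map_smul, smul_eq_mul, EP_map]
      simp only [map_sub]
      rfl
    rw [e2, e1, eX]

end Pool.Agent.H89.ODD
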