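import Mathlib
import Pool.Agent.H89.ODD.At

set_option autoImplicit false

/-!
# LowE: lower bound of `gg e`, even dimension (copy of `H35/ODD/OLow.lean`)
-/

open MeasureTheory Pool.Agent.H61.UProj Pool.Agent.H89.CZ Pool.Agent.H35.NI Pool.Agent.H89.EN
open Pool.Agent.H35.ODD

noncomputable section

namespace Pool.Agent.H89.ODD

private theorem ol_scale {n i : ℕ} (e : Fin i → Cn n) {w f : Fin i → Cn n} {t : ℝ} (ht : 0 < t)
    (h : ∀ x, DD x w = t * DD x f) : gg e w = t * gg e f := by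
  unfold gg
  rw [← integral_const_mul]
  refine integral_congr_ae (Filter.Eventually.of_forall fun φ => ?_)
  simp only [h, abs_mul, abs_of_pos ht]

/-- Orthonormal second argument, `i ≤ n`. -/
private theorem ol_orth {n i : ℕ} (heven : Even i) (hi : 0 < i) (hin : i ≤ n) :
    ∃ C : ℝ, 0 < C ∧ ∀ e f : Fin i → Cn n, Orthonormal ℝ e → Orthonormal ℝ f → C ≤ gg e f := by
  obtain ⟨p, hp, hmin⟩ := Finset.exists_min_image
    (Finset.range (i / 2 + 1) ×ˢ Finset.range (i / 2 + 1)) (fun p : ℕ × ℕ => Fq n i p.1 p.2)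
    ⟨(0, 0), by simp⟩
  rw [Finset.mem_product, Finset.mem_range, Finset.mem_range] at hp
  refine ⟨Fq n i p.1 p.2, F_posE fe heven hi hin (by omega) (by omega), fun e f he hf => ?_⟩
  obtain ⟨lam, hl0, hl1, hle⟩ := gg_dec hi hin he
  obtain ⟨mu, hm0, hm1, hmf⟩ := gg_dec hi hin hf
  have h1 : ∀ q ∈ Finset.range (i / 2 + 1),
      Fq n i p.1 p.2 ≤ gg (fun a : Fin i => vf n q a) f := by
    intro q hq
    rw [gg_symm, hmf]
    calc Fq n i p.1 p.2 = ∑ k ∈ Finset.range (i / 2 + 1), mu k * Fq n i p.1 p.2 := by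
          rw [← Finset.sum_mul, hm1, one_mul]
      _ ≤ _ := Finset.sum_le_sum fun k hk => mul_le_mul_of_nonneg_left
          (hmin (k, q) (Finset.mem_product.2 ⟨hk, hq⟩)) (hm0 k)
  rw [hle]
  calc Fq n i p.1 p.2 = ∑ q ∈ Finset.range (i / 2 + 1), lam q * Fq n i p.1 p.2 := by
        rw [← Finset.sum_mul, hl1, one_mul]
    _ ≤ _ := Finset.sum_le_sum fun q hq => mul_le_mul_of_nonneg_left (h1 q hq) (hl0 q)

theorem low_even {n i : ℕ} (heven : Even i) (hi : 0 < i) (hin : i < 2 * n) {e : Fin i → Cn n}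
    (he : Orthonormal ℝ e) : ∃ C : ℝ, 0 < C ∧ ∀ w : Fin i → Cn n, C * √(GG w) ≤ gg e w := by
  obtain ⟨C, hC, hCf⟩ : ∃ C : ℝ, 0 < C ∧ ∀ f : Fin i → Cn n, Orthonormal ℝ f → C ≤ gg e f := by
    rcases le_or_gt i n with hn | hn
    · obtain ⟨C, hC, h⟩ := ol_orth heven hi hn
      exact ⟨C, hC, fun f hf => h e f he hf⟩
    · obtain ⟨j, hj⟩ : ∃ j, i + j = 2 * n := ⟨2 * n - i, by omega⟩
      have hjo : Even j := by
        obtain ⟨t, ht⟩ := heven
        exact ⟨n - t, by omega⟩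
      obtain ⟨C, hC, h⟩ := ol_orth (n := n) (i := j) hjo (by omega) (by omega)
      obtain ⟨e', he'⟩ := exists_cpl hj he
      refine ⟨C, hC, fun f hf => ?_⟩
      obtain ⟨f', hf'⟩ := exists_cpl hj hf
      rw [Cpl.gg_eq hj he' hf']
      exact h e' f' he'.2.1 hf'.2.1
  refine ⟨C, hC, fun w => ?_⟩
  rcases frame hi w with ⟨h0, _, _⟩ | ⟨f, t, hf, ht, hG, hD, _⟩
  · rw [h0, Real.sqrt_zero, mul_zero]
    exact gg_nonneg e w
  · rw [ol_scale e ht hD, hG, Real.sqrt_sq ht.le, mul_comm t]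
    exact mul_le_mul_of_nonneg_right (hCf f hf) ht.le

end Pool.Agent.H89.ODD
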